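import Pool.Agent.Lib.MP_3efbeb_nt.T.BA

/-!
# Module B: upper bound for the large prime factors of `m + u`
-/

set_option autoImplicit false

namespace Pool.Agent.Lib.MP3efbeb.T

open Finset
open scoped Classical
open Pool.Agent.Lib.MP391708.QPA (PB rInd Rough Wp)

noncomputable section

namespace BM

/-- lower bound for the Mertens product -/
theorem wp_lower : ∃ c : ℝ, 0 < c ∧ ∀ z : ℝ, 2 ≤ z → c / Real.log z ≤ Wp z := by
  obtain ⟨C, hC, hM⟩ := GLM.mrb
  have hl2 : 0 < Real.log 2 := Real.log_pos (by norm_num)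
  set c : ℝ := 1 / 2 * (Real.log 2 * Real.exp (-(C / Real.log 2 + 1))) with hc
  have hc1 : c ≤ 1 / 2 * Real.log 2 := by
    rw [hc]
    refine mul_le_mul_of_nonneg_left ?_ (by norm_num)
    refine mul_le_of_le_one_right (by positivity) (Real.exp_le_one_iff.2 (neg_nonpos.2 ?_))
    positivity
  refine ⟨c, by positivity, fun z hz => ?_⟩
  have hlz : Real.log 2 ≤ Real.log z := Real.log_le_log (by norm_num) hz
  have hz0 : 0 < Real.log z := hl2.trans_le hlz
  obtain ⟨N, hN⟩ : ∃ N : ℕ, ⌈z⌉₊ = N + 1 :=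
    ⟨⌈z⌉₊ - 1, by have := Nat.ceil_pos.2 (by linarith : 0 < z); omega⟩
  have hNz : (N : ℝ) < z := by
    have : N < ⌈z⌉₊ := by omega
    exact Nat.lt_ceil.1 this
  have hPB : PB z ⊆ insert 2 ((Ioc 2 N).filter Nat.Prime) := by
    intro p hp
    unfold PB at hp
    rw [mem_filter, mem_range, hN] at hp
    rw [mem_insert, mem_filter, mem_Ioc]
    have := hp.2.two_le
    by_cases h : p = 2
    · exact Or.inl h
    · exact Or.inr ⟨⟨by omega, by omega⟩, hp.2⟩
  have h01 : ∀ p ∈ insert 2 ((Ioc 2 N).filter Nat.Prime), 0 ≤ 1 - 1 / (p : ℝ) ∧ 1 - 1 / (p : ℝ) ≤ 1 := by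
    intro p hp
    have hpp : p.Prime := by
      rw [mem_insert, mem_filter] at hp
      rcases hp with rfl | h
      · exact Nat.prime_two
      · exact h.2
    have h1 : (1 : ℝ) ≤ p := by exact_mod_cast hpp.one_lt.le
    have h2 : 1 / (p : ℝ) ≤ 1 := by
      rw [div_le_one (by linarith)]
      exact h1
    have h3 : 0 ≤ 1 / (p : ℝ) := by positivity
    constructor <;> linarith
  have hG : ∏ p ∈ insert 2 ((Ioc 2 N).filter Nat.Prime), (1 - 1 / (p : ℝ)) ≤ Wp z := by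
    unfold Wp
    exact Finset.prod_le_prod_of_subset_of_le_one hPB
      (fun p hp => (h01 p hp).1) (fun p hp _ => (h01 p hp).2)
  refine le_trans ?_ hG
  rw [prod_insert (by simp)]
  have h2 : (1 : ℝ) - 1 / ((2 : ℕ) : ℝ) = 1 / 2 := by norm_num
  rw [h2]
  have h3 : Real.exp (-((∑ p ∈ (Ioc 2 N).filter Nat.Prime, 1 / (p : ℝ)) +
      ∑ p ∈ (Ioc 2 N).filter Nat.Prime, 1 / (p : ℝ) ^ 2)) ≤
      ∏ p ∈ (Ioc 2 N).filter Nat.Prime, (1 - 1 / (p : ℝ)) := by
    rw [← sum_add_distrib, ← sum_neg_distrib, Real.exp_sum]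
    refine prod_le_prod (fun _ _ => (Real.exp_pos _).le) fun p hp => ?_
    rw [mem_filter, mem_Ioc] at hp
    have h4 : (2 : ℝ) ≤ p := by exact_mod_cast hp.2.two_le
    have h5 : 1 / (p : ℝ) ≤ 1 / 2 := div_le_div_of_nonneg_left (by norm_num) (by norm_num) h4
    have h6 := GLM.exp_le (x := 1 / (p : ℝ)) (by positivity) h5
    rw [show (1 / (p : ℝ)) ^ 2 = 1 / (p : ℝ) ^ 2 by rw [div_pow, one_pow]] at h6
    exact h6
  have h5 := GLM.sum_sq_le N
  have h9 : c / Real.log z = 1 / 2 * ((Real.log 2 * Real.exp (-(C / Real.log 2 + 1))) / Real.log z) := by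
    rw [hc]; ring
  rw [h9]
  refine mul_le_mul_of_nonneg_left ?_ (by norm_num)
  refine le_trans ?_ h3
  by_cases hN2 : 2 ≤ N
  · have h6 := hM 2 N le_rfl hN2
    have hN' : (2 : ℝ) ≤ N := by exact_mod_cast hN2
    have hlN : Real.log 2 ≤ Real.log N := Real.log_le_log (by norm_num) hN'
    have hlN0 : 0 < Real.log N := hl2.trans_le hlN
    have hlNz : Real.log N ≤ Real.log z := Real.log_le_log (by linarith) hNz.le
    push_cast at h6
    have h7 : Real.exp (-((Real.log (Real.log N / Real.log 2) + C / Real.log 2) + 1)) ≤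
        Real.exp (-((∑ p ∈ (Ioc 2 N).filter Nat.Prime, 1 / (p : ℝ)) +
          ∑ p ∈ (Ioc 2 N).filter Nat.Prime, 1 / (p : ℝ) ^ 2)) := by
      rw [Real.exp_le_exp]
      linarith
    refine le_trans ?_ h7
    have h8 : Real.exp (-((Real.log (Real.log N / Real.log 2) + C / Real.log 2) + 1)) =
        (Real.log 2 / Real.log N) * Real.exp (-(C / Real.log 2 + 1)) := by
      rw [show -((Real.log (Real.log N / Real.log 2) + C / Real.log 2) + 1) =
        (-Real.log (Real.log N / Real.log 2)) + -(C / Real.log 2 + 1) by ring, Real.exp_add]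
      congr 1
      rw [Real.exp_neg, Real.exp_log (by positivity), inv_div]
    rw [h8]
    rw [show Real.log 2 * Real.exp (-(C / Real.log 2 + 1)) / Real.log z =
      Real.log 2 / Real.log z * Real.exp (-(C / Real.log 2 + 1)) by ring]
    refine mul_le_mul_of_nonneg_right ?_ (Real.exp_pos _).le
    exact div_le_div_of_nonneg_left (by positivity) (by positivity) hlNz
  · rw [Ioc_eq_empty (by omega)]
    simp only [filter_empty, sum_empty, add_zero, neg_zero, Real.exp_zero]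
    rw [div_le_one (by positivity)]
    have : Real.log 2 * Real.exp (-(C / Real.log 2 + 1)) ≤ Real.log 2 := by
      refine mul_le_of_le_one_right (by positivity) (Real.exp_le_one_iff.2 (neg_nonpos.2 ?_))
      positivity
    exact this.trans hlz

theorem PB_mono {z z₁ : ℝ} (h : z ≤ z₁) : PB z ⊆ PB z₁ := by
  intro p hp
  rw [mem_PB] at hp ⊢
  exact ⟨hp.1.trans_le h, hp.2⟩

theorem prod_split (s t : ℕ) {z z₁ : ℝ} (h : z ≤ z₁) :
    ∏ p ∈ PB z₁, (1 - g1 s t z p) = GG s t z * ∏ p ∈ PB z₁ \ PB z, (1 - 1 / (p : ℝ)) := by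
  rw [← prod_sdiff (PB_mono h), mul_comm]
  congr 1
  · unfold GG
    apply prod_congr rfl
    intro p hp
    rw [mem_PB] at hp
    unfold g1
    rw [if_pos hp.1]
  · apply prod_congr rfl
    intro p hp
    rw [mem_sdiff, mem_PB, mem_PB] at hp
    unfold g1
    rw [if_neg]
    intro h2
    exact hp.2 ⟨h2, hp.1.2⟩

theorem wp_split {z z₁ : ℝ} (h : z ≤ z₁) :
    Wp z₁ = Wp z * ∏ p ∈ PB z₁ \ PB z, (1 - 1 / (p : ℝ)) := by
  unfold Wp
  rw [← prod_sdiff (PB_mono h), mul_comm]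

theorem gg_prod_nonneg (s t : ℕ) (z : ℝ) : 0 ≤ GG s t z := by
  unfold GG
  apply prod_nonneg
  intro p hp
  rw [mem_PB] at hp
  have := GLM.gg_le_half s t hp.2
  linarith

/-- the product -/
theorem prod_le (hW : Pool.Agent.Lib.MP391708.QPA.SpecWMER) : ∃ K : ℝ, 0 < K ∧ ∀ (s t : ℕ) (z z₁ : ℝ), 2 ≤ z → z ≤ z₁ →
    ∏ p ∈ PB z₁, (1 - g1 s t z p) ≤ K * GG s t z * (Real.log z / Real.log z₁) := by
  obtain ⟨C, hC, hW⟩ := hW
  obtain ⟨c, hc, hL⟩ := wp_lower
  refine ⟨C / c, by positivity, fun s t z z₁ hz hzz => ?_⟩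
  have hlz : 0 < Real.log z := Real.log_pos (by linarith)
  have hlz1 : 0 < Real.log z₁ := Real.log_pos (by linarith)
  have h1 := hW z₁ (by linarith)
  have h2 := hL z hz
  rw [wp_split hzz] at h1
  rw [prod_split s t hzz]
  set Q : ℝ := ∏ p ∈ PB z₁ \ PB z, (1 - 1 / (p : ℝ)) with hQ
  have hQ0 : 0 ≤ Q := by
    rw [hQ]
    apply prod_nonneg
    intro p hp
    rw [mem_sdiff, mem_PB] at hp
    have h3 : (1 : ℝ) ≤ p := by exact_mod_cast hp.1.2.one_lt.le
    have h4 : 1 / (p : ℝ) ≤ 1 := by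
      rw [div_le_one (by linarith)]
      exact h3
    linarith
  have h3 : c / Real.log z * Q ≤ C / Real.log z₁ := (mul_le_mul_of_nonneg_right h2 hQ0).trans h1
  have h4 : Q ≤ C / c * (Real.log z / Real.log z₁) := by
    have h5 : Q = (c / Real.log z * Q) * (Real.log z / c) := by field_simp
    rw [h5]
    calc (c / Real.log z * Q) * (Real.log z / c) ≤ (C / Real.log z₁) * (Real.log z / c) :=
          mul_le_mul_of_nonneg_right h3 (by positivity)
      _ = C / c * (Real.log z / Real.log z₁) := by ring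
  calc GG s t z * Q ≤ GG s t z * (C / c * (Real.log z / Real.log z₁)) :=
        mul_le_mul_of_nonneg_left h4 (gg_prod_nonneg s t z)
    _ = C / c * GG s t z * (Real.log z / Real.log z₁) := by ring

/-- the sieve for one cofactor -/
theorem per_c (hF : Odd.SpecFLK) : ∃ C : ℝ, 0 < C ∧ ∀ (s t b c q u x : ℕ) (z z₁ : ℝ), Adm s t b → q.Prime →
    30 < q → 5 < z → 2 ≤ z₁ → z₁ ≤ q → 1 ≤ c → Nat.Coprime c (30 * q) → Rough z c →
    ∑ P ∈ SS b c q u x, rInd z₁ (vv s t c z P)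
      ≤ C * ((x : ℝ) / (30 * c * q)) * ∏ p ∈ PB z₁, (1 - g1 s t z p)
        + C * (1 + Real.log z₁) * (z₁ ^ 24) ^ 2 := by
  obtain ⟨C, hC, h⟩ := hF 3
  refine ⟨1 + 2 * C, by positivity, fun s t b c q u x z z₁ hA hq hq30 hz hz1 hzq hc1 hc hcz => ?_⟩
  have h1 := h 1 z₁ hz1 (SS b c q u x) (vv s t c z) (fun _ => 1) ((x : ℝ) / (30 * c * q)) (g1 s t z)
    (by positivity) (fun _ _ => zero_le_one)
    (fun p hp => ⟨g1_nonneg s t z p, g1_le s t z hp, g1_le_half s t z hp⟩)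
  simp only [one_mul] at h1
  have hlz1 : 0 ≤ Real.log z₁ := Real.log_nonneg (by linarith)
  set W : ℝ := ∏ p ∈ PB z₁, (1 - g1 s t z p) with hW
  set X : ℝ := (x : ℝ) / (30 * c * q) with hX
  have hX0 : 0 ≤ X := by positivity
  have hW0 : 0 ≤ W := by
    apply prod_nonneg
    intro p hp
    rw [mem_PB] at hp
    have := g1_le_half s t z hp.2
    linarith
  set D : ℝ := z₁ ^ 24 with hD
  have hD1 : 1 ≤ D := one_le_pow₀ (by linarith)
  have h2 : ∑ δ ∈ (Icc 1 ⌊z₁ ^ (8 * 1 + 16)⌋₊).filter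
          (fun δ => Squarefree δ ∧ ∀ p : ℕ, p.Prime → p ∣ δ → (p : ℝ) < z₁),
          |(∑ i ∈ (SS b c q u x).filter (fun i => δ ∣ vv s t c z i), (1 : ℝ)) - X * ∏ p ∈ δ.primeFactors, g1 s t z p|
      ≤ 2 * D ^ 2 := by
    have e : z₁ ^ (8 * 1 + 16) = D := by rw [hD]
    rw [e]
    have h3 : ∀ δ ∈ (Icc 1 ⌊D⌋₊).filter
          (fun δ => Squarefree δ ∧ ∀ p : ℕ, p.Prime → p ∣ δ → (p : ℝ) < z₁),
          |(∑ i ∈ (SS b c q u x).filter (fun i => δ ∣ vv s t c z i), (1 : ℝ)) - X * ∏ p ∈ δ.primeFactors, g1 s t z p|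
          ≤ 2 * D := by
      intro δ hδ
      rw [mem_filter, mem_Icc] at hδ
      obtain ⟨⟨hδ1, hδ2⟩, hδs, hδp⟩ := hδ
      have h4 := rem_le s t b c q u x z hA hq hq30 hz hc1 hc hcz δ hδs (by
        intro hd
        have := hδp q hq hd
        linarith)
      rw [sum_const, nsmul_eq_mul, mul_one]
      refine h4.trans ?_
      have : (δ : ℝ) ≤ D := (Nat.le_floor_iff (by linarith)).1 hδ2
      linarith
    refine (sum_le_sum h3).trans ?_
    rw [sum_const, nsmul_eq_mul]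
    have h5 : (((Icc 1 ⌊D⌋₊).filter
          (fun δ => Squarefree δ ∧ ∀ p : ℕ, p.Prime → p ∣ δ → (p : ℝ) < z₁)).card : ℝ) ≤ D := by
      have h6 : ((Icc 1 ⌊D⌋₊).filter
          (fun δ => Squarefree δ ∧ ∀ p : ℕ, p.Prime → p ∣ δ → (p : ℝ) < z₁)).card ≤ ⌊D⌋₊ :=
        (card_filter_le _ _).trans (by simp)
      exact (Nat.cast_le.2 h6).trans (Nat.floor_le (by linarith))
    calc _ ≤ D * (2 * D) := mul_le_mul_of_nonneg_right h5 (by linarith)
      _ = 2 * D ^ 2 := by ring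
  have h3 : Real.exp (-((1 : ℕ) : ℝ)) ≤ 1 := Real.exp_le_one_iff.2 (by norm_num)
  have h4 := (abs_le.1 h1).2
  have h5 : C * Real.exp (-((1 : ℕ) : ℝ)) * X * W ≤ C * X * W := by
    have : C * Real.exp (-((1 : ℕ) : ℝ)) ≤ C * 1 := mul_le_mul_of_nonneg_left h3 hC.le
    calc C * Real.exp (-((1 : ℕ) : ℝ)) * X * W = (C * Real.exp (-((1 : ℕ) : ℝ))) * (X * W) := by ring
      _ ≤ (C * 1) * (X * W) := mul_le_mul_of_nonneg_right this (by positivity)
      _ = C * X * W := by ring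
  have h6 := mul_le_mul_of_nonneg_left h2 (by positivity : 0 ≤ C * (1 + Real.log z₁))
  have h7 : 0 ≤ C * X * W := by positivity
  have h8 : 0 ≤ (1 + Real.log z₁) * D ^ 2 := by positivity
  have h9 : (1 + 2 * C) * X * W + (1 + 2 * C) * (1 + Real.log z₁) * D ^ 2
      = X * W + C * X * W + C * (1 + Real.log z₁) * (2 * D ^ 2) + C * X * W + (1 + Real.log z₁) * D ^ 2 := by ring
  rw [h9]
  linarith

/-- the conditions on `x` -/
theorem ev_cond (a η E : ℝ) (ha : 0 < a) (hη : 0 < η) : ∃ X₀ : ℕ, ∀ x : ℕ, X₀ ≤ x →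
    (10 : ℝ) ^ 10 ≤ x ∧ 6 ≤ (x : ℝ) ^ η ∧ Real.log 2 + 1 ≤ a / 2 * Real.log x ∧
      E * (Real.log x) ^ 4 ≤ (x : ℝ) ^ (13 / 100 : ℝ) := by
  have h1 : ∀ᶠ x : ℝ in Filter.atTop, (10 : ℝ) ^ 10 ≤ x := Filter.eventually_ge_atTop _
  have h2 : ∀ᶠ x : ℝ in Filter.atTop, 6 ≤ x ^ η := (tendsto_rpow_atTop hη).eventually_ge_atTop 6
  have h3 : ∀ᶠ x : ℝ in Filter.atTop, (Real.log 2 + 1) / (a / 2) ≤ Real.log x :=
    Real.tendsto_log_atTop.eventually_ge_atTop _
  have h4 : ∀ᶠ x : ℝ in Filter.atTop, E * (Real.log x) ^ 4 ≤ x ^ (13 / 100 : ℝ) := by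
    have h5 := (isLittleO_log_rpow_rpow_atTop (s := 13 / 100) 4 (by norm_num)).def
      (c := 1 / (|E| + 1)) (by positivity)
    filter_upwards [h5, Filter.eventually_ge_atTop (1 : ℝ)] with x hx hx1
    have hl : 0 ≤ Real.log x := Real.log_nonneg hx1
    have e1 : Real.log x ^ (4 : ℝ) = Real.log x ^ 4 := by
      rw [show (4 : ℝ) = ((4 : ℕ) : ℝ) by norm_num, Real.rpow_natCast]
    rw [e1, Real.norm_of_nonneg (by positivity), Real.norm_of_nonneg (by positivity)] at hx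
    have h6 : (|E| + 1) * Real.log x ^ 4 ≤ x ^ (13 / 100 : ℝ) := by
      have h7 := mul_le_mul_of_nonneg_left hx (by positivity : 0 ≤ |E| + 1)
      have h8 : (|E| + 1) * (1 / (|E| + 1) * x ^ (13 / 100 : ℝ)) = x ^ (13 / 100 : ℝ) := by
        field_simp
      rwa [h8] at h7
    refine le_trans (mul_le_mul_of_nonneg_right ?_ (by positivity)) h6
    have := le_abs_self E
    linarith
  have h5 := ((h1.and h2).and (h3.and h4))
  have h6 := tendsto_natCast_atTop_atTop (R := ℝ) |>.eventually h5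
  obtain ⟨X₀, hX⟩ := Filter.eventually_atTop.1 h6
  refine ⟨X₀, fun x hx => ?_⟩
  obtain ⟨⟨g1, g2⟩, g3, g4⟩ := hX x hx
  refine ⟨g1, g2, ?_, g4⟩
  rw [div_le_iff₀ (by positivity)] at g3
  linarith

end BM

open BM in
/-- B. -/
theorem specB (hF : Odd.SpecFLK) (hGL : SpecGL) (hR : Pool.Agent.Lib.MP391708.QPA.SpecRSUM)
    (hW : Pool.Agent.Lib.MP391708.QPA.SpecWMER) : SpecB := by
  intro s t b hA
  obtain ⟨C₁, hC₁, hper⟩ := per_c hF
  obtain ⟨K₀, hK₀, hprod⟩ := prod_le hW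
  obtain ⟨C₄, hC₄, hRS⟩ := hR
  obtain ⟨c₅, hc₅, hG⟩ := hGL s t
  set K₁ : ℝ := C₁ * K₀ * 400 with hK₁
  have hK₁0 : 0 < K₁ := by positivity
  refine ⟨max 1 ((K₁ + 1) * C₄), le_max_left _ _, fun a ha ha8 => ?_⟩
  refine ⟨min (1 / 400) (a / 2), lt_min (by norm_num) (by linarith), fun η hη hη0 => ?_⟩
  have hη1 : η ≤ 1 / 400 := hη0.trans (min_le_left _ _)
  have hη2 : η ≤ a / 2 := hη0.trans (min_le_right _ _)
  obtain ⟨X₀, hX₀⟩ := ev_cond a η (120 * C₁ / (η * c₅)) ha hη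
  refine ⟨X₀, fun x hx u hu q hq hq1 hq2 => ?_⟩
  obtain ⟨x10, xη, xlog, xerr⟩ := hX₀ x hx
  have hx1 : (1 : ℝ) ≤ x := le_trans (by norm_num) x10
  have hx0 : (0 : ℝ) < x := by linarith
  have hxe : Real.exp 1 ≤ x := le_trans Real.exp_one_lt_three.le (le_trans (by norm_num) x10)
  have hL1 : 1 ≤ Real.log x := by
    rw [Real.le_log_iff_exp_le hx0]
    exact hxe
  set L : ℝ := Real.log x with hL
  set z : ℝ := (x : ℝ) ^ η with hz
  set z₁ : ℝ := (x : ℝ) ^ (1 / 400 : ℝ) with hz₁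
  have hzz : z ≤ z₁ := Real.rpow_le_rpow_of_exponent_le hx1 hη1
  have hz6 : 6 ≤ z := xη
  have hlogz : Real.log z = η * L := Real.log_rpow hx0 η
  have hlogz₁ : Real.log z₁ = 1 / 400 * L := Real.log_rpow hx0 _
  have hq30 : 30 < q := by
    have h1 : (100 : ℝ) ≤ (x : ℝ) ^ (1 / 4 : ℝ) := by
      have h2 : (100 : ℝ) = ((10 : ℝ) ^ (8 : ℝ)) ^ (1 / 4 : ℝ) := by
        rw [← Real.rpow_mul (by norm_num)]
        norm_num
      rw [h2]
      apply Real.rpow_le_rpow (by positivity) _ (by norm_num)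
      refine le_trans ?_ x10
      norm_num
    have : (30 : ℝ) < q := by linarith
    exact_mod_cast this
  have hz₁q : z₁ ≤ q := le_trans (Real.rpow_le_rpow_of_exponent_le hx1 (by norm_num)) hq1
  set Cs : Finset ℕ := (Icc ⌈(x : ℝ) ^ (a / 2)⌉₊ ⌊2 * (x : ℝ) ^ a⌋₊).filter (fun c => Rough z c) with hCs
  have hq0 : (0 : ℝ) < q := by exact_mod_cast hq.pos
  -- facts on the cofactors
  have hcf : ∀ c ∈ Cs, 1 ≤ c ∧ Nat.Coprime c (30 * q) ∧ Rough z c ∧ (c : ℝ) ≤ 2 * (x : ℝ) ^ a := by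
    intro c hc
    rw [hCs, mem_filter, mem_Icc] at hc
    obtain ⟨⟨hc1, hc2⟩, hc3⟩ := hc
    have h1 : (1 : ℝ) ≤ (x : ℝ) ^ (a / 2) := Real.one_le_rpow hx1 (by linarith)
    have h2 : 1 ≤ c := by
      have : (x : ℝ) ^ (a / 2) ≤ c := Nat.ceil_le.1 hc1
      have : (1 : ℝ) ≤ c := by linarith
      exact_mod_cast this
    have h3 : (c : ℝ) ≤ 2 * (x : ℝ) ^ a := (Nat.le_floor_iff (by positivity)).1 hc2
    have hnd : ∀ p : ℕ, p.Prime → p ≤ 5 → ¬ p ∣ c := by
      intro p hp hp5 hd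
      have h4 := hc3 p hp hd
      have h5 : (p : ℝ) ≤ 5 := by exact_mod_cast hp5
      linarith
    have hcq : c < q := by
      have h4 : 2 * (x : ℝ) ^ a < (x : ℝ) ^ (1 / 4 : ℝ) := by
        have h5 : (x : ℝ) ^ a ≤ (x : ℝ) ^ (1 / 8 : ℝ) := Real.rpow_le_rpow_of_exponent_le hx1 ha8
        have h6 : (x : ℝ) ^ (1 / 4 : ℝ) = (x : ℝ) ^ (1 / 8 : ℝ) * (x : ℝ) ^ (1 / 8 : ℝ) := by
          rw [← Real.rpow_add hx0]
          norm_num
        have h7 : (10 : ℝ) ≤ (x : ℝ) ^ (1 / 8 : ℝ) := by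
          have h2 : (10 : ℝ) = ((10 : ℝ) ^ (8 : ℝ)) ^ (1 / 8 : ℝ) := by
            rw [← Real.rpow_mul (by norm_num)]
            norm_num
          rw [h2]
          apply Real.rpow_le_rpow (by positivity) _ (by norm_num)
          refine le_trans ?_ x10
          norm_num
        nlinarith
      have : (c : ℝ) < q := by linarith
      exact_mod_cast this
    have h30 : Nat.Coprime c 30 := by
      have g2 : Nat.Coprime c 2 := ((Nat.prime_two.coprime_iff_not_dvd).2 (hnd 2 Nat.prime_two (by norm_num))).symm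
      have g3 : Nat.Coprime c 3 := ((Nat.prime_three.coprime_iff_not_dvd).2 (hnd 3 Nat.prime_three (by norm_num))).symm
      have g5 : Nat.Coprime c 5 := ((Nat.prime_five.coprime_iff_not_dvd).2 (hnd 5 Nat.prime_five (by norm_num))).symm
      have := Nat.Coprime.mul_right (Nat.Coprime.mul_right g2 g3) g5
      norm_num at this
      exact this
    refine ⟨h2, Nat.Coprime.mul_right h30 ?_, hc3, h3⟩
    apply Nat.Coprime.symm
    rw [hq.coprime_iff_not_dvd]
    intro hd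
    exact absurd (Nat.le_of_dvd (by omega) hd) (by omega)
  -- covering
  have hcov : (PP s t b a η x).filter (fun m => q ∣ m + u) ⊆
      Cs.biUnion (fun c => ((SS b c q u x).filter (fun P => Rough z₁ (vv s t c z P))).image (fun P => c * P)) := by
    intro m hm
    unfold PP MM BP at hm
    rw [mem_filter, mem_filter, mem_filter, mem_Ioc] at hm
    obtain ⟨⟨⟨⟨hm1, hm2⟩, hmb, P, hP, hPm⟩, hmr⟩, hqm⟩ := hm
    rw [mem_filter, mem_Icc] at hP
    obtain ⟨_, hPp, hP1, hP2⟩ := hP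
    obtain ⟨c, rfl⟩ := hPm
    have hP0 : (0 : ℝ) < P := by exact_mod_cast hPp.pos
    have hm1' : (x : ℝ) < P * c := by exact_mod_cast hm1
    have hm2' : (P : ℝ) * c ≤ 2 * x := by exact_mod_cast hm2
    have hc0 : (0 : ℝ) < c := by
      by_contra h
      push Not at h
      nlinarith
    have hc0' : 0 < c := by exact_mod_cast hc0
    have hrc : ∀ p : ℕ, p.Prime → p ∣ c → z ≤ (p : ℝ) := by
      intro p hp hd
      apply hmr p hp
      unfold Pi3
      exact ((hd.mul_left P).mul_right _).mul_right _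
    have hca : (x : ℝ) ^ (a / 2) ≤ c := by
      by_contra h
      push Not at h
      have h1 : (P : ℝ) * c < (x : ℝ) ^ (1 - a / 2) * (x : ℝ) ^ (a / 2) := by
        calc (P : ℝ) * c < P * (x : ℝ) ^ (a / 2) := by
              exact mul_lt_mul_of_pos_left h hP0
          _ ≤ (x : ℝ) ^ (1 - a / 2) * (x : ℝ) ^ (a / 2) := mul_le_mul_of_nonneg_right hP2 (by positivity)
      rw [← Real.rpow_add hx0] at h1
      norm_num at h1
      linarith
    have hcb : (c : ℝ) ≤ 2 * (x : ℝ) ^ a := by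
      by_contra h
      push Not at h
      have h1 : (x : ℝ) ^ (1 - a) * (2 * (x : ℝ) ^ a) < P * c := by
        calc (x : ℝ) ^ (1 - a) * (2 * (x : ℝ) ^ a) ≤ P * (2 * (x : ℝ) ^ a) :=
              mul_le_mul_of_nonneg_right hP1.le (by positivity)
          _ < P * c := mul_lt_mul_of_pos_left h hP0
      have h2 : (x : ℝ) ^ (1 - a) * (2 * (x : ℝ) ^ a) = 2 * x := by
        have : (x : ℝ) ^ (1 - a) * (x : ℝ) ^ a = x := by
          rw [← Real.rpow_add hx0]
          norm_num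
        calc (x : ℝ) ^ (1 - a) * (2 * (x : ℝ) ^ a) = 2 * ((x : ℝ) ^ (1 - a) * (x : ℝ) ^ a) := by ring
          _ = 2 * x := by rw [this]
      linarith
    rw [mem_biUnion]
    refine ⟨c, ?_, ?_⟩
    · rw [hCs, mem_filter, mem_Icc]
      exact ⟨⟨Nat.ceil_le.2 hca, Nat.le_floor hcb⟩, hrc⟩
    · rw [mem_image]
      refine ⟨P, ?_, mul_comm _ _⟩
      rw [mem_filter]
      constructor
      · unfold SS
        rw [mem_filter, mem_Ioc]
        refine ⟨⟨?_, ?_⟩, ?_, ?_⟩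
        · rw [Nat.div_lt_iff_lt_mul hc0']
          exact hm1
        · rw [Nat.le_div_iff_mul_le hc0']
          exact hm2
        · rw [mul_comm]; exact hmb
        · rw [mul_comm]; exact hqm
      · intro p hp hd
        rcases (dvd_vv s t c z hp P).1 hd with h | h
        · have : p = P := (Nat.prime_dvd_prime_iff_eq hp hPp).1 h
          subst this
          refine le_trans (Real.rpow_le_rpow_of_exponent_le hx1 ?_) hP1.le
          linarith
        · exfalso
          have h2 : z ≤ (p : ℝ) := by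
            apply hmr p hp
            unfold Pi3
            rw [mul_assoc]
            have h3 : p ∣ (P * c + s) * (P * c + t) := by
              rw [mul_comm P c]; exact h.2
            exact h3.mul_left _
          linarith [h.1]
  have hGG0 := gg_prod_nonneg s t z
  -- the bound for one cofactor
  have hone : ∀ c ∈ Cs, (((SS b c q u x).filter (fun P => Rough z₁ (vv s t c z P))).card : ℝ)
      ≤ (K₁ + 1) * η * GG s t z * ((x : ℝ) / (30 * q)) * (1 / c) := by
    intro c hc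
    obtain ⟨hc1, hcc, hcz, hcx⟩ := hcf c hc
    have hc0 : (0 : ℝ) < c := by exact_mod_cast hc1
    have h1 := hper s t b c q u x z z₁ hA hq hq30 (by linarith) (by linarith) hz₁q hc1 hcc hcz
    have h2 : (((SS b c q u x).filter (fun P => Rough z₁ (vv s t c z P))).card : ℝ)
        = ∑ P ∈ SS b c q u x, rInd z₁ (vv s t c z P) := by
      unfold rInd
      rw [sum_ite, sum_const_zero, add_zero, sum_const, nsmul_eq_mul, mul_one]
    rw [h2]
    refine h1.trans ?_
    have h3 := hprod s t z z₁ (by linarith) hzz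
    rw [hlogz, hlogz₁] at h3
    have h4 : η * L / (1 / 400 * L) = 400 * η := by field_simp
    rw [h4] at h3
    set X : ℝ := (x : ℝ) / (30 * c * q) with hX
    have hX0 : 0 < X := by positivity
    have h5 : C₁ * X * ∏ p ∈ PB z₁, (1 - g1 s t z p) ≤ K₁ * η * GG s t z * X := by
      calc C₁ * X * ∏ p ∈ PB z₁, (1 - g1 s t z p) ≤ C₁ * X * (K₀ * GG s t z * (400 * η)) :=
            mul_le_mul_of_nonneg_left h3 (by positivity)
        _ = K₁ * η * GG s t z * X := by rw [hK₁]; ring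
    -- the error term
    have h6 : C₁ * (1 + Real.log z₁) * (z₁ ^ 24) ^ 2 ≤ η * GG s t z * X := by
      have e1 : (z₁ ^ 24) ^ 2 = (x : ℝ) ^ (12 / 100 : ℝ) := by
        rw [← pow_mul, hz₁, ← Real.rpow_natCast, ← Real.rpow_mul hx0.le]
        norm_num
      have e2 : 1 + Real.log z₁ ≤ 2 * L := by
        rw [hlogz₁]; linarith
      have e3 : c₅ / L ^ 3 ≤ GG s t z := by
        refine le_trans ?_ (hG z (by linarith))
        rw [hlogz]
        apply div_le_div_of_nonneg_left hc₅.le (by positivity)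
        apply pow_le_pow_left₀ (by positivity)
        nlinarith
      have e4 : (x : ℝ) ^ (1 / 4 : ℝ) / 60 ≤ X := by
        rw [hX, div_le_div_iff₀ (by norm_num) (by positivity)]
        have f1 : (c : ℝ) * q ≤ 2 * (x : ℝ) ^ (1 / 8 : ℝ) * (x : ℝ) ^ (5 / 8 : ℝ) := by
          refine mul_le_mul ?_ hq2 (by positivity) (by positivity)
          refine hcx.trans ?_
          have := Real.rpow_le_rpow_of_exponent_le hx1 ha8
          linarith
        have f2 : (x : ℝ) ^ (1 / 4 : ℝ) * ((x : ℝ) ^ (1 / 8 : ℝ) * (x : ℝ) ^ (5 / 8 : ℝ)) = x := by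
          rw [← Real.rpow_add hx0, ← Real.rpow_add hx0]
          norm_num
        have f3 : 0 ≤ (x : ℝ) ^ (1 / 4 : ℝ) := by positivity
        calc (x : ℝ) ^ (1 / 4 : ℝ) * (30 * c * q) = 30 * (x : ℝ) ^ (1 / 4 : ℝ) * (c * q) := by ring
          _ ≤ 30 * (x : ℝ) ^ (1 / 4 : ℝ) * (2 * (x : ℝ) ^ (1 / 8 : ℝ) * (x : ℝ) ^ (5 / 8 : ℝ)) :=
            mul_le_mul_of_nonneg_left f1 (by positivity)
          _ = 60 * ((x : ℝ) ^ (1 / 4 : ℝ) * ((x : ℝ) ^ (1 / 8 : ℝ) * (x : ℝ) ^ (5 / 8 : ℝ))) := by ring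
          _ = (x : ℝ) * 60 := by rw [f2]; ring
      have e5 : (x : ℝ) ^ (1 / 4 : ℝ) = (x : ℝ) ^ (12 / 100 : ℝ) * (x : ℝ) ^ (13 / 100 : ℝ) := by
        rw [← Real.rpow_add hx0]
        norm_num
      have hx12 : 0 < (x : ℝ) ^ (12 / 100 : ℝ) := by positivity
      rw [e1]
      calc C₁ * (1 + Real.log z₁) * (x : ℝ) ^ (12 / 100 : ℝ)
          ≤ C₁ * (2 * L) * (x : ℝ) ^ (12 / 100 : ℝ) := by
            apply mul_le_mul_of_nonneg_right _ hx12.le
            exact mul_le_mul_of_nonneg_left e2 hC₁.le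
        _ = η * (c₅ / L ^ 3) * ((x : ℝ) ^ (12 / 100 : ℝ) * (120 * C₁ / (η * c₅) * L ^ 4) / 60) := by
            field_simp
            ring
        _ ≤ η * (c₅ / L ^ 3) * ((x : ℝ) ^ (12 / 100 : ℝ) * (x : ℝ) ^ (13 / 100 : ℝ) / 60) := by
            apply mul_le_mul_of_nonneg_left _ (by positivity)
            apply div_le_div_of_nonneg_right _ (by norm_num)
            exact mul_le_mul_of_nonneg_left xerr hx12.le
        _ = η * (c₅ / L ^ 3) * ((x : ℝ) ^ (1 / 4 : ℝ) / 60) := by rw [e5]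
        _ ≤ η * GG s t z * X := by
            apply mul_le_mul _ e4 (by positivity) (by positivity)
            exact mul_le_mul_of_nonneg_left e3 hη.le
    have h7 : (x : ℝ) / (30 * q) * (1 / c) = X := by
      rw [hX]
      field_simp
    calc C₁ * X * ∏ p ∈ PB z₁, (1 - g1 s t z p) + C₁ * (1 + Real.log z₁) * (z₁ ^ 24) ^ 2
        ≤ K₁ * η * GG s t z * X + η * GG s t z * X := add_le_add h5 h6
      _ = (K₁ + 1) * η * GG s t z * ((x : ℝ) / (30 * q) * (1 / c)) := by rw [h7]; ring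
      _ = (K₁ + 1) * η * GG s t z * ((x : ℝ) / (30 * q)) * (1 / c) := by ring
  -- the sum over the cofactors
  have hsum : ∑ c ∈ Cs, 1 / (c : ℝ) ≤ C₄ * a / η := by
    have h1 := hRS z ((x : ℝ) ^ (a / 2)) (2 * (x : ℝ) ^ a) (by linarith)
      (Real.rpow_le_rpow_of_exponent_le hx1 hη2) (by
        have : (x : ℝ) ^ (a / 2) ≤ (x : ℝ) ^ a := Real.rpow_le_rpow_of_exponent_le hx1 (by linarith)
        have h0 : 0 ≤ (x : ℝ) ^ a := by positivity
        linarith)
    have h2 : ∑ c ∈ Cs, 1 / (c : ℝ) = ∑ k ∈ Icc ⌈(x : ℝ) ^ (a / 2)⌉₊ ⌊2 * (x : ℝ) ^ a⌋₊, rInd z k / (k : ℝ) := by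
      rw [hCs, sum_filter]
      apply sum_congr rfl
      intro k _
      unfold rInd
      split_ifs <;> simp
    rw [h2]
    refine h1.trans ?_
    have h3 : Real.log (2 * (x : ℝ) ^ a / (x : ℝ) ^ (a / 2)) = Real.log 2 + a / 2 * L := by
      have h4 : 2 * (x : ℝ) ^ a / (x : ℝ) ^ (a / 2) = 2 * (x : ℝ) ^ (a / 2) := by
        rw [div_eq_iff (by positivity), mul_assoc, ← Real.rpow_add hx0]
        congr 2
        ring
      rw [h4, Real.log_mul (by norm_num) (by positivity), Real.log_rpow hx0]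
    rw [h3, hlogz]
    have h5 : Real.log 2 + a / 2 * L + 1 ≤ a * L := by linarith
    have hL0 : 0 < L := by linarith
    calc C₄ * (Real.log 2 + a / 2 * L + 1) / (η * L) ≤ C₄ * (a * L) / (η * L) := by
          apply div_le_div_of_nonneg_right _ (by positivity)
          exact mul_le_mul_of_nonneg_left h5 hC₄.le
      _ = C₄ * a / η := by field_simp
  -- conclusion
  have hfin : (((PP s t b a η x).filter (fun m => q ∣ m + u)).card : ℝ)
      ≤ ∑ c ∈ Cs, (K₁ + 1) * η * GG s t z * ((x : ℝ) / (30 * q)) * (1 / c) := by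
    have h1 := card_le_card hcov
    have h2 : (Cs.biUnion (fun c => ((SS b c q u x).filter (fun P => Rough z₁ (vv s t c z P))).image
        (fun P => c * P))).card ≤ ∑ c ∈ Cs, ((SS b c q u x).filter (fun P => Rough z₁ (vv s t c z P))).card :=
      card_biUnion_le.trans (sum_le_sum fun c _ => card_image_le)
    have h3 := h1.trans h2
    have h4 : (((PP s t b a η x).filter (fun m => q ∣ m + u)).card : ℝ)
        ≤ ∑ c ∈ Cs, (((SS b c q u x).filter (fun P => Rough z₁ (vv s t c z P))).card : ℝ) := by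
      exact_mod_cast h3
    exact h4.trans (sum_le_sum hone)
  rw [← mul_sum] at hfin
  refine hfin.trans ?_
  have h1 : (K₁ + 1) * η * GG s t z * ((x : ℝ) / (30 * q)) * ∑ c ∈ Cs, 1 / (c : ℝ)
      ≤ (K₁ + 1) * η * GG s t z * ((x : ℝ) / (30 * q)) * (C₄ * a / η) :=
    mul_le_mul_of_nonneg_left hsum (by positivity)
  refine h1.trans ?_
  unfold N0
  have h2 : (K₁ + 1) * η * GG s t z * ((x : ℝ) / (30 * q)) * (C₄ * a / η)
      = ((K₁ + 1) * C₄) * a * ((x : ℝ) / 30 * GG s t z) / q := by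
    field_simp
  rw [h2]
  apply div_le_div_of_nonneg_right _ hq0.le
  apply mul_le_mul_of_nonneg_right _ (by positivity)
  exact mul_le_mul_of_nonneg_right (le_max_right _ _) ha.le

end

end Pool.Agent.Lib.MP3efbeb.T
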