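import Pool.Agent.Lib.MP_3efbeb_nt.T.A2d

/-!
# MP_3efbeb_nt, line T: module A2 (the bilinear large sieve)
-/

set_option autoImplicit false

namespace Pool.Agent.Lib.MP3efbeb.T

open Finset Filter
open scoped Classical
open Pool.Agent.Lib.MP391708.QPA (PB rInd Rough)
open Pool.Agent.Lib.MP_d1f1b5_nt.TB (PR dsum dsum_eq SpecBIL)

namespace A2M

noncomputable section

theorem exists_exp {C κ : ℝ} (hC : 0 < C) (hκ : 0 < κ) :
    ∃ n : ℕ, C * Real.exp (-(n : ℝ)) ≤ κ := by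
  obtain ⟨n, hn⟩ := exists_nat_gt (Real.log (C / κ))
  refine ⟨n, ?_⟩
  rw [Real.exp_neg, ← div_eq_mul_inv, div_le_iff₀ (Real.exp_pos _)]
  have h1 : C / κ ≤ Real.exp n := by
    rw [← Real.log_le_iff_le_exp (by positivity)]
    exact hn.le
  rw [div_le_iff₀ hκ] at h1
  linarith

theorem ev_rpow {c : ℝ} (hc : 0 < c) (B : ℝ) : ∀ᶠ x : ℕ in atTop, B < (x : ℝ) ^ c :=
  ((tendsto_rpow_atTop hc).comp tendsto_natCast_atTop_atTop).eventually_gt_atTop B

theorem ev_log {r : ℝ} (hr : 0 < r) : ∀ᶠ x : ℕ in atTop, 1 + Real.log x ≤ (x : ℝ) ^ r := by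
  have h1 := (isLittleO_log_rpow_atTop hr).bound (show (0 : ℝ) < 1 / 2 by norm_num)
  have h2 := tendsto_natCast_atTop_atTop (R := ℝ) |>.eventually h1
  filter_upwards [h2, ev_rpow hr 2, eventually_ge_atTop 1] with x hx hx2 hx1
  have hx1' : (1 : ℝ) ≤ x := by exact_mod_cast hx1
  rw [Real.norm_of_nonneg (Real.log_nonneg hx1'), Real.norm_of_nonneg (by positivity)] at hx
  linarith

/-- the numerical comparison -/
theorem ev_final {ρ c C : ℝ} (hρ : 0 < ρ) (hc : 0 < c) :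
    ∀ᶠ x : ℕ in atTop, C * (1 + Real.log x) ^ 8 ≤ c * (x : ℝ) ^ ρ := by
  have hr : 0 < ρ / 9 := by positivity
  filter_upwards [ev_log hr, ev_rpow hr (C / c), eventually_ge_atTop 1] with x h1 h2 hx1
  have hx1' : (1 : ℝ) ≤ x := by exact_mod_cast hx1
  have hx0 : (0 : ℝ) < x := by linarith
  have hlog := Real.log_nonneg hx1'
  have h3 : C ≤ c * (x : ℝ) ^ (ρ / 9) := by
    rw [div_lt_iff₀ hc] at h2
    linarith
  have h4 : (1 + Real.log x) ^ 8 ≤ ((x : ℝ) ^ (ρ / 9)) ^ 8 :=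
    pow_le_pow_left₀ (by linarith) h1 8
  calc C * (1 + Real.log x) ^ 8 ≤ c * (x : ℝ) ^ (ρ / 9) * (1 + Real.log x) ^ 8 :=
        mul_le_mul_of_nonneg_right h3 (by positivity)
    _ ≤ c * (x : ℝ) ^ (ρ / 9) * ((x : ℝ) ^ (ρ / 9)) ^ 8 :=
        mul_le_mul_of_nonneg_left h4 (by positivity)
    _ = c * (x : ℝ) ^ ρ := by
        rw [mul_assoc, ← pow_succ', ← Real.rpow_natCast, ← Real.rpow_mul hx0.le]
        congr 2
        push_cast
        ring

end

end A2M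

open A2M in
/-- module A2 -/
theorem specA2 (hFLK : Odd.SpecFLK) (hCL : SpecCL) (hGL : SpecGL) (hSG : SpecSG)
    (hBIL : SpecBIL) : SpecA2 := by
  intro s t b hadm a ε κ ha0 ha hε0 hε8 hκ0
  obtain ⟨C1, hC1, hF⟩ := hFLK 3
  obtain ⟨c0, hc0, hG⟩ := hGL s t
  obtain ⟨C2, hC2, hS⟩ := sum_Q hBIL
  obtain ⟨b', hb'⟩ := exists_exp hC1 hκ0
  obtain ⟨XCL, hXCL⟩ := hCL a ha0 ha
  obtain ⟨XSG, hXSG⟩ := hSG a ha0 ha
  set ρ : ℝ := min (a / 8) ε with hρ
  have hρa : ρ ≤ a / 8 := min_le_left _ _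
  have hρε : ρ ≤ ε := min_le_right _ _
  have hρ0 : 0 < ρ := lt_min (by positivity) hε0
  set e : ℕ := 8 * b' + 16 with he
  have he0 : (0 : ℝ) < e := by rw [he]; positivity
  refine ⟨ρ / (8 * e), by positivity, ?_⟩
  intro η hη0 hη
  set C3 : ℝ := C1 * (900 * C2 + 10) with hC3
  have hC30 : 0 < C3 := by rw [hC3]; positivity
  have hev : ∀ᶠ x : ℕ in atTop, 4 ≤ x ∧ 2 < (x : ℝ) ^ (a / 8) ∧ (t : ℝ) < (x : ℝ) ^ (a / 8) ∧
      2 < (x : ℝ) ^ η ∧ XCL ≤ x ∧ XSG ≤ x ∧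
      C3 * (1 + Real.log x) ^ 8 ≤ κ * (a / 4) * (1 / 30) * c0 * (x : ℝ) ^ (5 * ρ / 8) := by
    have h8 : 0 < a / 8 := by positivity
    filter_upwards [eventually_ge_atTop 4, ev_rpow h8 2, ev_rpow h8 t, ev_rpow hη0 2,
      eventually_ge_atTop XCL, eventually_ge_atTop XSG,
      ev_final (ρ := 5 * ρ / 8) (c := κ * (a / 4) * (1 / 30) * c0) (C := C3) (by positivity)
        (by positivity)] with x h1 h2 h3 h4 h5 h6 h7
    exact ⟨h1, h2, h3, h4, h5, h6, h7⟩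
  obtain ⟨X₀, hX₀⟩ := eventually_atTop.mp hev
  refine ⟨X₀, ?_⟩
  intro x hxX u hu Q hQ
  obtain ⟨hx, hx2, hxt, hz2, hxCL, hxSG, hnum⟩ := hX₀ x hxX
  have hx4 : (4 : ℝ) ≤ x := by exact_mod_cast hx
  have hx1 : (1 : ℝ) ≤ x := by linarith
  have hx0 : (0 : ℝ) < x := by linarith
  have hlogx : 1 ≤ Real.log x := by
    rw [Real.le_log_iff_exp_le hx0]
    have := Real.exp_one_lt_d9
    linarith
  have hadm' := hadm
  obtain ⟨hs, hst, hb, hcop⟩ := hadm
  have hbcop : Nat.Coprime b 30 := by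
    unfold Pi3 at hcop
    exact Nat.Coprime.coprime_mul_right (Nat.Coprime.coprime_mul_right hcop)
  set z : ℝ := (x : ℝ) ^ η with hz
  have hz0 : 0 < z := by linarith
  obtain ⟨hsg1, hsg2⟩ := hXSG x hxSG
  have hsg0 : 0 < sg a x := lt_of_lt_of_le (by positivity) hsg1
  -- `D`
  set D : ℝ := z ^ e with hD
  have hD1 : 1 ≤ D := one_le_pow₀ (by linarith)
  have hDx : D ≤ (x : ℝ) ^ (ρ / 8) := by
    rw [hD, hz, ← Real.rpow_natCast, ← Real.rpow_mul hx0.le]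
    apply Real.rpow_le_rpow_of_exponent_le hx1
    rw [le_div_iff₀ (by positivity)] at hη
    linarith
  have hg : ∀ p : ℕ, p.Prime → 0 ≤ gg s t p ∧ gg s t p ≤ (3 : ℕ) / (p : ℝ) ∧ gg s t p ≤ 1 / 2 :=
    fun p hp => ⟨gg_nonneg s t p, gg_le hs hst hp⟩
  set Δ : Finset ℕ := (Icc 1 ⌊z ^ (8 * b' + 16)⌋₊).filter
    (fun δ => Squarefree δ ∧ ∀ p : ℕ, p.Prime → p ∣ δ → (p : ℝ) < z) with hΔ
  set Er : ℕ → ℕ → ℝ := fun q δ =>
    |((((MM b a x).filter (fun m => q ∣ m + u)).filter (fun m => δ ∣ Pi3 s t m)).card : ℝ) -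
        (x : ℝ) / 30 * sg a x / q * ∏ p ∈ δ.primeFactors, gg s t p| with hEr
  have hGG0 : 0 ≤ GG s t z := by
    unfold GG
    refine prod_nonneg fun p hp => ?_
    have hpp : p.Prime := by
      unfold PB at hp
      exact (mem_filter.mp hp).2
    have := (hg p hpp).2.2
    linarith
  have hN0 : N0 s t η x = (x : ℝ) / 30 * GG s t z := rfl
  -- one `q`
  have hone : ∀ q ∈ Q, (((PP s t b a η x).filter (fun m => q ∣ m + u)).card : ℝ) ≤
      (1 + κ) * (sg a x * N0 s t η x) / q + C1 * (1 + Real.log z) * ∑ δ ∈ Δ, Er q δ := by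
    intro q hq
    have hq0 : (0 : ℝ) < q := by exact_mod_cast (hQ q hq).1.pos
    set Xq : ℝ := (x : ℝ) / 30 * sg a x / q with hXq
    have hXq0 : 0 ≤ Xq := by positivity
    have h1 := hF b' z hz2.le ((MM b a x).filter (fun m => q ∣ m + u)) (Pi3 s t) (fun _ => 1) Xq
      (gg s t) hXq0 (fun _ _ => by norm_num) hg
    have h2 : ∑ i ∈ (MM b a x).filter (fun m => q ∣ m + u), (1 : ℝ) * rInd z (Pi3 s t i) =
        (((PP s t b a η x).filter (fun m => q ∣ m + u)).card : ℝ) := by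
      unfold PP rInd
      simp only [one_mul]
      rw [← sum_filter, sum_const, nsmul_eq_mul, mul_one, filter_filter, filter_filter]
      congr 2
      ext m
      rw [mem_filter, mem_filter, and_comm (a := q ∣ m + u)]
    have h3 : ∀ δ : ℕ, ∑ i ∈ ((MM b a x).filter (fun m => q ∣ m + u)).filter
        (fun i => δ ∣ Pi3 s t i), (1 : ℝ) =
        ((((MM b a x).filter (fun m => q ∣ m + u)).filter (fun m => δ ∣ Pi3 s t m)).card : ℝ) := by
      intro δ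
      rw [sum_const, nsmul_eq_mul, mul_one]
    rw [h2] at h1
    simp only [h3] at h1
    have h4 : ∏ p ∈ PB z, (1 - gg s t p) = GG s t z := rfl
    rw [h4] at h1
    have h5 := (abs_le.mp h1).2
    have h6 : C1 * Real.exp (-(b' : ℝ)) * Xq * GG s t z ≤ κ * (Xq * GG s t z) := by
      rw [mul_assoc]
      exact mul_le_mul_of_nonneg_right hb' (by positivity)
    have h7 : (1 + κ) * (sg a x * N0 s t η x) / q = (1 + κ) * (Xq * GG s t z) := by
      rw [hN0, hXq]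
      field_simp
    rw [h7]
    have h8 : C1 * (1 + Real.log z) * ∑ δ ∈ Δ, Er q δ =
        C1 * (1 + Real.log z) * ∑ δ ∈ (Icc 1 ⌊z ^ (8 * b' + 16)⌋₊).filter
          (fun δ => Squarefree δ ∧ ∀ p : ℕ, p.Prime → p ∣ δ → (p : ℝ) < z),
          |((((MM b a x).filter (fun m => q ∣ m + u)).filter
            (fun m => δ ∣ Pi3 s t m)).card : ℝ) - Xq * ∏ p ∈ δ.primeFactors, gg s t p| := rfl
    rw [h8]
    linarith
  -- the sum over `q`
  have hlq0 : ∀ q ∈ Q, 0 ≤ Real.log q := fun q hq =>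
    Real.log_nonneg (by exact_mod_cast (hQ q hq).1.one_lt.le)
  have h1 : ∑ q ∈ Q, Real.log q * (((PP s t b a η x).filter (fun m => q ∣ m + u)).card : ℝ) ≤
      (1 + κ) * (sg a x * N0 s t η x) * (∑ q ∈ Q, Real.log q / q) +
        C1 * (1 + Real.log z) * ∑ δ ∈ Δ, ∑ q ∈ Q, Real.log q * Er q δ := by
    calc _ ≤ ∑ q ∈ Q, Real.log q * ((1 + κ) * (sg a x * N0 s t η x) / q +
          C1 * (1 + Real.log z) * ∑ δ ∈ Δ, Er q δ) :=
          sum_le_sum fun q hq => mul_le_mul_of_nonneg_left (hone q hq) (hlq0 q hq)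
      _ = _ := by
          rw [sum_comm (s := Δ)]
          rw [mul_sum, mul_sum, ← sum_add_distrib]
          refine sum_congr rfl fun q _ => ?_
          rw [← mul_sum]
          ring
  refine h1.trans ?_
  have hP0 : 0 ≤ (x : ℝ) ^ (1 - ρ) := Real.rpow_nonneg hx0.le _
  have h2 : ∀ δ ∈ Δ, ∑ q ∈ Q, Real.log q * Er q δ ≤
      (900 * C2 + 10) * (1 + Real.log x) ^ 4 * D ^ 2 * (x : ℝ) ^ (1 - ρ) := by
    intro δ hδ
    rw [hΔ, mem_filter, mem_Icc] at hδ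
    have hδD : (δ : ℝ) ≤ D := by
      have h3 : ((⌊z ^ (8 * b' + 16)⌋₊ : ℕ) : ℝ) ≤ D := Nat.floor_le (by positivity)
      exact (by exact_mod_cast hδ.1.2 : (δ : ℝ) ≤ ((⌊z ^ (8 * b' + 16)⌋₊ : ℕ) : ℝ)).trans h3
    exact one_delta hC2 hS hadm' ha0 ha hρa hρε hρ0 hx hx2 hxt (hXCL x hxCL b hb hbcop) hu hQ
      hD1 hDx hδ.1.1 hδD hδ.2.1
  have hΔc : (Δ.card : ℝ) ≤ D := by
    have h3 : Δ.card ≤ ⌊z ^ (8 * b' + 16)⌋₊ := by
      have := card_filter_le (Icc 1 ⌊z ^ (8 * b' + 16)⌋₊)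
        (fun δ => Squarefree δ ∧ ∀ p : ℕ, p.Prime → p ∣ δ → (p : ℝ) < z)
      rw [Nat.card_Icc] at this
      simpa using this
    calc (Δ.card : ℝ) ≤ ((⌊z ^ (8 * b' + 16)⌋₊ : ℕ) : ℝ) := by exact_mod_cast h3
      _ ≤ D := Nat.floor_le (by positivity)
  have h3 : ∑ δ ∈ Δ, ∑ q ∈ Q, Real.log q * Er q δ ≤
      D * ((900 * C2 + 10) * (1 + Real.log x) ^ 4 * D ^ 2 * (x : ℝ) ^ (1 - ρ)) := by
    refine (sum_le_sum h2).trans ?_
    rw [sum_const, nsmul_eq_mul]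
    exact mul_le_mul_of_nonneg_right hΔc (by positivity)
  have hlz : Real.log z = η * Real.log x := by
    rw [hz, Real.log_rpow hx0]
  have hη1 : η ≤ 1 := by
    refine hη.trans ?_
    rw [div_le_one (by positivity)]
    have h4 : (1 : ℝ) ≤ e := by
      rw [he]
      push_cast
      have : (0 : ℝ) ≤ b' := Nat.cast_nonneg _
      linarith
    linarith
  have hlz1 : Real.log z ≤ Real.log x := by
    rw [hlz]
    nlinarith
  have hlz0 : 0 < Real.log z := Real.log_pos (by linarith)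
  have hD3 : D ^ 3 ≤ (x : ℝ) ^ (3 * ρ / 8) := by
    calc D ^ 3 ≤ ((x : ℝ) ^ (ρ / 8)) ^ 3 := pow_le_pow_left₀ (by linarith) hDx 3
      _ = _ := by
        rw [← Real.rpow_natCast, ← Real.rpow_mul hx0.le]
        congr 1
        push_cast
        ring
  -- the error
  have h4 : C1 * (1 + Real.log z) * ∑ δ ∈ Δ, ∑ q ∈ Q, Real.log q * Er q δ ≤
      C3 * (1 + Real.log x) ^ 5 * (x : ℝ) ^ (1 - 5 * ρ / 8) := by
    calc C1 * (1 + Real.log z) * ∑ δ ∈ Δ, ∑ q ∈ Q, Real.log q * Er q δ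
        ≤ C1 * (1 + Real.log x) *
          (D * ((900 * C2 + 10) * (1 + Real.log x) ^ 4 * D ^ 2 * (x : ℝ) ^ (1 - ρ))) := by
          apply mul_le_mul _ h3 _ (by positivity)
          · exact mul_le_mul_of_nonneg_left (by linarith) hC1.le
          · refine sum_nonneg fun δ _ => sum_nonneg fun q hq => ?_
            exact mul_nonneg (hlq0 q hq) (abs_nonneg _)
      _ = C3 * (1 + Real.log x) ^ 5 * (D ^ 3 * (x : ℝ) ^ (1 - ρ)) := by
          rw [hC3]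
          ring
      _ ≤ C3 * (1 + Real.log x) ^ 5 * ((x : ℝ) ^ (3 * ρ / 8) * (x : ℝ) ^ (1 - ρ)) := by
          apply mul_le_mul_of_nonneg_left _ (by positivity)
          exact mul_le_mul_of_nonneg_right hD3 hP0
      _ = _ := by
          rw [← Real.rpow_add hx0]
          congr 2
          ring
  have h5 : C3 * (1 + Real.log x) ^ 5 * (x : ℝ) ^ (1 - 5 * ρ / 8) ≤
      κ * (sg a x * N0 s t η x) * Real.log x := by
    have g1 : c0 / (1 + Real.log x) ^ 3 ≤ GG s t z := by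
      refine le_trans ?_ (hG z hz2.le)
      apply div_le_div_of_nonneg_left hc0.le (by positivity)
      exact pow_le_pow_left₀ hlz0.le (by linarith) 3
    have g2 : κ * ((a / 4) * ((x : ℝ) / 30 * (c0 / (1 + Real.log x) ^ 3))) ≤
        κ * (sg a x * N0 s t η x) * Real.log x := by
      rw [hN0]
      have g3 : (a / 4) * ((x : ℝ) / 30 * (c0 / (1 + Real.log x) ^ 3)) ≤
          sg a x * ((x : ℝ) / 30 * GG s t z) := by
        apply mul_le_mul hsg1 _ (by positivity) hsg0.le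
        exact mul_le_mul_of_nonneg_left g1 (by positivity)
      have g4 : 0 ≤ sg a x * ((x : ℝ) / 30 * GG s t z) := by positivity
      calc κ * ((a / 4) * ((x : ℝ) / 30 * (c0 / (1 + Real.log x) ^ 3)))
          ≤ κ * (sg a x * ((x : ℝ) / 30 * GG s t z)) := mul_le_mul_of_nonneg_left g3 hκ0.le
        _ = κ * (sg a x * ((x : ℝ) / 30 * GG s t z)) * 1 := by ring
        _ ≤ _ := mul_le_mul_of_nonneg_left hlogx (by positivity)
    refine le_trans ?_ g2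
    have g5 : (x : ℝ) ^ (1 - 5 * ρ / 8) * (x : ℝ) ^ (5 * ρ / 8) = x := by
      rw [← Real.rpow_add hx0]
      norm_num
    have g6 : κ * ((a / 4) * ((x : ℝ) / 30 * (c0 / (1 + Real.log x) ^ 3))) =
        (κ * (a / 4) * (1 / 30) * c0 * (x : ℝ) ^ (5 * ρ / 8)) * (x : ℝ) ^ (1 - 5 * ρ / 8) /
          (1 + Real.log x) ^ 3 := by
      have g7 : (x : ℝ) / 30 = ((x : ℝ) ^ (1 - 5 * ρ / 8) * (x : ℝ) ^ (5 * ρ / 8)) / 30 := by
        rw [g5]
      rw [g7]
      ring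
    rw [g6, le_div_iff₀ (by positivity)]
    calc C3 * (1 + Real.log x) ^ 5 * (x : ℝ) ^ (1 - 5 * ρ / 8) * (1 + Real.log x) ^ 3 =
          (C3 * (1 + Real.log x) ^ 8) * (x : ℝ) ^ (1 - 5 * ρ / 8) := by ring
      _ ≤ _ := mul_le_mul_of_nonneg_right hnum (Real.rpow_nonneg hx0.le _)
  linarith

end Pool.Agent.Lib.MP3efbeb.T
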