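import Pool.Agent.Lib.MP_3efbeb_nt.T.Spec

/-!
# MP_3efbeb_nt, line T: module A2, part a (pairs, orthogonality)
-/

set_option autoImplicit false

namespace Pool.Agent.Lib.MP3efbeb.T

open Finset
open scoped Classical
open Pool.Agent.Lib.MP_d1f1b5_nt.TB (PR dsum dsum_eq SpecBIL)

namespace A2M

noncomputable section

/-- the pairs `(c, P)` -/
def WP (a : ℝ) (x : ℕ) (κ : ℕ → Prop) : Finset (ℕ × ℕ) :=
  ((Icc 1 (2 * x)) ×ˢ (BP a x)).filter
    (fun w => x < w.1 * w.2 ∧ w.1 * w.2 ≤ 2 * x ∧ κ (w.1 * w.2))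

theorem mem_WP {a : ℝ} {x : ℕ} {κ : ℕ → Prop} {w : ℕ × ℕ} :
    w ∈ WP a x κ ↔ (1 ≤ w.1 ∧ w.1 ≤ 2 * x) ∧ w.2 ∈ BP a x ∧ x < w.1 * w.2 ∧
      w.1 * w.2 ≤ 2 * x ∧ κ (w.1 * w.2) := by
  unfold WP
  rw [mem_filter, mem_product, mem_Icc, and_assoc]

theorem mem_BP {a : ℝ} {x P : ℕ} :
    P ∈ BP a x ↔ (1 ≤ P ∧ P ≤ x) ∧ P.Prime ∧ (x : ℝ) ^ (1 - a) < P ∧
      (P : ℝ) ≤ (x : ℝ) ^ (1 - a / 2) := by
  unfold BP
  rw [mem_filter, mem_Icc]

theorem BP_big {a : ℝ} (ha : a ≤ 1 / 4) {x : ℕ} (hx : 4 ≤ x) {P : ℕ} (hP : P ∈ BP a x) :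
    (x : ℝ) ^ (3 / 4 : ℝ) < P := by
  rw [mem_BP] at hP
  refine lt_of_le_of_lt ?_ hP.2.2.1
  refine Real.rpow_le_rpow_of_exponent_le ?_ (by linarith)
  have : (4 : ℝ) ≤ x := by exact_mod_cast hx
  linarith

/-- a number up to `2x` has at most one prime factor in `BP` -/
theorem prime_unique {a : ℝ} (ha : a ≤ 1 / 4) {x : ℕ} (hx : 4 ≤ x) {P P' m : ℕ}
    (hP : P ∈ BP a x) (hP' : P' ∈ BP a x) (h1 : P ∣ m) (h2 : P' ∣ m) (hm0 : 0 < m)
    (hm : m ≤ 2 * x) : P = P' := by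
  by_contra hne
  have hp := (mem_BP.mp hP).2.1
  have hp' := (mem_BP.mp hP').2.1
  have hcop : Nat.Coprime P P' := (Nat.coprime_primes hp hp').mpr hne
  have hdvd : P * P' ∣ m := hcop.mul_dvd_of_dvd_of_dvd h1 h2
  have hle : P * P' ≤ 2 * x := (Nat.le_of_dvd hm0 hdvd).trans hm
  have b1 := BP_big ha hx hP
  have b2 := BP_big ha hx hP'
  have hx4 : (4 : ℝ) ≤ x := by exact_mod_cast hx
  have hx0 : (0 : ℝ) < x := by linarith
  have hpos : (0 : ℝ) < (x : ℝ) ^ (3 / 4 : ℝ) := Real.rpow_pos_of_pos hx0 _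
  have h3 : (x : ℝ) ^ (3 / 4 : ℝ) * (x : ℝ) ^ (3 / 4 : ℝ) < P * P' :=
    mul_lt_mul'' b1 b2 hpos.le hpos.le
  have h4 : (x : ℝ) ^ (3 / 4 : ℝ) * (x : ℝ) ^ (3 / 4 : ℝ) = x * (x : ℝ) ^ (1 / 2 : ℝ) := by
    rw [← Real.rpow_add hx0]
    conv_rhs => rw [← Real.rpow_one (x : ℝ), ← Real.rpow_mul hx0.le, ← Real.rpow_add hx0]
    norm_num
  have h5 : (2 : ℝ) ≤ (x : ℝ) ^ (1 / 2 : ℝ) := by
    rw [← Real.sqrt_eq_rpow]
    rw [show (2 : ℝ) = Real.sqrt 4 from by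
      rw [show (4 : ℝ) = 2 ^ 2 from by norm_num, Real.sqrt_sq (by norm_num)]]
    exact Real.sqrt_le_sqrt hx4
  have h6 : (P : ℝ) * P' ≤ 2 * x := by exact_mod_cast hle
  nlinarith

theorem WP_inj {a : ℝ} (ha : a ≤ 1 / 4) {x : ℕ} (hx : 4 ≤ x) {κ : ℕ → Prop} {w w' : ℕ × ℕ}
    (hw : w ∈ WP a x κ) (hw' : w' ∈ WP a x κ) (h : w.1 * w.2 = w'.1 * w'.2) : w = w' := by
  rw [mem_WP] at hw hw'
  have hP : w.2 = w'.2 := prime_unique ha hx hw.2.1 hw'.2.1 (Dvd.intro_left _ rfl)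
    (h ▸ Dvd.intro_left _ rfl) (by omega) hw.2.2.2.1
  have hpos : 0 < w'.2 := (mem_BP.mp hw'.2.1).2.1.pos
  have h1 : w.1 = w'.1 := by
    rw [hP] at h
    exact Nat.eq_of_mul_eq_mul_right hpos h
  exact Prod.ext h1 hP

/-- the numbers of `MM` and the pairs -/
theorem card_MM {a : ℝ} (ha : a ≤ 1 / 4) {x : ℕ} (hx : 4 ≤ x) (b : ℕ) (κ : ℕ → Prop)
    [DecidablePred κ] :
    ((MM b a x).filter κ).card = (WP a x (fun m => m % 30 = b ∧ κ m)).card := by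
  symm
  refine card_bij (fun w _ => w.1 * w.2) ?_ ?_ ?_
  · intro w hw
    rw [mem_WP] at hw
    rw [mem_filter]
    unfold MM
    rw [mem_filter, mem_Ioc]
    exact ⟨⟨⟨hw.2.2.1, hw.2.2.2.1⟩, hw.2.2.2.2.1, w.2, hw.2.1, Dvd.intro_left _ rfl⟩,
      hw.2.2.2.2.2⟩
  · intro w hw w' hw' h
    exact WP_inj ha hx hw hw' h
  · intro m hm
    rw [mem_filter] at hm
    unfold MM at hm
    rw [mem_filter, mem_Ioc] at hm
    obtain ⟨⟨⟨h1, h2⟩, h3, P, hP, c, rfl⟩, h4⟩ := hm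
    refine ⟨(c, P), ?_, mul_comm _ _⟩
    rw [mem_WP]
    have hPpos : 0 < P := (mem_BP.mp hP).2.1.pos
    have hc0 : 1 ≤ c := by
      rcases Nat.eq_zero_or_pos c with h | h
      · subst h
        omega
      · exact h
    refine ⟨⟨hc0, ?_⟩, hP, ?_, ?_, ?_, ?_⟩
    · exact le_trans (Nat.le_mul_of_pos_left c hPpos) h2
    · show x < c * P
      rw [mul_comm]; exact h1
    · show c * P ≤ 2 * x
      rw [mul_comm]; exact h2
    · show c * P % 30 = b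
      rw [mul_comm]; exact h3
    · show κ (c * P)
      rw [mul_comm]; exact h4

/-- pairs with `q ∣ cP` -/
theorem card_dvd {a : ℝ} (ha : a ≤ 1 / 4) {x : ℕ} (hx : 4 ≤ x) (κ : ℕ → Prop) (q : ℕ)
    (_hq : 0 < q) :
    (((WP a x κ).filter (fun w => q ∣ w.1 * w.2)).card : ℝ) ≤ 2 * x / q := by
  have h1 : ((WP a x κ).filter (fun w => q ∣ w.1 * w.2)).card ≤
      ((Ioc 0 (2 * x)).filter (fun m => q ∣ m)).card := by
    refine card_le_card_of_injOn (fun w => w.1 * w.2) ?_ ?_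
    · intro w hw
      rw [mem_coe, mem_filter, mem_WP] at hw
      rw [mem_coe, mem_filter, mem_Ioc]
      exact ⟨⟨lt_of_le_of_lt (Nat.zero_le _) hw.1.2.2.1, hw.1.2.2.2.1⟩, hw.2⟩
    · intro w hw w' hw' h
      rw [mem_coe, mem_filter] at hw hw'
      exact WP_inj ha hx hw.1 hw'.1 h
  rw [Nat.Ioc_filter_dvd_card_eq_div] at h1
  have h2 : ((2 * x / q : ℕ) : ℝ) ≤ ((2 * x : ℕ) : ℝ) / q := Nat.cast_div_le
  calc _ ≤ ((2 * x / q : ℕ) : ℝ) := by exact_mod_cast h1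
    _ ≤ _ := by
      refine h2.trans (le_of_eq ?_)
      push_cast
      rfl

theorem card_WP_le {a : ℝ} (ha : a ≤ 1 / 4) {x : ℕ} (hx : 4 ≤ x) (κ : ℕ → Prop) :
    ((WP a x κ).card : ℝ) ≤ 2 * x := by
  have h := card_dvd ha hx κ 1 Nat.one_pos
  have h1 : (WP a x κ).filter (fun w => 1 ∣ w.1 * w.2) = WP a x κ :=
    filter_true_of_mem fun w _ => one_dvd _
  rw [h1] at h
  simpa using h

/-! ### orthogonality -/

theorem orth (q : ℕ) (hq : q.Prime) (u : ℕ) (hu : ¬ q ∣ u) (W : Finset (ℕ × ℕ)) :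
    |((W.filter (fun w => q ∣ w.1 * w.2 + u)).card : ℝ) * (q - 1) -
      ((W.filter (fun w => ¬ q ∣ w.1 * w.2)).card : ℝ)| ≤
      dsum q (fun χ => ‖∑ w ∈ W, χ (w.1 : ZMod q) * χ (w.2 : ZMod q)‖) := by
  have : NeZero q := ⟨hq.ne_zero⟩
  have : Fact q.Prime := ⟨hq⟩
  rw [dsum_eq]
  set A : ZMod q := -(u : ZMod q) with hA
  have hu' : (u : ZMod q) ≠ 0 := fun h => hu ((ZMod.natCast_eq_zero_iff _ _).mp h)
  have hA0 : A ≠ 0 := neg_ne_zero.mpr hu'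
  have hAu : IsUnit A := isUnit_iff_ne_zero.mpr hA0
  have hn : ∀ χ : DirichletCharacter ℂ q, ∀ w : ℕ × ℕ,
      χ (w.1 : ZMod q) * χ (w.2 : ZMod q) = χ ((w.1 * w.2 : ℕ) : ZMod q) := by
    intro χ w
    rw [← map_mul]
    congr 1
    push_cast
    rfl
  -- the full sum
  have h1 : ∑ χ : DirichletCharacter ℂ q, χ A⁻¹ * ∑ w ∈ W, χ (w.1 : ZMod q) * χ (w.2 : ZMod q) =
      ((W.filter (fun w => q ∣ w.1 * w.2 + u)).card : ℂ) * (q - 1) := by
    have h2 : ∀ w : ℕ × ℕ, ∑ χ : DirichletCharacter ℂ q, χ A⁻¹ *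
        (χ (w.1 : ZMod q) * χ (w.2 : ZMod q)) = if q ∣ w.1 * w.2 + u then ((q : ℂ) - 1) else 0 := by
      intro w
      simp only [hn]
      rw [DirichletCharacter.sum_char_inv_mul_char_eq ℂ hAu]
      have h3 : A = ((w.1 * w.2 : ℕ) : ZMod q) ↔ q ∣ w.1 * w.2 + u := by
        rw [← ZMod.natCast_eq_zero_iff, hA]
        push_cast
        constructor
        · intro h
          rw [← h]
          ring
        · intro h
          linear_combination -h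
      by_cases h : q ∣ w.1 * w.2 + u
      · rw [if_pos (h3.mpr h), if_pos h, Nat.totient_prime hq, Nat.cast_sub hq.one_lt.le]
        push_cast
        rfl
      · rw [if_neg (fun hc => h (h3.mp hc)), if_neg h]
    simp only [mul_sum]
    rw [sum_comm]
    rw [sum_congr rfl fun w _ => h2 w, ← sum_filter, sum_const, nsmul_eq_mul]
  -- the principal character
  have h4 : (1 : DirichletCharacter ℂ q) A⁻¹ *
      ∑ w ∈ W, (1 : DirichletCharacter ℂ q) (w.1 : ZMod q) *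
        (1 : DirichletCharacter ℂ q) (w.2 : ZMod q) =
      ((W.filter (fun w => ¬ q ∣ w.1 * w.2)).card : ℂ) := by
    have h5 : (1 : DirichletCharacter ℂ q) A⁻¹ = 1 := by
      rw [MulChar.one_apply]
      exact isUnit_iff_ne_zero.mpr (inv_ne_zero hA0)
    rw [h5, one_mul]
    have h6 : ∀ w : ℕ × ℕ, (1 : DirichletCharacter ℂ q) (w.1 : ZMod q) *
        (1 : DirichletCharacter ℂ q) (w.2 : ZMod q) = if ¬ q ∣ w.1 * w.2 then 1 else 0 := by
      intro w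
      rw [hn]
      by_cases h : q ∣ w.1 * w.2
      · rw [(ZMod.natCast_eq_zero_iff _ _).mpr h, if_neg (not_not.mpr h)]
        exact MulChar.map_zero _
      · rw [if_pos h]
        exact MulChar.one_apply (isUnit_iff_ne_zero.mpr
          fun h0 => h ((ZMod.natCast_eq_zero_iff _ _).mp h0))
    rw [sum_congr rfl fun w _ => h6 w, ← sum_filter, sum_const, nsmul_eq_mul, mul_one]
  have h7 : ((W.filter (fun w => q ∣ w.1 * w.2 + u)).card : ℂ) * (q - 1) -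
      ((W.filter (fun w => ¬ q ∣ w.1 * w.2)).card : ℂ) =
      ∑ χ ∈ (univ : Finset (DirichletCharacter ℂ q)).filter (fun χ => χ ≠ 1),
        χ A⁻¹ * ∑ w ∈ W, χ (w.1 : ZMod q) * χ (w.2 : ZMod q) := by
    rw [← h1, ← h4, ← sum_filter_add_sum_filter_not univ (fun χ : DirichletCharacter ℂ q => χ ≠ 1)]
    have h8 : (univ : Finset (DirichletCharacter ℂ q)).filter (fun χ => ¬ χ ≠ 1) = {1} := by
      ext χ
      simp
    rw [h8, sum_singleton]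
    ring
  have h9 : |((W.filter (fun w => q ∣ w.1 * w.2 + u)).card : ℝ) * (q - 1) -
      ((W.filter (fun w => ¬ q ∣ w.1 * w.2)).card : ℝ)| =
      ‖((W.filter (fun w => q ∣ w.1 * w.2 + u)).card : ℂ) * (q - 1) -
      ((W.filter (fun w => ¬ q ∣ w.1 * w.2)).card : ℂ)‖ := by
    rw [← Real.norm_eq_abs, ← Complex.norm_real]
    congr 1
    push_cast
    rfl
  rw [h9, h7]
  refine (norm_sum_le _ _).trans (sum_le_sum fun χ _ => ?_)
  rw [norm_mul]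
  have h10 : ‖χ A⁻¹‖ ≤ 1 := DirichletCharacter.norm_le_one _ _
  calc _ ≤ 1 * _ := mul_le_mul_of_nonneg_right h10 (norm_nonneg _)
    _ = _ := one_mul _

end

end A2M

end Pool.Agent.Lib.MP3efbeb.T
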