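import Pool.Agent.Lib.MP_3efbeb_nt.T.A2a

/-!
# MP_3efbeb_nt, line T: module A2, part b (dyadic blocks and the bilinear large sieve)
-/

set_option autoImplicit false

namespace Pool.Agent.Lib.MP3efbeb.T

open Finset
open scoped Classical
open Pool.Agent.Lib.MP_d1f1b5_nt.TB (PR dsum dsum_eq SpecBIL)

namespace A2M

noncomputable section

/-- the dyadic block of `P` -/
def gk (k : ℕ) : ℕ := Nat.log 2 (k - 1)

theorem gk_iff {k i : ℕ} (hk : 2 ≤ k) : gk k = i ↔ 2 ^ i < k ∧ k ≤ 2 * 2 ^ i := by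
  unfold gk
  rw [Nat.log_eq_iff (Or.inr ⟨by norm_num, by omega⟩), pow_succ]
  omega

/-- coefficients in `P` -/
def ca (a : ℝ) (x : ℕ) (κ : ℕ → Prop) (Q α β k : ℕ) : ℝ :=
  if k ∈ BP a x ∧ k % Q = β ∧ κ (α * β) then 1 else 0

/-- coefficients in `c` -/
def cb (Q α d : ℕ) : ℝ := if d % Q = α then 1 else 0

/-- the block sum -/
def blk (a : ℝ) (x : ℕ) (κ : ℕ → Prop) (Q α β i : ℕ) (q : ℕ) (χ : DirichletCharacter ℂ q) : ℂ :=
  ∑ k ∈ Ioc (2 ^ i) (2 * 2 ^ i),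
    ∑ d ∈ (Icc 1 (2 * x / 2 ^ i + 1)).filter (fun d => x < k * d ∧ k * d ≤ 2 * x),
      ((ca a x κ Q α β k * cb Q α d : ℝ) : ℂ) * (χ (k : ZMod q) * χ (d : ZMod q))

theorem sum_class (a : ℝ) (x : ℕ) (κ : ℕ → Prop) (Q : ℕ) (hQ : 0 < Q)
    (hκ : ∀ m m' : ℕ, m % Q = m' % Q → (κ m ↔ κ m')) (k d : ℕ) :
    ∑ α ∈ range Q, ∑ β ∈ range Q, ca a x κ Q α β k * cb Q α d =
      if k ∈ BP a x ∧ κ (d * k) then 1 else 0 := by
  have h1 : κ (d % Q * (k % Q)) ↔ κ (d * k) := hκ _ _ (by rw [← Nat.mul_mod])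
  rw [sum_eq_single (d % Q)]
  · rw [sum_eq_single (k % Q)]
    · unfold ca cb
      rw [if_pos rfl, mul_one]
      simp only [h1, true_and]
    · intro β _ hβ
      unfold ca
      rw [if_neg (fun h => hβ h.2.1.symm), zero_mul]
    · intro h
      exact absurd (mem_range.mpr (Nat.mod_lt _ hQ)) h
  · intro α _ hα
    refine sum_eq_zero fun β _ => ?_
    unfold cb
    rw [if_neg (fun h => hα h.symm), mul_zero]
  · intro h
    exact absurd (mem_range.mpr (Nat.mod_lt _ hQ)) h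

/-- decomposition into blocks and classes -/
theorem sum_WP (a : ℝ) (x : ℕ) (κ : ℕ → Prop) (Q : ℕ) (hQ : 0 < Q)
    (hκ : ∀ m m' : ℕ, m % Q = m' % Q → (κ m ↔ κ m')) (q : ℕ) (χ : DirichletCharacter ℂ q) :
    ∑ w ∈ WP a x κ, χ (w.1 : ZMod q) * χ (w.2 : ZMod q) =
      ∑ i ∈ (BP a x).image gk, ∑ α ∈ range Q, ∑ β ∈ range Q, blk a x κ Q α β i q χ := by
  have hL : ∑ w ∈ WP a x κ, χ (w.1 : ZMod q) * χ (w.2 : ZMod q) =
      ∑ k ∈ BP a x, ∑ c ∈ (Icc 1 (2 * x)).filter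
        (fun c => x < c * k ∧ c * k ≤ 2 * x ∧ κ (c * k)), χ (c : ZMod q) * χ (k : ZMod q) := by
    unfold WP
    rw [sum_filter, sum_product_right]
    refine sum_congr rfl fun k _ => ?_
    rw [sum_filter]
  rw [hL, ← sum_fiberwise_of_maps_to (t := (BP a x).image gk) (g := gk)
    (fun k hk => mem_image_of_mem _ hk)]
  refine sum_congr rfl fun i _ => ?_
  -- the block `i`
  have h1 : (BP a x).filter (fun k => gk k = i) =
      (Ioc (2 ^ i) (2 * 2 ^ i)).filter (fun k => k ∈ BP a x) := by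
    ext k
    rw [mem_filter, mem_filter, mem_Ioc, and_comm]
    constructor
    · rintro ⟨h, hk⟩
      have h2 := (mem_BP.mp hk).2.1.two_le
      exact ⟨(gk_iff h2).mp h, hk⟩
    · rintro ⟨h, hk⟩
      have h2 := (mem_BP.mp hk).2.1.two_le
      exact ⟨(gk_iff h2).mpr h, hk⟩
  rw [h1, sum_filter]
  have h2 : ∑ α ∈ range Q, ∑ β ∈ range Q, blk a x κ Q α β i q χ =
      ∑ k ∈ Ioc (2 ^ i) (2 * 2 ^ i),
        ∑ d ∈ (Icc 1 (2 * x / 2 ^ i + 1)).filter (fun d => x < k * d ∧ k * d ≤ 2 * x),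
        ((∑ α ∈ range Q, ∑ β ∈ range Q, ca a x κ Q α β k * cb Q α d : ℝ) : ℂ) *
          (χ (k : ZMod q) * χ (d : ZMod q)) := by
    unfold blk
    have e1 : ∀ α ∈ range Q, ∑ β ∈ range Q, ∑ k ∈ Ioc (2 ^ i) (2 * 2 ^ i),
        ∑ d ∈ (Icc 1 (2 * x / 2 ^ i + 1)).filter (fun d => x < k * d ∧ k * d ≤ 2 * x),
        ((ca a x κ Q α β k * cb Q α d : ℝ) : ℂ) * (χ (k : ZMod q) * χ (d : ZMod q)) =
        ∑ k ∈ Ioc (2 ^ i) (2 * 2 ^ i),
        ∑ d ∈ (Icc 1 (2 * x / 2 ^ i + 1)).filter (fun d => x < k * d ∧ k * d ≤ 2 * x),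
        ∑ β ∈ range Q,
        ((ca a x κ Q α β k * cb Q α d : ℝ) : ℂ) * (χ (k : ZMod q) * χ (d : ZMod q)) := by
      intro α _
      rw [sum_comm]
      refine sum_congr rfl fun k _ => ?_
      rw [sum_comm]
    rw [sum_congr rfl e1, sum_comm]
    refine sum_congr rfl fun k _ => ?_
    rw [sum_comm]
    refine sum_congr rfl fun d _ => ?_
    push_cast
    rw [sum_mul]
    refine sum_congr rfl fun α _ => ?_
    rw [sum_mul]
  rw [h2]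
  refine sum_congr rfl fun k hk => ?_
  rw [mem_Ioc] at hk
  by_cases hkB : k ∈ BP a x
  · rw [if_pos hkB]
    have h3 : ∀ d, ((∑ α ∈ range Q, ∑ β ∈ range Q, ca a x κ Q α β k * cb Q α d : ℝ) : ℂ) *
          (χ (k : ZMod q) * χ (d : ZMod q)) =
        if κ (d * k) then χ (d : ZMod q) * χ (k : ZMod q) else 0 := by
      intro d
      rw [sum_class a x κ Q hQ hκ k d]
      by_cases h : κ (d * k)
      · rw [if_pos ⟨hkB, h⟩, if_pos h]
        push_cast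
        ring
      · rw [if_neg (fun hc => h hc.2), if_neg h]
        push_cast
        ring
    rw [sum_congr rfl fun d _ => h3 d, ← sum_filter]
    refine sum_congr ?_ fun _ _ => rfl
    ext d
    rw [mem_filter, mem_filter, mem_filter, mem_Icc, mem_Icc]
    constructor
    · rintro ⟨⟨h4, h5⟩, h6, h7, h8⟩
      refine ⟨⟨⟨h4, ?_⟩, ?_, ?_⟩, h8⟩
      · have h9 : d * 2 ^ i ≤ 2 * x := (Nat.mul_le_mul_left d hk.1.le).trans h7
        have h10 : d ≤ 2 * x / 2 ^ i := (Nat.le_div_iff_mul_le (by positivity)).mpr h9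
        omega
      · rw [mul_comm]; exact h6
      · rw [mul_comm]; exact h7
    · rintro ⟨⟨⟨h4, h5⟩, h6, h7⟩, h8⟩
      rw [mul_comm] at h6 h7
      refine ⟨⟨h4, ?_⟩, h6, h7, h8⟩
      have hk1 : 1 ≤ k := by
        have : 0 < 2 ^ i := by positivity
        omega
      exact (Nat.le_mul_of_pos_right d hk1).trans h7
  · rw [if_neg hkB]
    symm
    refine sum_eq_zero fun d _ => ?_
    rw [sum_class a x κ Q hQ hκ k d, if_neg (fun hc => hkB hc.1)]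
    push_cast
    ring

theorem dsum_mono_sum {ι : Type} (q : ℕ) (J : Finset ι) (Φ : DirichletCharacter ℂ q → ℝ)
    (Ψ : ι → DirichletCharacter ℂ q → ℝ) (h : ∀ χ, Φ χ ≤ ∑ j ∈ J, Ψ j χ) :
    dsum q Φ ≤ ∑ j ∈ J, dsum q (Ψ j) := by
  by_cases hq : q = 0
  · unfold dsum
    simp only [dif_pos hq]
    simp
  · have : NeZero q := ⟨hq⟩
    simp only [dsum_eq]
    rw [sum_comm]
    exact sum_le_sum fun χ _ => h χ

theorem dsum_nonneg (q : ℕ) (Φ : DirichletCharacter ℂ q → ℝ) (h : ∀ χ, 0 ≤ Φ χ) :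
    0 ≤ dsum q Φ := by
  unfold dsum
  split_ifs
  · exact le_rfl
  · exact sum_nonneg fun χ _ => h χ

/-- the bilinear bound for one block, one class, summed over the primes in `(R, 2R]` -/
theorem blk_bound {C : ℝ}
    (hC : ∀ (R K M Y₁ Y₂ : ℕ) (a b : ℕ → ℝ), 1 ≤ R → 1 ≤ K → 1 ≤ M →
      Y₁ ≤ Y₂ → Y₂ ≤ K * M →
      ∑ q ∈ PR R, dsum q (fun χ => ‖∑ k ∈ Ioc K (2 * K),
          ∑ d ∈ (Icc 1 M).filter (fun d => Y₁ < k * d ∧ k * d ≤ Y₂),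
            ((a k * b d : ℝ) : ℂ) * (χ (k : ZMod q) * χ (d : ZMod q))‖)
        ≤ C * (1 + Real.log M) * √(((K : ℝ) + (R : ℝ) ^ 2) * ((M : ℝ) + (R : ℝ) ^ 2))
            * √((∑ k ∈ Ioc K (2 * K), (a k) ^ 2) * ∑ d ∈ Icc 1 M, (b d) ^ 2)) (hC0 : 0 < C)
    (a : ℝ) (x : ℕ) (κ : ℕ → Prop) (Q α β i R : ℕ) (hR : 1 ≤ R) :
    ∑ q ∈ PR R, dsum q (fun χ => ‖blk a x κ Q α β i q χ‖) ≤
      C * (1 + Real.log ((2 * x / 2 ^ i + 1 : ℕ) : ℝ)) *
        √((((2 ^ i : ℕ) : ℝ) + (R : ℝ) ^ 2) * (((2 * x / 2 ^ i + 1 : ℕ) : ℝ) + (R : ℝ) ^ 2)) *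
        √(((2 ^ i : ℕ) : ℝ) * ((2 * x / 2 ^ i + 1 : ℕ) : ℝ)) := by
  have hK : 1 ≤ 2 ^ i := Nat.one_le_pow _ _ (by norm_num)
  have h1 := hC R (2 ^ i) (2 * x / 2 ^ i + 1) x (2 * x) (ca a x κ Q α β) (cb Q α) hR hK
    (Nat.le_add_left 1 _) (Nat.le_mul_of_pos_left x (by norm_num)) (by
      have := Nat.div_add_mod (2 * x) (2 ^ i)
      have h3 := Nat.mod_lt (2 * x) (show 0 < 2 ^ i by positivity)
      calc 2 * x = 2 ^ i * (2 * x / 2 ^ i) + 2 * x % 2 ^ i := this.symm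
        _ ≤ 2 ^ i * (2 * x / 2 ^ i) + 2 ^ i := by omega
        _ = 2 ^ i * (2 * x / 2 ^ i + 1) := by ring)
  refine h1.trans ?_
  have hM1 : (1 : ℝ) ≤ ((2 * x / 2 ^ i + 1 : ℕ) : ℝ) := by
    push_cast
    have : (0 : ℝ) ≤ ((2 * x / 2 ^ i : ℕ) : ℝ) := Nat.cast_nonneg _
    linarith
  have hlog : 0 ≤ Real.log ((2 * x / 2 ^ i + 1 : ℕ) : ℝ) := Real.log_nonneg hM1
  apply mul_le_mul_of_nonneg_left
  · apply Real.sqrt_le_sqrt
    have h2 : ∑ k ∈ Ioc (2 ^ i) (2 * 2 ^ i), ca a x κ Q α β k ^ 2 ≤ ((2 ^ i : ℕ) : ℝ) := by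
      have h3 : ∀ k ∈ Ioc (2 ^ i) (2 * 2 ^ i), ca a x κ Q α β k ^ 2 ≤ 1 := by
        intro k _
        unfold ca
        split_ifs <;> norm_num
      refine (sum_le_sum h3).trans ?_
      rw [sum_const, Nat.card_Ioc, nsmul_eq_mul, mul_one]
      have : 2 * 2 ^ i - 2 ^ i = 2 ^ i := by omega
      rw [this]
    have h4 : ∑ d ∈ Icc 1 (2 * x / 2 ^ i + 1), cb Q α d ^ 2 ≤ ((2 * x / 2 ^ i + 1 : ℕ) : ℝ) := by
      have h3 : ∀ d ∈ Icc 1 (2 * x / 2 ^ i + 1), cb Q α d ^ 2 ≤ 1 := by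
        intro k _
        unfold cb
        split_ifs <;> norm_num
      refine (sum_le_sum h3).trans ?_
      rw [sum_const, Nat.card_Icc, nsmul_eq_mul, mul_one]
      simp
    exact mul_le_mul h2 h4 (sum_nonneg fun _ _ => sq_nonneg _) (Nat.cast_nonneg _)
  · have : 0 ≤ C * (1 + Real.log ((2 * x / 2 ^ i + 1 : ℕ) : ℝ)) := by positivity
    exact mul_nonneg this (Real.sqrt_nonneg _)

end

end A2M

end Pool.Agent.Lib.MP3efbeb.T
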