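import Pool.Agent.Lib.MP_3efbeb_nt.T.A2b

/-!
# MP_3efbeb_nt, line T: module A2, part c (the sum over the moduli)
-/

set_option autoImplicit false

namespace Pool.Agent.Lib.MP3efbeb.T

open Finset
open scoped Classical
open Pool.Agent.Lib.MP_d1f1b5_nt.TB (PR dsum dsum_eq SpecBIL)

namespace A2M

noncomputable section

theorem card_gk (x : ℕ) (hx : 1 ≤ x) (S : Finset ℕ) (hS : ∀ k ∈ S, k ≤ x + 1) :
    ((S.image gk).card : ℝ) ≤ 2 * (1 + Real.log x) := by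
  have h1 : S.image gk ⊆ range (Nat.log 2 x + 1) := by
    intro i hi
    rw [mem_image] at hi
    obtain ⟨k, hk, rfl⟩ := hi
    rw [mem_range, Nat.lt_succ_iff]
    exact Nat.log_mono_right (by have := hS k hk; omega)
  have h2 : (S.image gk).card ≤ Nat.log 2 x + 1 := by
    have := card_le_card h1
    rwa [card_range] at this
  have h3 : (Nat.log 2 x : ℝ) ≤ 2 * Real.log x := by
    have h4 : 2 ^ Nat.log 2 x ≤ x := Nat.pow_log_le_self 2 (by omega)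
    have h5 : ((2 : ℝ)) ^ Nat.log 2 x ≤ x := by exact_mod_cast h4
    have h6 := Real.log_le_log (by positivity) h5
    rw [Real.log_pow] at h6
    have h7 : (1 / 2 : ℝ) < Real.log 2 := by
      have := Real.log_two_gt_d9
      linarith
    have h8 : (0 : ℝ) ≤ Nat.log 2 x := Nat.cast_nonneg _
    nlinarith
  calc ((S.image gk).card : ℝ) ≤ ((Nat.log 2 x + 1 : ℕ) : ℝ) := by exact_mod_cast h2
    _ ≤ _ := by
      push_cast
      have : 0 ≤ Real.log x := Real.log_nonneg (by exact_mod_cast hx)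
      linarith

theorem block_numeric {a ε ρ : ℝ} (ha0 : 0 < a) (ha : a ≤ 1 / 4) (hρa : ρ ≤ a / 8)
    (hρε : ρ ≤ ε) (hρ0 : 0 < ρ) {x : ℕ} (hx : 4 ≤ x) {R : ℕ} (hR1 : 1 ≤ R)
    (hR2 : (x : ℝ) ^ (a / 8) ≤ 2 * R) (hR3 : (R : ℝ) ≤ (x : ℝ) ^ (1 / 2 - ε)) {i : ℕ}
    (hi : i ∈ (BP a x).image gk) :
    √((((2 ^ i : ℕ) : ℝ) + (R : ℝ) ^ 2) * (((2 * x / 2 ^ i + 1 : ℕ) : ℝ) + (R : ℝ) ^ 2)) *
        √(((2 ^ i : ℕ) : ℝ) * ((2 * x / 2 ^ i + 1 : ℕ) : ℝ)) ≤ 8 * R * (x : ℝ) ^ (1 - ρ) := by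
  rw [mem_image] at hi
  obtain ⟨k, hk, hki⟩ := hi
  have hk2 := (mem_BP.mp hk).2.1.two_le
  have hk3 := (gk_iff hk2).mp hki
  have hkb := (mem_BP.mp hk).2.2
  set K : ℝ := ((2 ^ i : ℕ) : ℝ) with hK
  set M : ℝ := ((2 * x / 2 ^ i + 1 : ℕ) : ℝ) with hM
  have hx4 : (4 : ℝ) ≤ x := by exact_mod_cast hx
  have hx0 : (0 : ℝ) < x := by linarith
  have hx1 : (1 : ℝ) ≤ x := by linarith
  have hK0 : 0 < K := by rw [hK]; positivity
  have hM0 : 0 < M := by rw [hM]; positivity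
  have hR0 : (0 : ℝ) < R := by exact_mod_cast hR1
  have hKk : K < k := by rw [hK]; exact_mod_cast hk3.1
  have hkK : (k : ℝ) ≤ 2 * K := by rw [hK]; exact_mod_cast hk3.2
  have hK1 : K ≤ (x : ℝ) ^ (1 - a / 2) := hKk.le.trans hkb.2
  have hK2 : (x : ℝ) ^ (1 - a) ≤ 2 * K := hkb.1.le.trans hkK
  have hM1 : M ≤ 2 * x / K + 1 := by
    rw [hM, hK]
    push_cast
    have : ((2 * x / 2 ^ i : ℕ) : ℝ) ≤ ((2 * x : ℕ) : ℝ) / ((2 ^ i : ℕ) : ℝ) := Nat.cast_div_le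
    push_cast at this
    linarith
  have hxa : (x : ℝ) ^ (1 - a) * (x : ℝ) ^ a = x := by
    rw [← Real.rpow_add hx0]
    norm_num
  have hxa0 : 0 < (x : ℝ) ^ a := Real.rpow_pos_of_pos hx0 _
  have hxa1 : 1 ≤ (x : ℝ) ^ a := Real.one_le_rpow hx1 ha0.le
  have hM2 : M ≤ 5 * (x : ℝ) ^ a := by
    have h1 : 2 * x / K ≤ 4 * (x : ℝ) ^ a := by
      rw [div_le_iff₀ hK0]
      have h2 : (x : ℝ) ≤ 2 * K * (x : ℝ) ^ a := by
        calc (x : ℝ) = (x : ℝ) ^ (1 - a) * (x : ℝ) ^ a := hxa.symm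
          _ ≤ 2 * K * (x : ℝ) ^ a := mul_le_mul_of_nonneg_right hK2 hxa0.le
      linarith
    linarith
  have hKM : K * M ≤ 3 * x := by
    have h1 : K * M ≤ K * (2 * x / K + 1) := mul_le_mul_of_nonneg_left hM1 hK0.le
    have h2 : K * (2 * x / K + 1) = 2 * x + K := by field_simp
    have h3 : K ≤ x := by
      refine hKk.le.trans ?_
      exact_mod_cast (mem_BP.mp hk).1.2
    linarith
  -- powers
  set Z : ℝ := (x : ℝ) ^ (1 - 2 * ρ) with hZ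
  have hZ0 : 0 < Z := Real.rpow_pos_of_pos hx0 _
  have e1 : (x : ℝ) ^ (1 - a / 4) ≤ Z := Real.rpow_le_rpow_of_exponent_le hx1 (by linarith)
  have e2 : (x : ℝ) ^ (1 - a / 2) ≤ Z := Real.rpow_le_rpow_of_exponent_le hx1 (by linarith)
  have e3 : (x : ℝ) ^ a ≤ Z := Real.rpow_le_rpow_of_exponent_le hx1 (by linarith)
  have e4 : (R : ℝ) ^ 2 ≤ Z := by
    calc (R : ℝ) ^ 2 ≤ ((x : ℝ) ^ (1 / 2 - ε)) ^ 2 := pow_le_pow_left₀ hR0.le hR3 2
      _ = (x : ℝ) ^ (1 - 2 * ε) := by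
        rw [← Real.rpow_natCast, ← Real.rpow_mul hx0.le]
        congr 1
        push_cast
        ring
      _ ≤ Z := Real.rpow_le_rpow_of_exponent_le hx1 (by linarith)
  have e5 : (x : ℝ) ≤ 4 * (R : ℝ) ^ 2 * Z := by
    have h1 : (x : ℝ) ^ (a / 4) ≤ 4 * (R : ℝ) ^ 2 := by
      calc (x : ℝ) ^ (a / 4) = ((x : ℝ) ^ (a / 8)) ^ 2 := by
            rw [← Real.rpow_natCast, ← Real.rpow_mul hx0.le]
            congr 1
            push_cast
            ring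
        _ ≤ (2 * R) ^ 2 := pow_le_pow_left₀ (Real.rpow_nonneg hx0.le _) hR2 2
        _ = _ := by ring
    calc (x : ℝ) = (x : ℝ) ^ (a / 4) * (x : ℝ) ^ (1 - a / 4) := by
          rw [← Real.rpow_add hx0]
          norm_num
      _ ≤ 4 * (R : ℝ) ^ 2 * Z := by
          apply mul_le_mul h1 e1 (Real.rpow_nonneg hx0.le _) (by positivity)
  have hR2' : (0 : ℝ) < (R : ℝ) ^ 2 := by positivity
  have f1 : (K + (R : ℝ) ^ 2) * (M + (R : ℝ) ^ 2) ≤ 19 * ((R : ℝ) ^ 2 * Z) := by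
    have g1 : K * M ≤ 12 * ((R : ℝ) ^ 2 * Z) := by
      calc K * M ≤ 3 * x := hKM
        _ ≤ _ := by nlinarith
    have g2 : (R : ℝ) ^ 2 * (K + M) ≤ (R : ℝ) ^ 2 * (6 * Z) := by
      apply mul_le_mul_of_nonneg_left _ hR2'.le
      linarith
    have g3 : (R : ℝ) ^ 2 * (R : ℝ) ^ 2 ≤ (R : ℝ) ^ 2 * Z := mul_le_mul_of_nonneg_left e4 hR2'.le
    calc (K + (R : ℝ) ^ 2) * (M + (R : ℝ) ^ 2) =
        K * M + (R : ℝ) ^ 2 * (K + M) + (R : ℝ) ^ 2 * (R : ℝ) ^ 2 := by ring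
      _ ≤ 12 * ((R : ℝ) ^ 2 * Z) + (R : ℝ) ^ 2 * (6 * Z) + (R : ℝ) ^ 2 * Z := by linarith
      _ = _ := by ring
  have f2 : (K + (R : ℝ) ^ 2) * (M + (R : ℝ) ^ 2) * (K * M) ≤
      (8 * R * (x : ℝ) ^ (1 - ρ)) ^ 2 := by
    have g1 : (x : ℝ) * Z = ((x : ℝ) ^ (1 - ρ)) ^ 2 := by
      rw [hZ, ← Real.rpow_natCast, ← Real.rpow_mul hx0.le]
      nth_rewrite 1 [← Real.rpow_one (x : ℝ)]
      rw [← Real.rpow_add hx0]
      congr 1
      push_cast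
      ring
    calc (K + (R : ℝ) ^ 2) * (M + (R : ℝ) ^ 2) * (K * M)
        ≤ (19 * ((R : ℝ) ^ 2 * Z)) * (3 * x) := by
          apply mul_le_mul f1 hKM (by positivity) (by positivity)
      _ = 57 * (R : ℝ) ^ 2 * ((x : ℝ) * Z) := by ring
      _ ≤ 64 * (R : ℝ) ^ 2 * ((x : ℝ) * Z) := by
          have : 0 ≤ (R : ℝ) ^ 2 * ((x : ℝ) * Z) := by positivity
          nlinarith
      _ = _ := by rw [g1]; ring
  rw [← Real.sqrt_mul (by positivity)]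
  rw [← Real.sqrt_sq (show 0 ≤ 8 * (R : ℝ) * (x : ℝ) ^ (1 - ρ) by positivity)]
  exact Real.sqrt_le_sqrt f2

/-- the sum over the primes in `(R, 2R]` -/
theorem sum_PR {C : ℝ} (hC0 : 0 < C)
    (hC : ∀ (R K M Y₁ Y₂ : ℕ) (a b : ℕ → ℝ), 1 ≤ R → 1 ≤ K → 1 ≤ M →
      Y₁ ≤ Y₂ → Y₂ ≤ K * M →
      ∑ q ∈ PR R, dsum q (fun χ => ‖∑ k ∈ Ioc K (2 * K),
          ∑ d ∈ (Icc 1 M).filter (fun d => Y₁ < k * d ∧ k * d ≤ Y₂),
            ((a k * b d : ℝ) : ℂ) * (χ (k : ZMod q) * χ (d : ZMod q))‖)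
        ≤ C * (1 + Real.log M) * √(((K : ℝ) + (R : ℝ) ^ 2) * ((M : ℝ) + (R : ℝ) ^ 2))
            * √((∑ k ∈ Ioc K (2 * K), (a k) ^ 2) * ∑ d ∈ Icc 1 M, (b d) ^ 2))
    {a ε ρ : ℝ} (ha0 : 0 < a) (ha : a ≤ 1 / 4) (hρa : ρ ≤ a / 8)
    (hρε : ρ ≤ ε) (hρ0 : 0 < ρ) {x : ℕ} (hx : 4 ≤ x) (κ : ℕ → Prop) (Q : ℕ) (hQ : 0 < Q)
    (hκ : ∀ m m' : ℕ, m % Q = m' % Q → (κ m ↔ κ m')) {R : ℕ} (hR1 : 1 ≤ R)
    (hR2 : (x : ℝ) ^ (a / 8) ≤ 2 * R) (hR3 : (R : ℝ) ≤ (x : ℝ) ^ (1 / 2 - ε)) :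
    ∑ q ∈ PR R, dsum q (fun χ => ‖∑ w ∈ WP a x κ, χ (w.1 : ZMod q) * χ (w.2 : ZMod q)‖) ≤
      48 * C * (1 + Real.log x) ^ 2 * (Q : ℝ) ^ 2 * (R * (x : ℝ) ^ (1 - ρ)) := by
  have hx4 : (4 : ℝ) ≤ x := by exact_mod_cast hx
  have hx1 : (1 : ℝ) ≤ x := by linarith
  have hlogx : 0 ≤ Real.log x := Real.log_nonneg hx1
  have h1 : ∀ q ∈ PR R, dsum q (fun χ => ‖∑ w ∈ WP a x κ, χ (w.1 : ZMod q) * χ (w.2 : ZMod q)‖) ≤
      ∑ i ∈ (BP a x).image gk, ∑ α ∈ range Q, ∑ β ∈ range Q,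
        dsum q (fun χ => ‖blk a x κ Q α β i q χ‖) := by
    intro q _
    have h2 := dsum_mono_sum q (((BP a x).image gk) ×ˢ ((range Q) ×ˢ (range Q)))
      (fun χ => ‖∑ w ∈ WP a x κ, χ (w.1 : ZMod q) * χ (w.2 : ZMod q)‖)
      (fun j χ => ‖blk a x κ Q j.2.1 j.2.2 j.1 q χ‖) (fun χ => by
        rw [sum_WP a x κ Q hQ hκ q χ]
        rw [sum_product]
        refine (norm_sum_le _ _).trans (sum_le_sum fun i _ => ?_)
        rw [sum_product]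
        refine (norm_sum_le _ _).trans (sum_le_sum fun α _ => ?_)
        exact norm_sum_le _ _)
    rw [sum_product] at h2
    refine h2.trans (le_of_eq ?_)
    refine sum_congr rfl fun i _ => ?_
    rw [sum_product]
  refine (sum_le_sum h1).trans ?_
  have h3 : ∑ q ∈ PR R, ∑ i ∈ (BP a x).image gk, ∑ α ∈ range Q, ∑ β ∈ range Q,
        dsum q (fun χ => ‖blk a x κ Q α β i q χ‖) =
      ∑ i ∈ (BP a x).image gk, ∑ α ∈ range Q, ∑ β ∈ range Q, ∑ q ∈ PR R,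
        dsum q (fun χ => ‖blk a x κ Q α β i q χ‖) := by
    rw [sum_comm]
    refine sum_congr rfl fun i _ => ?_
    rw [sum_comm]
    refine sum_congr rfl fun α _ => ?_
    rw [sum_comm]
  rw [h3]
  have h4 : ∀ i ∈ (BP a x).image gk, ∀ α ∈ range Q, ∀ β ∈ range Q, ∑ q ∈ PR R,
        dsum q (fun χ => ‖blk a x κ Q α β i q χ‖) ≤
      C * (3 * (1 + Real.log x)) * (8 * R * (x : ℝ) ^ (1 - ρ)) := by
    intro i hi α _ β _
    refine (blk_bound hC hC0 a x κ Q α β i R hR1).trans ?_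
    rw [mul_assoc (C * (1 + Real.log _))]
    refine mul_le_mul ?_ (block_numeric ha0 ha hρa hρε hρ0 hx hR1 hR2 hR3 hi)
      (by positivity) (by positivity)
    apply mul_le_mul_of_nonneg_left _ hC0.le
    have h5 : ((2 * x / 2 ^ i + 1 : ℕ) : ℝ) ≤ 3 * x := by
      have h6 : 2 * x / 2 ^ i + 1 ≤ 3 * x := by
        have := Nat.div_le_self (2 * x) (2 ^ i)
        omega
      exact_mod_cast h6
    have h7 : Real.log ((2 * x / 2 ^ i + 1 : ℕ) : ℝ) ≤ Real.log (3 * x) :=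
      Real.log_le_log (by positivity) h5
    rw [Real.log_mul (by norm_num) (by positivity)] at h7
    have h8 : Real.log 3 ≤ 2 := by
      have := Real.log_le_sub_one_of_pos (show (0 : ℝ) < 3 by norm_num)
      linarith
    linarith
  have h9 : ∑ i ∈ (BP a x).image gk, ∑ α ∈ range Q, ∑ β ∈ range Q, ∑ q ∈ PR R,
        dsum q (fun χ => ‖blk a x κ Q α β i q χ‖) ≤
      ((BP a x).image gk).card * ((Q : ℝ) * ((Q : ℝ) *
        (C * (3 * (1 + Real.log x)) * (8 * R * (x : ℝ) ^ (1 - ρ))))) := by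
    refine (sum_le_sum fun i hi => sum_le_sum fun α hα => sum_le_sum fun β hβ =>
      h4 i hi α hα β hβ).trans (le_of_eq ?_)
    simp only [sum_const, card_range, nsmul_eq_mul]
  refine h9.trans ?_
  have h10 := card_gk x (by omega) (BP a x) (fun k hk => by
    have := (mem_BP.mp hk).1.2
    omega)
  calc ((BP a x).image gk).card * ((Q : ℝ) * ((Q : ℝ) *
        (C * (3 * (1 + Real.log x)) * (8 * R * (x : ℝ) ^ (1 - ρ)))))
      ≤ (2 * (1 + Real.log x)) * ((Q : ℝ) * ((Q : ℝ) *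
        (C * (3 * (1 + Real.log x)) * (8 * R * (x : ℝ) ^ (1 - ρ))))) := by
        apply mul_le_mul_of_nonneg_right h10 (by positivity)
    _ = _ := by ring

/-- the sum over all moduli -/
theorem sum_Q (hB : SpecBIL) : ∃ C : ℝ, 0 < C ∧ ∀ (a ε ρ : ℝ), 0 < a → a ≤ 1 / 4 →
    ρ ≤ a / 8 → ρ ≤ ε → 0 < ρ → ∀ (x : ℕ), 4 ≤ x → 2 < (x : ℝ) ^ (a / 8) →
    ∀ (κ : ℕ → Prop) (Q : ℕ), 0 < Q →
    (∀ m m' : ℕ, m % Q = m' % Q → (κ m ↔ κ m')) → ∀ Qs : Finset ℕ,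
    (∀ q ∈ Qs, q.Prime ∧ (x : ℝ) ^ (a / 8) ≤ q ∧ (q : ℝ) ≤ (x : ℝ) ^ (1 / 2 - ε)) →
    ∑ q ∈ Qs, Real.log q / ((q : ℝ) - 1) *
      dsum q (fun χ => ‖∑ w ∈ WP a x κ, χ (w.1 : ZMod q) * χ (w.2 : ZMod q)‖) ≤
      C * (1 + Real.log x) ^ 4 * (Q : ℝ) ^ 2 * (x : ℝ) ^ (1 - ρ) := by
  obtain ⟨C, hC0, hC⟩ := hB
  refine ⟨96 * C, by positivity, ?_⟩
  intro a ε ρ ha0 ha hρa hρε hρ0 x hx hx2 κ Q hQ hκ Qs hQs
  have hx4 : (4 : ℝ) ≤ x := by exact_mod_cast hx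
  have hx1 : (1 : ℝ) ≤ x := by linarith
  have hx0 : (0 : ℝ) < x := by linarith
  have hlogx : 0 ≤ Real.log x := Real.log_nonneg hx1
  set B : ℕ → ℝ := fun q =>
    dsum q (fun χ => ‖∑ w ∈ WP a x κ, χ (w.1 : ZMod q) * χ (w.2 : ZMod q)‖) with hBdef
  have hB0 : ∀ q, 0 ≤ B q := fun q => dsum_nonneg _ _ fun _ => norm_nonneg _
  have hε : 0 < ε := lt_of_lt_of_le hρ0 hρε
  have hqx : ∀ q ∈ Qs, (q : ℝ) ≤ x := by
    intro q hq
    refine (hQs q hq).2.2.trans ?_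
    calc (x : ℝ) ^ (1 / 2 - ε) ≤ (x : ℝ) ^ (1 : ℝ) :=
          Real.rpow_le_rpow_of_exponent_le hx1 (by linarith)
      _ = x := Real.rpow_one _
  rw [← sum_fiberwise_of_maps_to (t := Qs.image gk) (g := gk) (fun k hk => mem_image_of_mem _ hk)]
  have h1 : ∀ j ∈ Qs.image gk, ∑ q ∈ Qs with gk q = j, Real.log q / ((q : ℝ) - 1) * B q ≤
      (1 + Real.log x) * (48 * C * (1 + Real.log x) ^ 2 * (Q : ℝ) ^ 2 * (x : ℝ) ^ (1 - ρ)) := by
    intro j hj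
    rw [mem_image] at hj
    obtain ⟨q0, hq0, hq0j⟩ := hj
    have hq02 := (hQs q0 hq0).1.two_le
    have hq0k := (gk_iff hq02).mp hq0j
    set R : ℕ := 2 ^ j with hR
    have hR1 : 1 ≤ R := Nat.one_le_pow _ _ (by norm_num)
    have hR0 : (0 : ℝ) < R := by exact_mod_cast hR1
    have hR2 : (x : ℝ) ^ (a / 8) ≤ 2 * R := by
      refine (hQs q0 hq0).2.1.trans ?_
      exact_mod_cast hq0k.2
    have hR3 : (R : ℝ) ≤ (x : ℝ) ^ (1 / 2 - ε) := by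
      refine le_trans ?_ (hQs q0 hq0).2.2
      exact_mod_cast hq0k.1.le
    have h2 := sum_PR hC0 hC ha0 ha hρa hρε hρ0 hx κ Q hQ hκ hR1 hR2 hR3
    have h3 : ∀ q ∈ Qs.filter (fun q => gk q = j), Real.log q / ((q : ℝ) - 1) * B q ≤
        (1 + Real.log x) / R * B q := by
      intro q hq
      rw [mem_filter] at hq
      have hq2 := (hQs q hq.1).1.two_le
      have hqk := (gk_iff hq2).mp hq.2
      apply mul_le_mul_of_nonneg_right _ (hB0 q)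
      have h4 : (R : ℝ) ≤ (q : ℝ) - 1 := by
        have : R + 1 ≤ q := hqk.1
        have : ((R + 1 : ℕ) : ℝ) ≤ q := by exact_mod_cast this
        push_cast at this
        linarith
      have h5 : Real.log q ≤ 1 + Real.log x := by
        have : Real.log q ≤ Real.log x :=
          Real.log_le_log (by positivity) (hqx q hq.1)
        linarith
      have h6 : 0 ≤ Real.log q := Real.log_nonneg (by exact_mod_cast (by omega : 1 ≤ q))
      exact div_le_div₀ (by linarith) h5 hR0 h4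
    have h4 : (Qs.filter (fun q => gk q = j)) ⊆ PR R := by
      intro q hq
      rw [mem_filter] at hq
      have hq2 := (hQs q hq.1).1.two_le
      have hqk := (gk_iff hq2).mp hq.2
      unfold PR
      rw [mem_filter, mem_Ioc]
      exact ⟨hqk, (hQs q hq.1).1⟩
    calc ∑ q ∈ Qs with gk q = j, Real.log q / ((q : ℝ) - 1) * B q
        ≤ ∑ q ∈ Qs with gk q = j, (1 + Real.log x) / R * B q := sum_le_sum h3
      _ ≤ ∑ q ∈ PR R, (1 + Real.log x) / R * B q := by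
          apply sum_le_sum_of_subset_of_nonneg h4
          intro q _ _
          exact mul_nonneg (by positivity) (hB0 q)
      _ = (1 + Real.log x) / R * ∑ q ∈ PR R, B q := by rw [mul_sum]
      _ ≤ (1 + Real.log x) / R *
          (48 * C * (1 + Real.log x) ^ 2 * (Q : ℝ) ^ 2 * (R * (x : ℝ) ^ (1 - ρ))) :=
          mul_le_mul_of_nonneg_left h2 (by positivity)
      _ = _ := by
          field_simp
  refine (sum_le_sum h1).trans ?_
  rw [sum_const, nsmul_eq_mul]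
  have h5 := card_gk x (by omega) Qs (fun k hk => by
    have : (k : ℝ) ≤ x := hqx k hk
    have : k ≤ x := by exact_mod_cast this
    omega)
  calc ((Qs.image gk).card : ℝ) *
      ((1 + Real.log x) * (48 * C * (1 + Real.log x) ^ 2 * (Q : ℝ) ^ 2 * (x : ℝ) ^ (1 - ρ)))
      ≤ (2 * (1 + Real.log x)) *
      ((1 + Real.log x) * (48 * C * (1 + Real.log x) ^ 2 * (Q : ℝ) ^ 2 * (x : ℝ) ^ (1 - ρ))) :=
        mul_le_mul_of_nonneg_right h5 (by positivity)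
    _ = _ := by ring

end

end A2M

end Pool.Agent.Lib.MP3efbeb.T
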