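import Pool.Agent.Lib.MP_3efbeb_nt.T.A2c
import Pool.Agent.Lib.MP_3efbeb_nt.Odd.RT
import Pool.Agent.Lib.MP_3efbeb_nt.Odd.NU

/-!
# MP_3efbeb_nt, line T: module A2, part d (the error term of one `δ`)
-/

set_option autoImplicit false

namespace Pool.Agent.Lib.MP3efbeb.T

open Finset
open scoped Classical
open Pool.Agent.Lib.MP_d1f1b5_nt.TB (PR dsum dsum_eq SpecBIL)

namespace A2M

noncomputable section

/-- the three forms -/
def F3 (s t : ℕ) : Finset (ℕ × ℕ) := {(1, 0), (1, s), (1, t)}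

theorem vF_F3 {s t : ℕ} (hs : 0 < s) (hst : s < t) (r : ℕ) : Odd.vF (F3 s t) r = Pi3 s t r := by
  unfold Odd.vF F3 Pi3
  rw [prod_insert, prod_insert, prod_singleton]
  · simp only
    ring
  · rw [mem_singleton, Prod.mk.injEq]
    omega
  · rw [mem_insert, mem_singleton, Prod.mk.injEq, Prod.mk.injEq]
    omega

theorem nu_eq {s t : ℕ} (hs : 0 < s) (hst : s < t) (n : ℕ) :
    Odd.nu (F3 s t) n = ((range n).filter (fun r => n ∣ Pi3 s t r)).card := by
  unfold Odd.nu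
  congr 1
  refine filter_congr fun r _ => ?_
  rw [vF_F3 hs hst]

theorem nu_le3 {s t : ℕ} (hs : 0 < s) (hst : s < t) {p : ℕ} (hp : p.Prime) : nu s t p ≤ 3 := by
  have h := Odd.specNU (F3 s t) p hp (fun f hf => by
    unfold F3 at hf
    rw [mem_insert, mem_insert, mem_singleton] at hf
    rcases hf with rfl | rfl | rfl <;> exact fun h => hp.one_lt.ne' (Nat.dvd_one.mp h))
  rw [nu_eq hs hst] at h
  exact h.trans card_le_three

theorem gg_nonneg (s t p : ℕ) : 0 ≤ gg s t p := by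
  unfold gg
  split_ifs
  · exact le_rfl
  · positivity

theorem gg_le {s t : ℕ} (hs : 0 < s) (hst : s < t) {p : ℕ} (hp : p.Prime) :
    gg s t p ≤ (3 : ℕ) / (p : ℝ) ∧ gg s t p ≤ 1 / 2 := by
  have hp0 : (0 : ℝ) < p := by exact_mod_cast hp.pos
  unfold gg
  split_ifs with h
  · exact ⟨by positivity, by norm_num⟩
  · have h1 : (nu s t p : ℝ) ≤ 3 := by exact_mod_cast nu_le3 hs hst hp
    constructor
    · push_cast
      exact div_le_div_of_nonneg_right h1 hp0.le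
    · rw [div_le_iff₀ hp0]
      have h2 : (6 : ℝ) ≤ p := by exact_mod_cast (by omega : 6 ≤ p)
      linarith

/-- the roots modulo `δ` -/
theorem prod_gg {s t : ℕ} (hs : 0 < s) (hst : s < t) {δ : ℕ} (hsq : Squarefree δ)
    (hδ : Nat.Coprime δ 30) :
    ∏ p ∈ δ.primeFactors, gg s t p =
      (((range δ).filter (fun r => δ ∣ Pi3 s t r)).card : ℝ) / δ := by
  have h1 : ((range δ).filter (fun r => δ ∣ Pi3 s t r)).card = ∏ p ∈ δ.primeFactors, nu s t p := by
    rw [← nu_eq hs hst]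
    conv_lhs => rw [← Nat.prod_primeFactors_of_squarefree hsq]
    rw [Odd.RTM.nu_prod _ _ (fun p hp => Nat.prime_of_mem_primeFactors hp)]
    refine prod_congr rfl fun p _ => ?_
    rw [nu_eq hs hst]
    rfl
  have h2 : (δ : ℝ) = ∏ p ∈ δ.primeFactors, (p : ℝ) := by
    rw [← Nat.cast_prod, Nat.prod_primeFactors_of_squarefree hsq]
  rw [h1, h2]
  push_cast
  rw [← prod_div_distrib]
  refine prod_congr rfl fun p hp => ?_
  unfold gg
  rw [if_neg]
  intro h5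
  have hpp := Nat.prime_of_mem_primeFactors hp
  have hpd := Nat.dvd_of_mem_primeFactors hp
  have h30 : p ∣ 30 := by
    have : p = 2 ∨ p = 3 ∨ p = 5 := by
      have h2 := hpp.two_le
      interval_cases p
      · exact Or.inl rfl
      · exact Or.inr (Or.inl rfl)
      · exact absurd hpp (by norm_num)
      · exact Or.inr (Or.inr rfl)
    rcases this with rfl | rfl | rfl <;> norm_num
  exact hpp.one_lt.ne' (Nat.eq_one_of_dvd_coprimes hδ hpd h30)

theorem pi3_mod {s t m m' δ : ℕ} (h : m % δ = m' % δ) : δ ∣ Pi3 s t m ↔ δ ∣ Pi3 s t m' := by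
  have h1 : (m : ZMod δ) = m' := (ZMod.natCast_eq_natCast_iff' m m' δ).mpr h
  unfold Pi3
  rw [← ZMod.natCast_eq_zero_iff, ← ZMod.natCast_eq_zero_iff]
  push_cast
  rw [h1]

/-- the condition of `δ` -/
def kd (s t b δ : ℕ) (m : ℕ) : Prop := m % 30 = b ∧ δ ∣ Pi3 s t m

theorem kd_mod (s t b δ : ℕ) (m m' : ℕ) (h : m % (30 * δ) = m' % (30 * δ)) :
    kd s t b δ m ↔ kd s t b δ m' := by
  have h1 : m % 30 = m' % 30 := by
    rw [← Nat.mod_mul_right_mod m 30 δ, h, Nat.mod_mul_right_mod]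
  have h2 : m % δ = m' % δ := by
    rw [← Nat.mod_mul_left_mod m 30 δ, h, Nat.mod_mul_left_mod]
  unfold kd
  rw [h1, pi3_mod h2]

/-- one `q`, one `δ` coprime to `30` -/
theorem one_q {s t b : ℕ} {a : ℝ} (ha : a ≤ 1 / 4) {x : ℕ} (hx : 4 ≤ x) (δ u q : ℕ)
    (hq : q.Prime) (hu : ¬ q ∣ u) {V E : ℝ}
    (hE : |((WP a x (kd s t b δ)).card : ℝ) - V| ≤ E) :
    |((((MM b a x).filter (fun m => q ∣ m + u)).filter (fun m => δ ∣ Pi3 s t m)).card : ℝ) -
      V / q| ≤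
      dsum q (fun χ => ‖∑ w ∈ WP a x (kd s t b δ), χ (w.1 : ZMod q) * χ (w.2 : ZMod q)‖) /
        ((q : ℝ) - 1) + 8 * x / (q : ℝ) ^ 2 + E / q := by
  have hcnt : (((MM b a x).filter (fun m => q ∣ m + u)).filter (fun m => δ ∣ Pi3 s t m)).card =
      ((WP a x (kd s t b δ)).filter (fun w => q ∣ w.1 * w.2 + u)).card := by
    rw [filter_filter, card_MM ha hx]
    congr 1
    ext w
    rw [mem_filter, mem_WP, mem_WP]
    unfold kd
    tauto
  rw [hcnt]
  have horth := orth q hq u hu (WP a x (kd s t b δ))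
  set B := dsum q (fun χ => ‖∑ w ∈ WP a x (kd s t b δ), χ (w.1 : ZMod q) * χ (w.2 : ZMod q)‖)
    with hB
  set cnt : ℝ := (((WP a x (kd s t b δ)).filter (fun w => q ∣ w.1 * w.2 + u)).card : ℝ) with hc
  set N1 : ℝ := ((WP a x (kd s t b δ)).card : ℝ) with hN1
  set N0' : ℝ := (((WP a x (kd s t b δ)).filter (fun w => ¬ q ∣ w.1 * w.2)).card : ℝ) with hN0
  set e : ℝ := (((WP a x (kd s t b δ)).filter (fun w => q ∣ w.1 * w.2)).card : ℝ) with he
  have hsum : e + N0' = N1 := by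
    rw [he, hN0, hN1]
    exact_mod_cast card_filter_add_card_filter_not (s := WP a x (kd s t b δ))
      (fun w => q ∣ w.1 * w.2)
  have he1 : e ≤ 2 * x / q := card_dvd ha hx _ q hq.pos
  have hN1' : N1 ≤ 2 * x := card_WP_le ha hx _
  have he0 : 0 ≤ e := Nat.cast_nonneg _
  have hN10 : 0 ≤ N1 := Nat.cast_nonneg _
  have hq2 : (2 : ℝ) ≤ q := by exact_mod_cast hq.two_le
  have hq0 : (0 : ℝ) < q := by linarith
  have hq1 : (0 : ℝ) < (q : ℝ) - 1 := by linarith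
  have hx0 : (0 : ℝ) ≤ x := Nat.cast_nonneg _
  have h1 : |cnt - N0' / ((q : ℝ) - 1)| ≤ B / ((q : ℝ) - 1) := by
    have : cnt - N0' / ((q : ℝ) - 1) = (cnt * ((q : ℝ) - 1) - N0') / ((q : ℝ) - 1) := by
      field_simp
    rw [this, abs_div, abs_of_pos hq1]
    exact div_le_div_of_nonneg_right horth hq1.le
  have h2 : |N0' / ((q : ℝ) - 1) - N1 / q| ≤ 8 * x / (q : ℝ) ^ 2 := by
    have e1 : N0' / ((q : ℝ) - 1) - N1 / q = N1 / (q * ((q : ℝ) - 1)) - e / ((q : ℝ) - 1) := by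
      have : N0' = N1 - e := by linarith
      rw [this]
      field_simp
      ring
    rw [e1]
    have e2 : |N1 / (q * ((q : ℝ) - 1)) - e / ((q : ℝ) - 1)| ≤
        N1 / (q * ((q : ℝ) - 1)) + e / ((q : ℝ) - 1) := by
      have a1 : 0 ≤ N1 / (q * ((q : ℝ) - 1)) := by positivity
      have a2 : 0 ≤ e / ((q : ℝ) - 1) := by positivity
      rw [abs_le]
      constructor <;> linarith
    refine e2.trans ?_
    have e3 : N1 / (q * ((q : ℝ) - 1)) ≤ 4 * x / (q : ℝ) ^ 2 := by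
      rw [div_le_div_iff₀ (by positivity) (by positivity)]
      have : (q : ℝ) ^ 2 ≤ 2 * (q * ((q : ℝ) - 1)) := by nlinarith
      calc N1 * (q : ℝ) ^ 2 ≤ 2 * x * (2 * (q * ((q : ℝ) - 1))) :=
            mul_le_mul hN1' this (by positivity) (by positivity)
        _ = _ := by ring
    have e4 : e / ((q : ℝ) - 1) ≤ 4 * x / (q : ℝ) ^ 2 := by
      have : e / ((q : ℝ) - 1) ≤ (2 * x / q) / ((q : ℝ) - 1) :=
        div_le_div_of_nonneg_right he1 hq1.le
      refine this.trans ?_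
      rw [div_div, div_le_div_iff₀ (by positivity) (by positivity)]
      have : (q : ℝ) ^ 2 ≤ 2 * (q * ((q : ℝ) - 1)) := by nlinarith
      calc 2 * (x : ℝ) * (q : ℝ) ^ 2 ≤ 2 * x * (2 * (q * ((q : ℝ) - 1))) :=
            mul_le_mul_of_nonneg_left this (by positivity)
        _ = _ := by ring
    calc _ ≤ 4 * x / (q : ℝ) ^ 2 + 4 * x / (q : ℝ) ^ 2 := add_le_add e3 e4
      _ = _ := by ring
  have h3 : |N1 / q - V / q| ≤ E / q := by
    rw [← sub_div, abs_div, abs_of_pos hq0]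
    exact div_le_div_of_nonneg_right hE hq0.le
  calc |cnt - V / q| = |(cnt - N0' / ((q : ℝ) - 1)) + (N0' / ((q : ℝ) - 1) - N1 / q) +
        (N1 / q - V / q)| := by congr 1; ring
    _ ≤ |cnt - N0' / ((q : ℝ) - 1)| + |N0' / ((q : ℝ) - 1) - N1 / q| + |N1 / q - V / q| :=
        (abs_add_le _ _).trans (add_le_add (abs_add_le _ _) le_rfl)
    _ ≤ _ := add_le_add (add_le_add h1 h2) h3

/-- `∑ 1/q` -/
theorem sum_inv_le (x : ℕ) (Qs : Finset ℕ) (hQ : ∀ q ∈ Qs, 1 ≤ q ∧ q ≤ x) :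
    ∑ q ∈ Qs, 1 / (q : ℝ) ≤ 1 + Real.log x := by
  have h1 : ∑ q ∈ Qs, 1 / (q : ℝ) ≤ ∑ q ∈ Icc 1 x, 1 / (q : ℝ) :=
    sum_le_sum_of_subset_of_nonneg (fun q hq => mem_Icc.mpr (hQ q hq))
      (fun _ _ _ => by positivity)
  refine h1.trans ?_
  have h2 := harmonic_le_one_add_log x
  have h3 : ((harmonic x : ℚ) : ℝ) = ∑ q ∈ Icc 1 x, 1 / (q : ℝ) := by
    rw [harmonic_eq_sum_Icc]
    push_cast
    refine sum_congr rfl fun q _ => ?_
    rw [one_div]
  rw [← h3]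
  exact h2

/-- one `δ`, all `q` -/
theorem one_delta {C : ℝ} (hC0 : 0 < C)
    (hSum : ∀ (a ε ρ : ℝ), 0 < a → a ≤ 1 / 4 →
      ρ ≤ a / 8 → ρ ≤ ε → 0 < ρ → ∀ (x : ℕ), 4 ≤ x → 2 < (x : ℝ) ^ (a / 8) →
      ∀ (κ : ℕ → Prop) (Q : ℕ), 0 < Q →
      (∀ m m' : ℕ, m % Q = m' % Q → (κ m ↔ κ m')) → ∀ Qs : Finset ℕ,
      (∀ q ∈ Qs, q.Prime ∧ (x : ℝ) ^ (a / 8) ≤ q ∧ (q : ℝ) ≤ (x : ℝ) ^ (1 / 2 - ε)) →
      ∑ q ∈ Qs, Real.log q / ((q : ℝ) - 1) *
        dsum q (fun χ => ‖∑ w ∈ WP a x κ, χ (w.1 : ZMod q) * χ (w.2 : ZMod q)‖) ≤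
        C * (1 + Real.log x) ^ 4 * (Q : ℝ) ^ 2 * (x : ℝ) ^ (1 - ρ))
    {s t b : ℕ} (hadm : Adm s t b) {a ε ρ : ℝ} (ha0 : 0 < a) (ha : a ≤ 1 / 4)
    (hρa : ρ ≤ a / 8) (hρε : ρ ≤ ε) (hρ0 : 0 < ρ) {x : ℕ} (hx : 4 ≤ x)
    (hx2 : 2 < (x : ℝ) ^ (a / 8)) (hxt : (t : ℝ) < (x : ℝ) ^ (a / 8))
    (hCL : ∀ M : ℕ, 1 ≤ M → Nat.Coprime M 30 → (M : ℝ) ≤ (x : ℝ) ^ (3 / 4 : ℝ) →
      ∀ R : Finset ℕ, R ⊆ range M →
      |(((MM b a x).filter (fun m => m % M ∈ R)).card : ℝ) -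
        (x : ℝ) / 30 * sg a x * ((R.card : ℝ) / M)| ≤ 2 * R.card * (x : ℝ) ^ (1 - a / 2))
    {u : ℕ} (hu : u ∈ ({s, t} : Finset ℕ)) {Qs : Finset ℕ}
    (hQs : ∀ q ∈ Qs, q.Prime ∧ (x : ℝ) ^ (a / 8) ≤ q ∧ (q : ℝ) ≤ (x : ℝ) ^ (1 / 2 - ε))
    {D : ℝ} (hD1 : 1 ≤ D) (hD : D ≤ (x : ℝ) ^ (ρ / 8)) {δ : ℕ} (hδ1 : 1 ≤ δ) (hδD : (δ : ℝ) ≤ D)
    (hsq : Squarefree δ) :
    ∑ q ∈ Qs, Real.log q *
      |((((MM b a x).filter (fun m => q ∣ m + u)).filter (fun m => δ ∣ Pi3 s t m)).card : ℝ) -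
        (x : ℝ) / 30 * sg a x / q * ∏ p ∈ δ.primeFactors, gg s t p| ≤
      (900 * C + 10) * (1 + Real.log x) ^ 4 * D ^ 2 * (x : ℝ) ^ (1 - ρ) := by
  obtain ⟨hs, hst, hb, hcop⟩ := hadm
  have hx4 : (4 : ℝ) ≤ x := by exact_mod_cast hx
  have hx1 : (1 : ℝ) ≤ x := by linarith
  have hx0 : (0 : ℝ) < x := by linarith
  have hlogx : 0 ≤ Real.log x := Real.log_nonneg hx1
  have hqx : ∀ q ∈ Qs, 1 ≤ q ∧ q ≤ x := by
    intro q hq
    refine ⟨(hQs q hq).1.one_lt.le, ?_⟩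
    have h1 : (q : ℝ) ≤ x := by
      refine (hQs q hq).2.2.trans ?_
      calc (x : ℝ) ^ (1 / 2 - ε) ≤ (x : ℝ) ^ (1 : ℝ) :=
            Real.rpow_le_rpow_of_exponent_le hx1 (by linarith)
        _ = x := Real.rpow_one _
    exact_mod_cast h1
  by_cases hδ : Nat.Coprime δ 30
  · -- the main case
    set R := (range δ).filter (fun r => δ ∣ Pi3 s t r) with hR
    have hRc : (R.card : ℝ) ≤ D := by
      have : R.card ≤ δ := by
        have := card_filter_le (range δ) (fun r => δ ∣ Pi3 s t r)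
        rwa [card_range] at this
      exact (by exact_mod_cast this : (R.card : ℝ) ≤ δ).trans hδD
    have hδx : (δ : ℝ) ≤ (x : ℝ) ^ (3 / 4 : ℝ) := by
      refine (hδD.trans hD).trans (Real.rpow_le_rpow_of_exponent_le hx1 ?_)
      linarith
    set V : ℝ := (x : ℝ) / 30 * sg a x * ((R.card : ℝ) / δ) with hV
    have hcl := hCL δ hδ1 hδ hδx R (filter_subset _ _)
    have hMW : ((MM b a x).filter (fun m => m % δ ∈ R)).card = (WP a x (kd s t b δ)).card := by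
      rw [card_MM ha hx]
      congr 1
      ext w
      rw [mem_WP, mem_WP]
      unfold kd
      have h1 : ∀ m : ℕ, m % δ ∈ R ↔ δ ∣ Pi3 s t m := by
        intro m
        rw [hR, mem_filter, mem_range]
        constructor
        · rintro ⟨-, h⟩
          exact (pi3_mod (Nat.mod_mod m δ)).mp h
        · intro h
          exact ⟨Nat.mod_lt _ hδ1, (pi3_mod (Nat.mod_mod m δ)).mpr h⟩
      rw [h1]
    rw [hMW] at hcl
    have hE : |((WP a x (kd s t b δ)).card : ℝ) - V| ≤ 2 * D * (x : ℝ) ^ (1 - a / 2) := by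
      refine hcl.trans ?_
      apply mul_le_mul_of_nonneg_right _ (Real.rpow_nonneg hx0.le _)
      linarith
    have hmain : ∀ q ∈ Qs, Real.log q *
      |((((MM b a x).filter (fun m => q ∣ m + u)).filter (fun m => δ ∣ Pi3 s t m)).card : ℝ) -
        (x : ℝ) / 30 * sg a x / q * ∏ p ∈ δ.primeFactors, gg s t p| ≤
        Real.log q / ((q : ℝ) - 1) *
        dsum q (fun χ => ‖∑ w ∈ WP a x (kd s t b δ), χ (w.1 : ZMod q) * χ (w.2 : ZMod q)‖) +
        (8 * (x : ℝ) ^ (1 - ρ) * (1 + Real.log x) + 2 * (x : ℝ) ^ (1 - ρ) * (1 + Real.log x)) *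
          (1 / (q : ℝ)) := by
      intro q hq
      have hqp := (hQs q hq).1
      have hq1 := (hqx q hq).1
      have hq0 : (0 : ℝ) < q := by exact_mod_cast hqp.pos
      have hqu : ¬ q ∣ u := by
        intro hd
        have hu0 : 0 < u ∧ u ≤ t := by
          rw [mem_insert, mem_singleton] at hu
          rcases hu with rfl | rfl
          · exact ⟨hs, hst.le⟩
          · exact ⟨hs.trans hst, le_rfl⟩
        have h1 := Nat.le_of_dvd hu0.1 hd
        have h2 : (q : ℝ) ≤ t := by exact_mod_cast h1.trans hu0.2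
        have h3 := (hQs q hq).2.1
        linarith
      have h1 := one_q (s := s) (t := t) (b := b) ha hx δ u q hqp hqu hE
      have h2 : (x : ℝ) / 30 * sg a x / q * ∏ p ∈ δ.primeFactors, gg s t p = V / q := by
        rw [prod_gg hs hst hsq hδ, hV]
        ring
      rw [h2]
      have hlq0 : 0 ≤ Real.log q := Real.log_nonneg (by exact_mod_cast hq1)
      have hlq : Real.log q ≤ 1 + Real.log x := by
        have : Real.log q ≤ Real.log x :=
          Real.log_le_log hq0 (by exact_mod_cast (hqx q hq).2)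
        linarith
      have h3 := mul_le_mul_of_nonneg_left h1 hlq0
      refine h3.trans ?_
      rw [mul_add, mul_add]
      have e1 : Real.log q * (dsum q (fun χ => ‖∑ w ∈ WP a x (kd s t b δ),
          χ (w.1 : ZMod q) * χ (w.2 : ZMod q)‖) / ((q : ℝ) - 1)) = Real.log q / ((q : ℝ) - 1) *
          dsum q (fun χ => ‖∑ w ∈ WP a x (kd s t b δ),
            χ (w.1 : ZMod q) * χ (w.2 : ZMod q)‖) := by ring
      rw [e1]
      have e2 : Real.log q * (8 * x / (q : ℝ) ^ 2) ≤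
          8 * (x : ℝ) ^ (1 - ρ) * (1 + Real.log x) * (1 / (q : ℝ)) := by
        have g1 : (x : ℝ) ≤ (x : ℝ) ^ (1 - ρ) * q := by
          calc (x : ℝ) = (x : ℝ) ^ (1 - ρ) * (x : ℝ) ^ ρ := by
                rw [← Real.rpow_add hx0]
                norm_num
            _ ≤ (x : ℝ) ^ (1 - ρ) * q := by
                apply mul_le_mul_of_nonneg_left _ (Real.rpow_nonneg hx0.le _)
                exact (Real.rpow_le_rpow_of_exponent_le hx1 hρa).trans (hQs q hq).2.1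
        have g2 : 8 * x / (q : ℝ) ^ 2 ≤ 8 * (x : ℝ) ^ (1 - ρ) / q := by
          rw [div_le_div_iff₀ (by positivity) hq0]
          nlinarith
        calc Real.log q * (8 * x / (q : ℝ) ^ 2) ≤ (1 + Real.log x) * (8 * (x : ℝ) ^ (1 - ρ) / q) :=
              mul_le_mul hlq g2 (by positivity) (by linarith)
          _ = _ := by ring
      have e3 : Real.log q * (2 * D * (x : ℝ) ^ (1 - a / 2) / q) ≤
          2 * (x : ℝ) ^ (1 - ρ) * (1 + Real.log x) * (1 / (q : ℝ)) := by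
        have g1 : D * (x : ℝ) ^ (1 - a / 2) ≤ (x : ℝ) ^ (1 - ρ) := by
          calc D * (x : ℝ) ^ (1 - a / 2) ≤ (x : ℝ) ^ (ρ / 8) * (x : ℝ) ^ (1 - a / 2) :=
                mul_le_mul_of_nonneg_right hD (Real.rpow_nonneg hx0.le _)
            _ = (x : ℝ) ^ (ρ / 8 + (1 - a / 2)) := by rw [← Real.rpow_add hx0]
            _ ≤ _ := Real.rpow_le_rpow_of_exponent_le hx1 (by linarith)
        calc Real.log q * (2 * D * (x : ℝ) ^ (1 - a / 2) / q) =
              Real.log q * (2 * (D * (x : ℝ) ^ (1 - a / 2)) / q) := by ring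
          _ ≤ (1 + Real.log x) * (2 * (x : ℝ) ^ (1 - ρ) / q) := by
              apply mul_le_mul hlq _ (by positivity) (by linarith)
              exact div_le_div_of_nonneg_right (by linarith) hq0.le
          _ = _ := by ring
      linarith
    refine (sum_le_sum hmain).trans ?_
    rw [sum_add_distrib, ← mul_sum]
    have h1 := hSum a ε ρ ha0 ha hρa hρε hρ0 x hx hx2 (kd s t b δ) (30 * δ) (by omega)
      (kd_mod s t b δ) Qs hQs
    have h2 := sum_inv_le x Qs hqx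
    have hδ2 : (((30 * δ : ℕ) : ℝ)) ^ 2 ≤ 900 * D ^ 2 := by
      push_cast
      have h3 : (δ : ℝ) ^ 2 ≤ D ^ 2 := pow_le_pow_left₀ (Nat.cast_nonneg _) hδD 2
      nlinarith
    have hP0 : 0 ≤ (x : ℝ) ^ (1 - ρ) := Real.rpow_nonneg hx0.le _
    have h4 : C * (1 + Real.log x) ^ 4 * (((30 * δ : ℕ) : ℝ)) ^ 2 * (x : ℝ) ^ (1 - ρ) ≤
        C * (1 + Real.log x) ^ 4 * (900 * D ^ 2) * (x : ℝ) ^ (1 - ρ) :=
      mul_le_mul_of_nonneg_right (mul_le_mul_of_nonneg_left hδ2 (by positivity)) hP0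
    have h5 : (8 * (x : ℝ) ^ (1 - ρ) * (1 + Real.log x) +
        2 * (x : ℝ) ^ (1 - ρ) * (1 + Real.log x)) * ∑ q ∈ Qs, 1 / (q : ℝ) ≤
        (8 * (x : ℝ) ^ (1 - ρ) * (1 + Real.log x) +
        2 * (x : ℝ) ^ (1 - ρ) * (1 + Real.log x)) * (1 + Real.log x) :=
      mul_le_mul_of_nonneg_left h2 (by positivity)
    have h6 : (1 + Real.log x) ^ 2 ≤ (1 + Real.log x) ^ 4 * D ^ 2 := by
      have g1 : (1 : ℝ) ≤ (1 + Real.log x) ^ 2 := one_le_pow₀ (by linarith)
      have g2 : (1 : ℝ) ≤ D ^ 2 := one_le_pow₀ hD1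
      calc (1 + Real.log x) ^ 2 = (1 + Real.log x) ^ 2 * 1 * 1 := by ring
        _ ≤ (1 + Real.log x) ^ 2 * (1 + Real.log x) ^ 2 * D ^ 2 := by
            apply mul_le_mul _ g2 (by norm_num) (by positivity)
            exact mul_le_mul_of_nonneg_left g1 (by positivity)
        _ = _ := by ring
    have h7 : 10 * (x : ℝ) ^ (1 - ρ) * (1 + Real.log x) ^ 2 ≤
        10 * (x : ℝ) ^ (1 - ρ) * ((1 + Real.log x) ^ 4 * D ^ 2) :=
      mul_le_mul_of_nonneg_left h6 (by positivity)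
    calc _ ≤ C * (1 + Real.log x) ^ 4 * (900 * D ^ 2) * (x : ℝ) ^ (1 - ρ) +
          (8 * (x : ℝ) ^ (1 - ρ) * (1 + Real.log x) +
            2 * (x : ℝ) ^ (1 - ρ) * (1 + Real.log x)) * (1 + Real.log x) :=
          add_le_add (h1.trans h4) h5
      _ = C * (1 + Real.log x) ^ 4 * (900 * D ^ 2) * (x : ℝ) ^ (1 - ρ) +
          10 * (x : ℝ) ^ (1 - ρ) * (1 + Real.log x) ^ 2 := by ring
      _ ≤ C * (1 + Real.log x) ^ 4 * (900 * D ^ 2) * (x : ℝ) ^ (1 - ρ) +
          10 * (x : ℝ) ^ (1 - ρ) * ((1 + Real.log x) ^ 4 * D ^ 2) := by linarith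
      _ = _ := by ring
  · -- `δ` has a common factor with `30`: everything is zero
    obtain ⟨p, hp, hpδ, hp30⟩ := Nat.Prime.not_coprime_iff_dvd.mp hδ
    have hp5 : p ≤ 5 := by
      have h1 : p ∣ 2 * 3 * 5 := by
        have : (30 : ℕ) = 2 * 3 * 5 := by norm_num
        rwa [this] at hp30
      rcases (hp.dvd_mul.mp h1) with h2 | h2
      · rcases (hp.dvd_mul.mp h2) with h3 | h3
        · have := Nat.le_of_dvd (by norm_num) h3
          omega
        · have := Nat.le_of_dvd (by norm_num) h3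
          omega
      · exact Nat.le_of_dvd (by norm_num) h2
    have hg : ∏ p ∈ δ.primeFactors, gg s t p = 0 := by
      refine prod_eq_zero (i := p) (Nat.mem_primeFactors.mpr ⟨hp, hpδ, by omega⟩) ?_
      unfold gg
      rw [if_pos hp5]
    have hzero : ∀ q, (((MM b a x).filter (fun m => q ∣ m + u)).filter
        (fun m => δ ∣ Pi3 s t m)).card = 0 := by
      intro q
      rw [card_eq_zero, filter_eq_empty_iff]
      intro m hm hd
      rw [mem_filter] at hm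
      have hm30 : m % 30 = b := by
        have := hm.1
        unfold MM at this
        rw [mem_filter] at this
        exact this.2.1
      have h1 : p ∣ Pi3 s t b := by
        have h2 : m % p = b % p := by
          rw [← hm30]
          exact (Nat.mod_mod_of_dvd m hp30).symm
        exact (pi3_mod h2).mp (hpδ.trans hd)
      exact hp.one_lt.ne' (Nat.eq_one_of_dvd_coprimes hcop h1 hp30)
    have hP0 : 0 ≤ (x : ℝ) ^ (1 - ρ) := Real.rpow_nonneg hx0.le _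
    have h1 : ∑ q ∈ Qs, Real.log q *
      |((((MM b a x).filter (fun m => q ∣ m + u)).filter (fun m => δ ∣ Pi3 s t m)).card : ℝ) -
        (x : ℝ) / 30 * sg a x / q * ∏ p ∈ δ.primeFactors, gg s t p| = 0 := by
      refine sum_eq_zero fun q _ => ?_
      rw [hzero q, hg]
      simp
    rw [h1]
    positivity

end

end A2M

end Pool.Agent.Lib.MP3efbeb.T
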