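import Pool.Agent.Lib.MP_3efbeb_nt.T.GL
import Pool.Agent.Lib.MP_391708_nt.QPA.Spec

/-!
# Module B, part A: counting the prime variable for one cofactor
-/

set_option autoImplicit false

namespace Pool.Agent.Lib.MP3efbeb.T

open Finset
open scoped Classical
open Pool.Agent.Lib.MP391708.QPA (PB rInd Rough Wp)

noncomputable section

namespace BM

/-- a residue class in an interval -/
theorem class_ioc (A B N v : ℕ) (hN : 0 < N) (hAB : A ≤ B) :
    |(((Ioc A B).filter (fun m => m ≡ v [MOD N])).card : ℝ) - ((B : ℝ) - A) / N| ≤ 1 := by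
  have h := Nat.Ioc_filter_modEq_card A B hN v
  have hN' : (0 : ℚ) < N := by exact_mod_cast hN
  have hAB' : (A : ℚ) ≤ B := by exact_mod_cast hAB
  have h2 : ((B : ℚ) - v) / (N : ℚ) = ((A : ℚ) - v) / N + ((B : ℚ) - A) / N := by
    ring
  have hx0 : (0 : ℚ) ≤ ((B : ℚ) - A) / N := div_nonneg (by linarith) hN'.le
  have h1 : (⌊((A : ℚ) - v) / (N : ℚ)⌋ : ℤ) ≤ ⌊((B : ℚ) - v) / (N : ℚ)⌋ := by
    apply Int.floor_le_floor
    rw [h2]; linarith
  rw [max_eq_left (by omega)] at h
  have e : ((((Ioc A B).filter (fun m => m ≡ v [MOD N])).card : ℕ) : ℚ)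
      = (⌊((B : ℚ) - v) / (N : ℚ)⌋ : ℚ) - (⌊((A : ℚ) - v) / (N : ℚ)⌋ : ℚ) := by
    have := congrArg (fun z : ℤ => (z : ℚ)) h
    simpa using this
  have f1 := Int.floor_le (((B : ℚ) - v) / (N : ℚ))
  have f2 := Int.lt_floor_add_one (((B : ℚ) - v) / (N : ℚ))
  have f3 := Int.floor_le (((A : ℚ) - v) / (N : ℚ))
  have f4 := Int.lt_floor_add_one (((A : ℚ) - v) / (N : ℚ))
  have g : |((((Ioc A B).filter (fun m => m ≡ v [MOD N])).card : ℕ) : ℚ) - ((B : ℚ) - A) / N| ≤ 1 := by
    rw [e, abs_le]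
    constructor
    · linarith
    · linarith
  have g2 : (((|((((Ioc A B).filter (fun m => m ≡ v [MOD N])).card : ℕ) : ℚ) - ((B : ℚ) - A) / N|) : ℚ) : ℝ)
      ≤ ((1 : ℚ) : ℝ) := Rat.cast_le.2 g
  push_cast at g2
  exact g2

/-- local conditions at a set of primes and one class -/
theorem crt_count (A B : ℕ) (hAB : A ≤ B) (cond : ℕ → ℕ → Prop)
    (hc : ∀ p r r' : ℕ, r ≡ r' [MOD p] → (cond p r ↔ cond p r')) :
    ∀ T : Finset ℕ, (∀ p ∈ T, p.Prime) → ∀ N₀ r₀ : ℕ, 0 < N₀ → (∀ p ∈ T, Nat.Coprime N₀ p) →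
    |(((Ioc A B).filter (fun P => P ≡ r₀ [MOD N₀] ∧ ∀ p ∈ T, cond p P)).card : ℝ)
      - ((B : ℝ) - A) / N₀ * ∏ p ∈ T, ((((range p).filter (cond p)).card : ℝ) / p)|
      ≤ ∏ p ∈ T, (((range p).filter (cond p)).card : ℝ) := by
  intro T
  induction T using Finset.induction_on with
  | empty =>
    intro _ N₀ r₀ hN _
    simpa using class_ioc A B N₀ r₀ hN hAB
  | insert a T ha ih =>
    intro hT N₀ r₀ hN hcop
    have hap : a.Prime := hT a (mem_insert_self _ _)
    have hT' : ∀ p ∈ T, p.Prime := fun p hp => hT p (mem_insert_of_mem hp)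
    have hNa : Nat.Coprime N₀ a := hcop a (mem_insert_self _ _)
    have hN0 : (0 : ℝ) < N₀ := by exact_mod_cast hN
    have ha0 : (0 : ℝ) < a := by exact_mod_cast hap.pos
    have e1 : ((Ioc A B).filter (fun P => P ≡ r₀ [MOD N₀] ∧ ∀ p ∈ insert a T, cond p P)).card
      = ∑ r ∈ (range a).filter (cond a),
        ((Ioc A B).filter (fun P => P ≡ (Nat.chineseRemainder hNa r₀ r : ℕ) [MOD (N₀ * a)] ∧
          ∀ p ∈ T, cond p P)).card := by
      rw [← card_biUnion]
      · congr 1
        ext P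
        simp only [mem_filter, mem_biUnion, mem_range]
        constructor
        · rintro ⟨h1, h2, h3⟩
          refine ⟨P % a, ⟨Nat.mod_lt _ hap.pos,
            (hc a _ _ (Nat.mod_modEq P a)).2 (h3 a (mem_insert_self _ _))⟩, h1, ?_,
            fun p hp => h3 p (mem_insert_of_mem hp)⟩
          rw [← Nat.modEq_and_modEq_iff_modEq_mul hNa]
          have h4 := (Nat.chineseRemainder hNa r₀ (P % a)).2
          exact ⟨h2.trans h4.1.symm, ((Nat.mod_modEq P a).symm).trans h4.2.symm⟩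
        · rintro ⟨r, ⟨hr1, hr2⟩, h1, h2, h3⟩
          rw [← Nat.modEq_and_modEq_iff_modEq_mul hNa] at h2
          have h4 := (Nat.chineseRemainder hNa r₀ r).2
          refine ⟨h1, h2.1.trans h4.1, ?_⟩
          intro p hp
          rcases mem_insert.1 hp with rfl | hp
          · exact (hc p _ _ (h2.2.trans h4.2)).2 hr2
          · exact h3 p hp
      · intro r hr r' hr' hne
        rw [Function.onFun, Finset.disjoint_left]
        intro P h1 h2
        rw [mem_filter] at h1 h2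
        have hr1 := (mem_filter.1 (mem_coe.1 hr)).1
        have hr1' := (mem_filter.1 (mem_coe.1 hr')).1
        apply hne
        have g1 := ((Nat.modEq_and_modEq_iff_modEq_mul hNa).2 h1.2.1).2.trans
          (Nat.chineseRemainder hNa r₀ r).2.2
        have g2 := ((Nat.modEq_and_modEq_iff_modEq_mul hNa).2 h2.2.1).2.trans
          (Nat.chineseRemainder hNa r₀ r').2.2
        exact Nat.ModEq.eq_of_lt_of_lt (g1.symm.trans g2) (mem_range.1 hr1) (mem_range.1 hr1')
    rw [e1, prod_insert ha, prod_insert ha]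
    push_cast
    have e2 : ((B : ℝ) - A) / N₀ * (((((range a).filter (cond a)).card : ℝ) / a) *
          ∏ p ∈ T, ((((range p).filter (cond p)).card : ℝ) / p))
       = ∑ r ∈ (range a).filter (cond a), ((B : ℝ) - A) / ((N₀ * a : ℕ) : ℝ) *
          ∏ p ∈ T, ((((range p).filter (cond p)).card : ℝ) / p) := by
      rw [sum_const, nsmul_eq_mul]
      push_cast
      field_simp
    rw [e2, ← sum_sub_distrib]
    refine (abs_sum_le_sum_abs _ _).trans ?_
    refine (sum_le_sum (g := fun _ => ∏ p ∈ T, (((range p).filter (cond p)).card : ℝ)) ?_).trans ?_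
    · intro r hr
      refine ih hT' (N₀ * a) _ (Nat.mul_pos hN hap.pos) (fun p hp => ?_)
      refine Nat.Coprime.mul_left (hcop p (mem_insert_of_mem hp)) ?_
      rw [Nat.coprime_primes hap (hT' p hp)]
      rintro rfl
      exact ha hp
    · rw [sum_const, nsmul_eq_mul]

/-- the condition on the prime variable `r` at `p` -/
def cnd (s t c : ℕ) (z : ℝ) (p r : ℕ) : Prop :=
  p ∣ r ∨ ((p : ℝ) < z ∧ p ∣ (c * r + s) * (c * r + t))

theorem cnd_congr (s t c : ℕ) (z : ℝ) (p r r' : ℕ) (h : r ≡ r' [MOD p]) :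
    cnd s t c z p r ↔ cnd s t c z p r' := by
  have h1 : (r : ZMod p) = r' := (ZMod.natCast_eq_natCast_iff _ _ _).2 h
  unfold cnd
  rw [← ZMod.natCast_eq_zero_iff, ← ZMod.natCast_eq_zero_iff, ← ZMod.natCast_eq_zero_iff,
    ← ZMod.natCast_eq_zero_iff]
  push_cast
  rw [h1]

theorem pi3_congr (s t : ℕ) {n m m' : ℕ} (h : m ≡ m' [MOD n]) : n ∣ Pi3 s t m ↔ n ∣ Pi3 s t m' := by
  have h1 : (m : ZMod n) = m' := (ZMod.natCast_eq_natCast_iff _ _ _).2 h
  unfold Pi3
  rw [← ZMod.natCast_eq_zero_iff, ← ZMod.natCast_eq_zero_iff]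
  push_cast
  rw [h1]

theorem cnd_iff (s t c : ℕ) {z : ℝ} {p : ℕ} (hp : p.Prime) (hz : (p : ℝ) < z) (hc : ¬ p ∣ c) (r : ℕ) :
    cnd s t c z p r ↔ p ∣ Pi3 s t (c * r) := by
  unfold cnd Pi3
  rw [hp.dvd_mul (m := c * r * (c * r + s)), hp.dvd_mul (m := c * r), hp.dvd_mul (m := c) (n := r),
    hp.dvd_mul (m := c * r + s)]
  tauto

/-- the number of classes at `p < z` -/
theorem rho_lt (s t c : ℕ) {z : ℝ} {p : ℕ} (hp : p.Prime) (hz : (p : ℝ) < z) (hc : ¬ p ∣ c) :
    ((range p).filter (cnd s t c z p)).card = nu s t p := by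
  have hcop : Nat.Coprime c p := (hp.coprime_iff_not_dvd.2 hc).symm
  obtain ⟨d, _, hd⟩ := Nat.exists_mul_mod_eq_one_of_coprime hcop hp.one_lt
  have hd' : c * d ≡ 1 [MOD p] := by
    unfold Nat.ModEq
    rw [hd, Nat.mod_eq_of_lt hp.one_lt]
  unfold nu
  refine card_bij' (fun r _ => (c * r) % p) (fun y _ => (d * y) % p) ?_ ?_ ?_ ?_
  · intro r hr
    rw [mem_filter, mem_range] at hr ⊢
    refine ⟨Nat.mod_lt _ hp.pos, ?_⟩
    exact (pi3_congr s t (Nat.mod_modEq (c * r) p)).2 ((cnd_iff s t c hp hz hc r).1 hr.2)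
  · intro y hy
    rw [mem_filter, mem_range] at hy ⊢
    refine ⟨Nat.mod_lt _ hp.pos, ?_⟩
    rw [cnd_congr s t c z p _ _ (Nat.mod_modEq (d * y) p), cnd_iff s t c hp hz hc]
    refine (pi3_congr s t ?_).2 hy.2
    calc c * (d * y) = (c * d) * y := by ring
      _ ≡ 1 * y [MOD p] := hd'.mul_right y
      _ = y := one_mul y
  · intro r hr
    rw [mem_filter, mem_range] at hr
    have : (d * ((c * r) % p)) % p = r := by
      have h1 : d * ((c * r) % p) ≡ r [MOD p] := by
        calc d * ((c * r) % p) ≡ d * (c * r) [MOD p] := (Nat.mod_modEq _ _).mul_left d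
          _ = (c * d) * r := by ring
          _ ≡ 1 * r [MOD p] := hd'.mul_right r
          _ = r := one_mul r
      unfold Nat.ModEq at h1
      rw [h1, Nat.mod_eq_of_lt hr.1]
    exact this
  · intro y hy
    rw [mem_filter, mem_range] at hy
    have : (c * ((d * y) % p)) % p = y := by
      have h1 : c * ((d * y) % p) ≡ y [MOD p] := by
        calc c * ((d * y) % p) ≡ c * (d * y) [MOD p] := (Nat.mod_modEq _ _).mul_left c
          _ = (c * d) * y := by ring
          _ ≡ 1 * y [MOD p] := hd'.mul_right y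
          _ = y := one_mul y
      unfold Nat.ModEq at h1
      rw [h1, Nat.mod_eq_of_lt hy.1]
    exact this

/-- the number of classes at `p ≥ z` -/
theorem rho_ge (s t c : ℕ) {z : ℝ} {p : ℕ} (hp : p.Prime) (hz : ¬ (p : ℝ) < z) :
    ((range p).filter (cnd s t c z p)).card = 1 := by
  have : (range p).filter (cnd s t c z p) = {0} := by
    ext r
    rw [mem_filter, mem_range, mem_singleton]
    unfold cnd
    constructor
    · rintro ⟨h1, h2 | h2⟩
      · exact Nat.eq_zero_of_dvd_of_lt h2 h1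
      · exact absurd h2.1 hz
    · rintro rfl
      exact ⟨hp.pos, Or.inl (dvd_zero _)⟩
  rw [this, card_singleton]

/-- the prime variable -/
def SS (b c q u x : ℕ) : Finset ℕ :=
  (Ioc (x / c) ((2 * x) / c)).filter (fun P => (c * P) % 30 = b ∧ q ∣ c * P + u)

/-- the sieved number -/
def vv (s t c : ℕ) (z : ℝ) (P : ℕ) : ℕ :=
  P * ∏ p ∈ (PB z).filter (fun p => p ∣ (c * P + s) * (c * P + t)), p

/-- the density -/
def g1 (s t : ℕ) (z : ℝ) (p : ℕ) : ℝ := if (p : ℝ) < z then gg s t p else 1 / p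

theorem mem_PB {z : ℝ} {p : ℕ} : p ∈ PB z ↔ (p : ℝ) < z ∧ p.Prime := by
  unfold PB
  rw [mem_filter, mem_range, Nat.lt_ceil]

theorem dvd_vv (s t c : ℕ) (z : ℝ) {p : ℕ} (hp : p.Prime) (P : ℕ) :
    p ∣ vv s t c z P ↔ cnd s t c z p P := by
  unfold vv cnd
  rw [hp.dvd_mul]
  apply or_congr Iff.rfl
  rw [Prime.dvd_finsetProd_iff hp.prime]
  constructor
  · rintro ⟨p', hp', hd⟩
    rw [mem_filter, mem_PB] at hp'
    have : p = p' := (Nat.prime_dvd_prime_iff_eq hp hp'.1.2).1 hd
    subst this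
    exact ⟨hp'.1.1, hp'.2⟩
  · rintro ⟨h1, h2⟩
    exact ⟨p, mem_filter.2 ⟨mem_PB.2 ⟨h1, hp⟩, h2⟩, dvd_rfl⟩

theorem sqf_dvd {δ : ℕ} (hδ : Squarefree δ) (n : ℕ) : δ ∣ n ↔ ∀ p ∈ δ.primeFactors, p ∣ n := by
  constructor
  · intro h p hp
    exact (Nat.dvd_of_mem_primeFactors hp).trans h
  · intro h
    rw [← Nat.prod_primeFactors_of_squarefree hδ]
    exact Finset.prod_primes_dvd n (fun p hp => (Nat.prime_of_mem_primeFactors hp).prime) h

/-- the class modulo `30 q` -/
theorem exists_class (b c q u : ℕ) (hb : b < 30) (hq : q.Prime) (hq30 : 30 < q) (hc : Nat.Coprime c (30 * q)) :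
    ∃ r₀ : ℕ, ∀ P : ℕ, ((c * P) % 30 = b ∧ q ∣ c * P + u) ↔ P ≡ r₀ [MOD 30 * q] := by
  have h30 : Nat.Coprime 30 q := by
    apply Nat.Coprime.symm
    rw [Nat.Prime.coprime_iff_not_dvd hq]
    intro h
    exact absurd (Nat.le_of_dvd (by norm_num) h) (by omega)
  obtain ⟨d, _, hd⟩ := Nat.exists_mul_mod_eq_one_of_coprime hc (by omega)
  have hd' : c * d ≡ 1 [MOD 30 * q] := by
    unfold Nat.ModEq
    rw [hd, Nat.mod_eq_of_lt (by omega)]
  obtain ⟨w, hw1, hw2⟩ := Nat.chineseRemainder h30 b (q - u % q)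
  refine ⟨d * w, fun P => ?_⟩
  have hw3 : q ∣ w + u := by
    have h1 : w + u ≡ (q - u % q) + u % q [MOD q] := hw2.add (Nat.mod_modEq u q).symm
    rw [Nat.sub_add_cancel (Nat.mod_lt _ hq.pos).le] at h1
    exact (Nat.modEq_zero_iff_dvd).1 (h1.trans ((Nat.modEq_zero_iff_dvd).2 dvd_rfl))
  have key : (P ≡ d * w [MOD 30 * q]) ↔ (c * P ≡ w [MOD 30 * q]) := by
    constructor
    · intro h
      calc c * P ≡ c * (d * w) [MOD 30 * q] := h.mul_left c
        _ = (c * d) * w := by ring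
        _ ≡ 1 * w [MOD 30 * q] := hd'.mul_right w
        _ = w := one_mul w
    · intro h
      calc P = 1 * P := (one_mul P).symm
        _ ≡ (c * d) * P [MOD 30 * q] := (hd'.mul_right P).symm
        _ = d * (c * P) := by ring
        _ ≡ d * w [MOD 30 * q] := h.mul_left d
  rw [key, ← Nat.modEq_and_modEq_iff_modEq_mul h30]
  apply and_congr
  · constructor
    · intro h
      refine Nat.ModEq.trans ?_ hw1.symm
      unfold Nat.ModEq
      rw [h, Nat.mod_eq_of_lt hb]
    · intro h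
      have h2 := h.trans hw1
      unfold Nat.ModEq at h2
      rw [h2, Nat.mod_eq_of_lt hb]
  · constructor
    · intro h
      have h1 : c * P + u ≡ w + u [MOD q] :=
        ((Nat.modEq_zero_iff_dvd).2 h).trans ((Nat.modEq_zero_iff_dvd).2 hw3).symm
      exact Nat.ModEq.add_right_cancel' _ h1
    · intro h
      exact (Nat.modEq_zero_iff_dvd).1 ((h.add_right u).trans ((Nat.modEq_zero_iff_dvd).2 hw3))

theorem g1_nonneg (s t : ℕ) (z : ℝ) (p : ℕ) : 0 ≤ g1 s t z p := by
  unfold g1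
  split_ifs
  · exact GLM.gg_nonneg s t p
  · positivity

theorem g1_le (s t : ℕ) (z : ℝ) {p : ℕ} (hp : p.Prime) : g1 s t z p ≤ ((3 : ℕ) : ℝ) / p := by
  unfold g1
  split_ifs
  · push_cast
    exact GLM.gg_le s t hp
  · push_cast
    exact div_le_div_of_nonneg_right (by norm_num) (by positivity)

theorem g1_le_half (s t : ℕ) (z : ℝ) {p : ℕ} (hp : p.Prime) : g1 s t z p ≤ 1 / 2 := by
  unfold g1
  split_ifs
  · have := GLM.gg_le_half s t hp
    linarith
  · have h2 : (2 : ℝ) ≤ p := by exact_mod_cast hp.two_le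
    exact div_le_div_of_nonneg_left (by norm_num) (by norm_num) h2

theorem len_bd (x c : ℕ) (hc : 1 ≤ c) :
    |((((2 * x) / c : ℕ) : ℝ) - ((x / c : ℕ) : ℝ)) - (x : ℝ) / c| ≤ 1 := by
  have hc0 : (0 : ℝ) < c := by exact_mod_cast hc
  have a1 : (((2 * x) / c : ℕ) : ℝ) ≤ ((2 * x : ℕ) : ℝ) / c := Nat.cast_div_le
  have a2 : ((x / c : ℕ) : ℝ) ≤ (x : ℝ) / c := Nat.cast_div_le
  have a3 : ((2 * x : ℕ) : ℝ) / c < (((2 * x) / c : ℕ) : ℝ) + 1 := by
    rw [div_lt_iff₀ hc0]
    have := Nat.lt_succ_iff.1 (Nat.lt_succ_of_le (Nat.div_add_mod (2 * x) c).le)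
    have h2 := Nat.div_add_mod (2 * x) c
    have h3 := Nat.mod_lt (2 * x) (by omega : c > 0)
    have h4 : 2 * x < ((2 * x) / c + 1) * c := by
      calc 2 * x = c * ((2 * x) / c) + (2 * x) % c := h2.symm
        _ < c * ((2 * x) / c) + c := by omega
        _ = ((2 * x) / c + 1) * c := by ring
    exact_mod_cast h4
  have a4 : (x : ℝ) / c < ((x / c : ℕ) : ℝ) + 1 := by
    rw [div_lt_iff₀ hc0]
    have h2 := Nat.div_add_mod x c
    have h3 := Nat.mod_lt x (by omega : c > 0)
    have h4 : x < (x / c + 1) * c := by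
      calc x = c * (x / c) + x % c := h2.symm
        _ < c * (x / c) + c := by omega
        _ = (x / c + 1) * c := by ring
    exact_mod_cast h4
  have a5 : ((2 * x : ℕ) : ℝ) / c = (x : ℝ) / c + (x : ℝ) / c := by
    push_cast
    ring
  rw [abs_le]
  constructor <;> linarith

/-- the remainder -/
theorem rem_le (s t b c q u x : ℕ) (z : ℝ) (hA : Adm s t b) (hq : q.Prime) (hq30 : 30 < q) (hz : 5 < z)
    (hc1 : 1 ≤ c) (hc : Nat.Coprime c (30 * q)) (hcz : Rough z c) (δ : ℕ) (hδ : Squarefree δ) (hδq : ¬ q ∣ δ) :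
    |(((SS b c q u x).filter (fun P => δ ∣ vv s t c z P)).card : ℝ)
      - (x : ℝ) / (30 * c * q) * ∏ p ∈ δ.primeFactors, g1 s t z p| ≤ 2 * δ := by
  obtain ⟨hs, hst, hb, hb30⟩ := hA
  have hδ0 : 0 < δ := Nat.pos_of_ne_zero hδ.ne_zero
  have hδ1 : (1 : ℝ) ≤ δ := by exact_mod_cast hδ0
  by_cases h5 : ∃ p : ℕ, p.Prime ∧ p ∣ δ ∧ p ≤ 5
  · obtain ⟨p, hp, hpδ, hp5⟩ := h5
    have hpz : (p : ℝ) < z := by
      have : (p : ℝ) ≤ 5 := by exact_mod_cast hp5
      linarith
    have h1 : ∏ p ∈ δ.primeFactors, g1 s t z p = 0 := by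
      apply prod_eq_zero (i := p) (Nat.mem_primeFactors.2 ⟨hp, hpδ, hδ0.ne'⟩)
      unfold g1 gg
      rw [if_pos hpz, if_pos hp5]
    have h2 : (SS b c q u x).filter (fun P => δ ∣ vv s t c z P) = ∅ := by
      rw [filter_eq_empty_iff]
      intro P hP hd
      unfold SS at hP
      rw [mem_filter] at hP
      have h3 : cnd s t c z p P := (dvd_vv s t c z hp P).1 (hpδ.trans hd)
      have h4 : p ∣ Pi3 s t (c * P) := by
        unfold cnd at h3
        unfold Pi3
        rcases h3 with h3 | h3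
        · exact ((h3.mul_left c).mul_right _).mul_right _
        · rw [mul_assoc]
          exact h3.2.mul_left _
      have hp30 : p ∣ 30 := by
        have h2 := hp.two_le
        have h9 : p = 2 ∨ p = 3 ∨ p = 4 ∨ p = 5 := by omega
        rcases h9 with rfl | rfl | rfl | rfl
        · norm_num
        · norm_num
        · exact absurd hp (by norm_num)
        · norm_num
      have h6 : p ∣ Pi3 s t b := by
        refine (pi3_congr s t (n := p) ?_).1 h4
        have h7 : c * P ≡ b [MOD 30] := by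
          unfold Nat.ModEq
          rw [hP.2.1, Nat.mod_eq_of_lt hb]
        exact h7.of_dvd hp30
      exact absurd (Nat.dvd_gcd h6 hp30) (by rw [hb30]; exact hp.one_lt.ne' ∘ Nat.dvd_one.1)
    rw [h1, h2]
    simp only [card_empty, Nat.cast_zero, mul_zero, sub_zero, abs_zero]
    linarith
  · push Not at h5
    obtain ⟨r₀, hr₀⟩ := exists_class b c q u hb hq hq30 hc
    have hpf : ∀ p ∈ δ.primeFactors, p.Prime ∧ 5 < p ∧ Nat.Coprime (30 * q) p := by
      intro p hp
      have hp1 := Nat.prime_of_mem_primeFactors hp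
      have hp2 := Nat.dvd_of_mem_primeFactors hp
      have hp5 := h5 p hp1 hp2
      refine ⟨hp1, hp5, ?_⟩
      apply Nat.Coprime.symm
      rw [Nat.Prime.coprime_iff_not_dvd hp1]
      intro h
      rcases (hp1.dvd_mul).1 h with h | h
      · have h6 : p ∣ 2 * 3 * 5 := h
        rcases (hp1.dvd_mul).1 h6 with h6 | h6
        · rcases (hp1.dvd_mul).1 h6 with h6 | h6
          · exact absurd (Nat.le_of_dvd (by norm_num) h6) (by omega)
          · exact absurd (Nat.le_of_dvd (by norm_num) h6) (by omega)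
        · exact absurd (Nat.le_of_dvd (by norm_num) h6) (by omega)
      · have : p = q := (Nat.prime_dvd_prime_iff_eq hp1 hq).1 h
        subst this
        exact hδq hp2
    have e1 : (SS b c q u x).filter (fun P => δ ∣ vv s t c z P)
        = (Ioc (x / c) ((2 * x) / c)).filter
          (fun P => P ≡ r₀ [MOD 30 * q] ∧ ∀ p ∈ δ.primeFactors, cnd s t c z p P) := by
      unfold SS
      rw [filter_filter]
      apply filter_congr
      intro P _
      rw [hr₀ P, sqf_dvd hδ]
      apply and_congr Iff.rfl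
      constructor
      · intro h p hp
        exact (dvd_vv s t c z (hpf p hp).1 P).1 (h p hp)
      · intro h p hp
        exact (dvd_vv s t c z (hpf p hp).1 P).2 (h p hp)
    have h30q : 0 < 30 * q := by have := hq.pos; omega
    have h1 := crt_count (x / c) ((2 * x) / c) (Nat.div_le_div_right (by omega)) (cnd s t c z)
      (cnd_congr s t c z) δ.primeFactors (fun p hp => (hpf p hp).1) (30 * q) r₀ h30q
      (fun p hp => (hpf p hp).2.2)
    have h2 : ∀ p ∈ δ.primeFactors, (((range p).filter (cnd s t c z p)).card : ℝ) / p = g1 s t z p := by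
      intro p hp
      obtain ⟨hp1, hp5, _⟩ := hpf p hp
      unfold g1
      split_ifs with hpz
      · rw [rho_lt s t c hp1 hpz]
        · unfold gg
          rw [if_neg (by omega)]
        · intro hd
          have := hcz p hp1 hd
          linarith
      · rw [rho_ge s t c hp1 hpz]
        simp
    rw [prod_congr rfl h2] at h1
    have h3 : ∏ p ∈ δ.primeFactors, (((range p).filter (cnd s t c z p)).card : ℝ) ≤ δ := by
      have h4 : ∏ p ∈ δ.primeFactors, (((range p).filter (cnd s t c z p)).card : ℝ)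
          ≤ ∏ p ∈ δ.primeFactors, (p : ℝ) := by
        apply prod_le_prod
        · intro p _; positivity
        · intro p _
          have : ((range p).filter (cnd s t c z p)).card ≤ p :=
            (card_filter_le _ _).trans (by simp)
          exact_mod_cast this
      refine h4.trans ?_
      rw [← Nat.cast_prod, Nat.prod_primeFactors_of_squarefree hδ]
    have h4 : 0 ≤ ∏ p ∈ δ.primeFactors, g1 s t z p := prod_nonneg fun p _ => g1_nonneg s t z p
    have h5 : ∏ p ∈ δ.primeFactors, g1 s t z p ≤ 1 := by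
      apply prod_le_one
      · intro p _; exact g1_nonneg s t z p
      · intro p hp
        have := g1_le_half s t z (hpf p hp).1
        linarith
    have h6 := len_bd x c hc1
    have hq0 : (0 : ℝ) < q := by exact_mod_cast hq.pos
    have hc0 : (0 : ℝ) < c := by exact_mod_cast hc1
    have h7 : |((((2 * x) / c : ℕ) : ℝ) - ((x / c : ℕ) : ℝ)) / ((30 * q : ℕ) : ℝ) - (x : ℝ) / (30 * c * q)| ≤ 1 := by
      have h8 : ((((2 * x) / c : ℕ) : ℝ) - ((x / c : ℕ) : ℝ)) / ((30 * q : ℕ) : ℝ) - (x : ℝ) / (30 * c * q)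
          = (((((2 * x) / c : ℕ) : ℝ) - ((x / c : ℕ) : ℝ)) - (x : ℝ) / c) / (30 * q) := by
        push_cast
        field_simp
      rw [h8, abs_div, abs_of_pos (by positivity : (0 : ℝ) < 30 * q), div_le_one (by positivity)]
      have hq1 : (30 : ℝ) < q := by exact_mod_cast hq30
      linarith
    rw [e1]
    set N : ℝ := (((Ioc (x / c) ((2 * x) / c)).filter
          (fun P => P ≡ r₀ [MOD 30 * q] ∧ ∀ p ∈ δ.primeFactors, cnd s t c z p P)).card : ℝ) with hN
    set G : ℝ := ∏ p ∈ δ.primeFactors, g1 s t z p with hG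
    set L : ℝ := ((((2 * x) / c : ℕ) : ℝ) - ((x / c : ℕ) : ℝ)) / ((30 * q : ℕ) : ℝ) with hL
    set X : ℝ := (x : ℝ) / (30 * c * q) with hX
    have h9 : N - X * G = (N - L * G) + (L - X) * G := by ring
    rw [h9]
    refine (abs_add_le _ _).trans ?_
    have h10 : |(L - X) * G| ≤ 1 := by
      rw [abs_mul, abs_of_nonneg h4]
      calc |L - X| * G ≤ 1 * 1 := mul_le_mul h7 h5 h4 (by norm_num)
        _ = 1 := by norm_num
    have h11 := h1.trans h3
    linarith

end BM

end

end Pool.Agent.Lib.MP3efbeb.T
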