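import Pool.Agent.Lib.MP_3efbeb_nt.T.Prob

/-!
# T: random sets of inverted primes, the weighted second moment method

* `chung_erdos_w`: the Chung-Erdős inequality with weights;
* `union_ge`: the union of the events `Ev S (cof n) (top n)` has probability `≥ 1 / (1 + κ)`;
* `io_w`: infinitely many of the events occur almost surely;
* `indep_ext`: from a family indexed by the primes to a family indexed by `ℕ`;
* `no_S`, `finite_S`: a convergent sum of probabilities.
-/

set_option autoImplicit false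

namespace Pool.Agent.Lib.MP_3efbeb_nt.T

open MeasureTheory ProbabilityTheory Finset
open scoped ENNReal

variable {Ω : Type*} [MeasurableSpace Ω] {μ : Measure Ω}

namespace ProbM

/-- Cauchy-Schwarz (Chung-Erdős inequality with weights `w i / μ (E i)`) -/
lemma chung_erdos_w [IsProbabilityMeasure μ] {ι : Type*} (G : Finset ι) (w : ι → ℝ)
    (hw : ∀ i ∈ G, 0 ≤ w i) (E : ι → Set Ω)
    (hE : ∀ i ∈ G, MeasurableSet (E i)) (hpos : ∀ i ∈ G, 0 < μ.real (E i)) (R : ι → ι → ℝ)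
    (hR : ∀ i ∈ G, ∀ j ∈ G, μ.real (E i ∩ E j) ≤ μ.real (E i) * μ.real (E j) * R i j) :
    (∑ i ∈ G, w i) ^ 2 ≤ μ.real (⋃ i ∈ G, E i) * ∑ i ∈ G, ∑ j ∈ G, w i * w j * R i j := by
  classical
  set U : Set Ω := ⋃ i ∈ G, E i with hU
  have hUm : MeasurableSet U := Finset.measurableSet_biUnion _ hE
  set W : ℝ := ∑ i ∈ G, w i with hW
  set f : Ω → ℝ := fun ω => ∑ i ∈ G, (w i * (μ.real (E i))⁻¹) * (E i).indicator 1 ω with hf
  have hfm : Measurable f := by
    refine Finset.measurable_sum _ fun i hi => ?_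
    exact (measurable_one.indicator (hE i hi)).const_mul _
  have hint : ∀ i ∈ G, Integrable ((E i).indicator (1 : Ω → ℝ)) μ := fun i hi =>
    (integrable_const (1 : ℝ)).indicator (hE i hi)
  have h1 : ∫ ω, f ω ∂μ = W := by
    rw [hf, integral_finsetSum _ fun i hi => (hint i hi).const_mul _]
    refine sum_congr rfl fun i hi => ?_
    rw [integral_const_mul, integral_indicator_one (hE i hi), mul_assoc,
      inv_mul_cancel₀ (hpos i hi).ne', mul_one]
  have h2 : ∫ ω, f ω ^ 2 ∂μ ≤ ∑ i ∈ G, ∑ j ∈ G, w i * w j * R i j := by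
    have e1 : ∀ ω, f ω ^ 2 = ∑ i ∈ G, ∑ j ∈ G, ((w i * (μ.real (E i))⁻¹) * (w j * (μ.real (E j))⁻¹)) *
        (E i ∩ E j).indicator (1 : Ω → ℝ) ω := by
      intro ω
      rw [hf, sq, sum_mul_sum]
      refine sum_congr rfl fun i _ => sum_congr rfl fun j _ => ?_
      rw [Set.inter_indicator_one, Pi.mul_apply]
      ring
    have e2 : ∫ ω, f ω ^ 2 ∂μ = ∑ i ∈ G, ∑ j ∈ G, ((w i * (μ.real (E i))⁻¹) * (w j * (μ.real (E j))⁻¹)) *
        μ.real (E i ∩ E j) := by
      simp_rw [e1]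
      rw [integral_finsetSum]
      · refine sum_congr rfl fun i hi => ?_
        rw [integral_finsetSum]
        · refine sum_congr rfl fun j hj => ?_
          rw [integral_const_mul, integral_indicator_one ((hE i hi).inter (hE j hj))]
        · intro j hj
          exact ((integrable_const (1 : ℝ)).indicator ((hE i hi).inter (hE j hj))).const_mul _
      · intro i hi
        refine integrable_finsetSum _ fun j hj => ?_
        exact ((integrable_const (1 : ℝ)).indicator ((hE i hi).inter (hE j hj))).const_mul _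
    rw [e2]
    refine sum_le_sum fun i hi => sum_le_sum fun j hj => ?_
    have e3 := hR i hi j hj
    have e4 := hpos i hi
    have e5 := hpos j hj
    have e6 : (μ.real (E i))⁻¹ * (μ.real (E j))⁻¹ * μ.real (E i ∩ E j) ≤ R i j := by
      rw [← mul_inv, inv_mul_le_iff₀ (mul_pos e4 e5)]
      exact e3
    calc w i * (μ.real (E i))⁻¹ * (w j * (μ.real (E j))⁻¹) * μ.real (E i ∩ E j)
        = (w i * w j) * ((μ.real (E i))⁻¹ * (μ.real (E j))⁻¹ * μ.real (E i ∩ E j)) := by ring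
      _ ≤ (w i * w j) * R i j := mul_le_mul_of_nonneg_left e6 (mul_nonneg (hw i hi) (hw j hj))
  have hbd : ∃ C : ℝ, ∀ ω, |f ω| ≤ C := by
    refine ⟨∑ i ∈ G, (w i * (μ.real (E i))⁻¹), fun ω => ?_⟩
    refine (Finset.abs_sum_le_sum_abs _ _).trans (sum_le_sum fun i hi => ?_)
    have h0 : 0 ≤ w i * (μ.real (E i))⁻¹ := mul_nonneg (hw i hi) (inv_pos.2 (hpos i hi)).le
    rw [abs_mul, abs_of_nonneg h0]
    refine mul_le_of_le_one_right h0 ?_
    by_cases h : ω ∈ E i
    · rw [Set.indicator_of_mem h]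
      simp
    · rw [Set.indicator_of_notMem h]
      simp
  obtain ⟨C, hC⟩ := hbd
  have hf1 : Integrable f μ := Integrable.of_bound hfm.aestronglyMeasurable C
    (Filter.Eventually.of_forall fun ω => hC ω)
  have hf2 : Integrable (fun ω => f ω ^ 2) μ := by
    refine Integrable.of_bound (hfm.pow_const 2).aestronglyMeasurable (C ^ 2)
      (Filter.Eventually.of_forall fun ω => ?_)
    rw [Real.norm_eq_abs, abs_pow]
    exact pow_le_pow_left₀ (abs_nonneg _) (hC ω) 2
  have hfU : ∀ ω, f ω = f ω * U.indicator 1 ω := by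
    intro ω
    by_cases h : ω ∈ U
    · rw [Set.indicator_of_mem h, Pi.one_apply, mul_one]
    · have h3 : f ω = 0 := by
        refine sum_eq_zero fun i hi => ?_
        have : ω ∉ E i := fun h4 => h (Set.mem_biUnion hi h4)
        rw [Set.indicator_of_notMem this, mul_zero]
      rw [h3, zero_mul]
  -- the quadratic function `∫ (f - t 1_U)²`
  have h3 : ∀ t : ℝ, 0 ≤ (∫ ω, f ω ^ 2 ∂μ) - 2 * t * W + t ^ 2 * μ.real U := by
    intro t
    have e1 : ∀ ω, (f ω - t * U.indicator 1 ω) ^ 2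
        = f ω ^ 2 - 2 * t * f ω + t ^ 2 * U.indicator (1 : Ω → ℝ) ω := by
      intro ω
      have e2 : (U.indicator (1 : Ω → ℝ) ω) ^ 2 = U.indicator (1 : Ω → ℝ) ω := by
        by_cases h : ω ∈ U
        · rw [Set.indicator_of_mem h]
          simp
        · rw [Set.indicator_of_notMem h]
          simp
      calc (f ω - t * U.indicator 1 ω) ^ 2
          = f ω ^ 2 - 2 * t * (f ω * U.indicator 1 ω) + t ^ 2 * (U.indicator (1 : Ω → ℝ) ω) ^ 2 := by ring
        _ = _ := by rw [← hfU ω, e2]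
    have e2 : 0 ≤ ∫ ω, (f ω - t * U.indicator 1 ω) ^ 2 ∂μ := integral_nonneg fun ω => sq_nonneg _
    have e3 : Integrable (U.indicator (1 : Ω → ℝ)) μ := (integrable_const (1 : ℝ)).indicator hUm
    simp_rw [e1] at e2
    have e4 : ∫ ω, (f ω ^ 2 - 2 * t * f ω + t ^ 2 * U.indicator (1 : Ω → ℝ) ω) ∂μ
        = (∫ ω, f ω ^ 2 ∂μ) - 2 * t * W + t ^ 2 * μ.real U := by
      have e5 := integral_add (μ := μ) (f := fun ω => f ω ^ 2 - 2 * t * f ω)
        (g := fun ω => t ^ 2 * U.indicator (1 : Ω → ℝ) ω) (hf2.sub (hf1.const_mul _)) (e3.const_mul _)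
      have e6 := integral_sub (μ := μ) (f := fun ω => f ω ^ 2) (g := fun ω => 2 * t * f ω) hf2 (hf1.const_mul _)
      rw [e5, e6, integral_const_mul, integral_const_mul, h1, integral_indicator_one hUm]
    rw [e4] at e2
    exact e2
  have hU0 : 0 ≤ μ.real U := measureReal_nonneg
  have hF0 : 0 ≤ ∫ ω, f ω ^ 2 ∂μ := integral_nonneg fun ω => sq_nonneg _
  have hW0 : 0 ≤ W := sum_nonneg hw
  have h4 : W ^ 2 ≤ μ.real U * ∫ ω, f ω ^ 2 ∂μ := by
    rcases hU0.eq_or_lt with h5 | h5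
    · -- `μ U = 0`
      have h6 : W = 0 := by
        by_contra hne
        have h8 := h3 ((∫ ω, f ω ^ 2 ∂μ + 1) / (2 * W))
        rw [← h5] at h8
        have key : ∀ F c : ℝ, c ≠ 0 → 2 * ((F + 1) / (2 * c)) * c = F + 1 := by
          intro F c hc
          field_simp
        have h9 := key (∫ ω, f ω ^ 2 ∂μ) W hne
        linarith
      rw [h6, ← h5, zero_mul]
      norm_num
    · have h6 := h3 (W / μ.real U)
      have h7 : 2 * (W / μ.real U) * W = 2 * W ^ 2 / μ.real U := by ring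
      have key : ∀ c u : ℝ, u ≠ 0 → (c / u) ^ 2 * u = c ^ 2 / u := by
        intro c u hu
        field_simp
      have h8 := key W (μ.real U) h5.ne'
      rw [h7, h8] at h6
      have h9 : W ^ 2 / μ.real U ≤ ∫ ω, f ω ^ 2 ∂μ := by
        have : 2 * W ^ 2 / μ.real U = 2 * (W ^ 2 / μ.real U) := by ring
        linarith
      rw [div_le_iff₀ h5] at h9
      linarith
  exact h4.trans (mul_le_mul_of_nonneg_left h2 hU0)

/-- the bound for the correlation of two events `Ev S (cof n) (top n)` -/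
noncomputable def Rd (δ : ℝ) (cof top : ℕ → Finset ℕ) (n m : ℕ) : ℝ :=
  (∏ q ∈ cof n ∩ cof m, ((q : ℝ) / δ)) * (1 / δ) ^ (top n ∩ top m).card

lemma Rd_nonneg {δ : ℝ} (hδ : 0 < δ) (cof top : ℕ → Finset ℕ) (n m : ℕ) : 0 ≤ Rd δ cof top n m := by
  unfold Rd
  exact mul_nonneg (prod_nonneg fun q _ => by positivity) (by positivity)

/-- `Rd = 1` if the sets are disjoint -/
lemma Rd_eq_one (δ : ℝ) (cof top : ℕ → Finset ℕ) (n m : ℕ)
    (h : Disjoint (cof n ∪ top n) (cof m ∪ top m)) : Rd δ cof top n m = 1 := by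
  unfold Rd
  have h1 : cof n ∩ cof m = ∅ := by
    rw [← Finset.disjoint_iff_inter_eq_empty]
    exact (h.mono subset_union_left subset_union_left)
  have h2 : top n ∩ top m = ∅ := by
    rw [← Finset.disjoint_iff_inter_eq_empty]
    exact (h.mono subset_union_right subset_union_right)
  rw [h1, h2]
  simp

/-- the correlation of two events `Ev S (cof n) (top n)`, `Ev S (cof m) (top m)` -/
lemma inter_le_Rd [IsProbabilityMeasure μ] (S : ℕ → Set Ω) (hS : ∀ p, MeasurableSet (S p))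
    (hind : iIndepSet S μ) (δ : ℝ) (hδ : 0 < δ) (cof top : ℕ → Finset ℕ) (n m : ℕ)
    (hn : Disjoint (cof n) (top n)) (hm : Disjoint (cof m) (top m))
    (h0 : ∀ p ∈ cof n, 0 < p ∧ δ / p ≤ μ.real (S p)) (h1 : ∀ p ∈ top n, μ.real (S p) ≤ 1 - δ) :
    μ.real (Ev S (cof n) (top n) ∩ Ev S (cof m) (top m))
      ≤ μ.real (Ev S (cof n) (top n)) * μ.real (Ev S (cof m) (top m)) * Rd δ cof top n m := by
  have hq : ∀ p ∈ cof n, 0 < μ.real (S p) := fun p hp =>
    lt_of_lt_of_le (div_pos hδ (by exact_mod_cast (h0 p hp).1)) (h0 p hp).2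
  have hq1 : ∀ p ∈ top n, μ.real (S p) < 1 := fun p hp => by linarith [h1 p hp]
  refine (inter_le S hS hind _ _ _ _ hn hm (fun p hp => hq p (Finset.mem_inter.1 hp).1)
    (fun p hp => hq1 p (Finset.mem_inter.1 hp).1)).trans ?_
  refine mul_le_mul_of_nonneg_left ?_ (mul_nonneg measureReal_nonneg measureReal_nonneg)
  unfold Rd
  refine mul_le_mul ?_ ?_ ?_ ?_
  · refine prod_le_prod (fun p hp => (inv_pos.2 (hq p (Finset.mem_inter.1 hp).1)).le) fun p hp => ?_
    have h2 := h0 p (Finset.mem_inter.1 hp).1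
    have h3 : (0 : ℝ) < p := by exact_mod_cast h2.1
    rw [← inv_div]
    exact inv_anti₀ (div_pos hδ h3) h2.2
  · rw [← prod_const]
    refine prod_le_prod (fun p hp => ?_) fun p hp => ?_
    · have := hq1 p (Finset.mem_inter.1 hp).1
      exact inv_nonneg.2 (by linarith)
    · have h2 := h1 p (Finset.mem_inter.1 hp).1
      rw [one_div]
      exact inv_anti₀ hδ (by linarith)
  · refine prod_nonneg fun p hp => ?_
    have := hq1 p (Finset.mem_inter.1 hp).1
    exact inv_nonneg.2 (by linarith)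
  · refine prod_nonneg fun p hp => ?_
    positivity

/-- the probability of the union of the events `Ev S (cof n) (top n)` -/
theorem union_ge [IsProbabilityMeasure μ] (S : ℕ → Set Ω) (hS : ∀ p, MeasurableSet (S p))
    (hind : iIndepSet S μ) (δ κ : ℝ) (hδ : 0 < δ) (cof top : ℕ → Finset ℕ) (G : Finset ℕ) (w : ℕ → ℝ)
    (hw : ∀ n ∈ G, 0 ≤ w n) (hw1 : ∑ n ∈ G, w n = 1)
    (hd : ∀ n ∈ G, Disjoint (cof n) (top n))
    (h0 : ∀ n ∈ G, ∀ p ∈ cof n, 0 < p ∧ δ / p ≤ μ.real (S p))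
    (h1 : ∀ n ∈ G, ∀ p ∈ top n, μ.real (S p) ≤ 1 - δ)
    (hR : ∑ n ∈ G, ∑ m ∈ G, w n * w m * Rd δ cof top n m ≤ 1 + κ) :
    1 / (1 + κ) ≤ μ.real (⋃ n ∈ G, Ev S (cof n) (top n)) := by
  have e1 := chung_erdos_w (μ := μ) G w hw (fun n => Ev S (cof n) (top n))
    (fun n _ => measurableSet_Ev S hS _ _)
    (fun n hn => by
      rw [meas_Ev S hS hind _ _ (hd n hn)]
      refine mul_pos (prod_pos fun p hp => ?_) (prod_pos fun p hp => ?_)
      · have h2 := h0 n hn p hp
        exact lt_of_lt_of_le (div_pos hδ (by exact_mod_cast h2.1)) h2.2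
      · linarith [h1 n hn p hp])
    (Rd δ cof top)
    (fun n hn m hm => inter_le_Rd S hS hind δ hδ cof top n m (hd n hn) (hd m hm) (h0 n hn) (h1 n hn))
  rw [hw1, one_pow] at e1
  have e2 : 1 ≤ μ.real (⋃ n ∈ G, Ev S (cof n) (top n)) * (1 + κ) :=
    e1.trans (mul_le_mul_of_nonneg_left hR measureReal_nonneg)
  have e3 : 0 < 1 + κ := by
    by_contra hcon
    push Not at hcon
    have := mul_nonpos_of_nonneg_of_nonpos
      (measureReal_nonneg (μ := μ) (s := ⋃ n ∈ G, Ev S (cof n) (top n))) hcon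
    linarith
  rw [div_le_iff₀ e3]
  exact e2

/-- the second moment method: infinitely many of the events `Ev S (cof n) (top n)` occur -/
theorem io_w [IsProbabilityMeasure μ] (S : ℕ → Set Ω) (hS : ∀ p, MeasurableSet (S p))
    (hind : iIndepSet S μ) (δ : ℝ) (hδ : 0 < δ) (cof top : ℕ → Finset ℕ)
    (hex : ∀ κ : ℝ, 0 < κ → ∀ N : ℕ, ∃ (G : Finset ℕ) (w : ℕ → ℝ),
      (∀ n ∈ G, N ≤ n) ∧ (∀ n ∈ G, 0 ≤ w n) ∧ ∑ n ∈ G, w n = 1 ∧ (∀ n ∈ G, Disjoint (cof n) (top n)) ∧
      (∀ n ∈ G, ∀ p ∈ cof n, 0 < p ∧ δ / p ≤ μ.real (S p)) ∧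
      (∀ n ∈ G, ∀ p ∈ top n, μ.real (S p) ≤ 1 - δ) ∧
      ∑ n ∈ G, ∑ m ∈ G, w n * w m * Rd δ cof top n m ≤ 1 + κ) :
    ∀ᵐ ω ∂μ, {n : ℕ | ω ∈ Ev S (cof n) (top n)}.Infinite := by
  set U : ℕ → Set Ω := fun X => ⋃ n ∈ Set.Ici X, Ev S (cof n) (top n) with hU
  have hUm : ∀ X, MeasurableSet (U X) := fun X =>
    MeasurableSet.biUnion (Set.to_countable _) fun n _ => measurableSet_Ev S hS _ _
  have h1 : ∀ X, μ.real (U X) = 1 := by
    intro X
    refine le_antisymm measureReal_le_one ?_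
    refine le_of_forall_pos_lt_add fun ζ hζ => ?_
    obtain ⟨G, w, g1, g2, g3, g4, g5, g6, g7⟩ := hex ζ hζ X
    have e1 := union_ge (μ := μ) S hS hind δ ζ hδ cof top G w g2 g3 g4 g5 g6 g7
    have e0 : (⋃ n ∈ G, Ev S (cof n) (top n)) ⊆ U X := by
      refine Set.iUnion₂_subset fun n hn => ?_
      exact Set.subset_biUnion_of_mem (u := fun n => Ev S (cof n) (top n)) (g1 n hn)
    have e2 : μ.real (⋃ n ∈ G, Ev S (cof n) (top n)) ≤ μ.real (U X) := measureReal_mono e0 (measure_ne_top _ _)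
    have e3 : 1 / (1 + ζ) ≤ μ.real (U X) := e1.trans e2
    rw [div_le_iff₀ (by linarith)] at e3
    have e5 : μ.real (U X) ≤ 1 := measureReal_le_one
    nlinarith
  have h2 : ∀ᵐ ω ∂μ, ∀ X, ω ∈ U X := by
    rw [ae_all_iff]
    intro X
    refine (mem_ae_iff_prob_eq_one (hUm X)).2 ?_
    have h3 := h1 X
    rw [Measure.real, ENNReal.toReal_eq_one_iff] at h3
    exact h3
  filter_upwards [h2] with ω hω
  rw [Set.infinite_iff_exists_gt]
  intro a
  have := hω (a + 1)
  rw [hU] at this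
  simp only [Set.mem_iUnion, Set.mem_Ici] at this
  obtain ⟨n, hn, hω'⟩ := this
  exact ⟨n, hω', by omega⟩

/-! ### families indexed by the primes -/

/-- the extension of a family indexed by the primes by the empty set -/
noncomputable def ext (S : ℕ → Set Ω) (p : ℕ) : Set Ω := by
  classical exact if p.Prime then S p else ∅

lemma ext_prime (S : ℕ → Set Ω) {p : ℕ} (hp : p.Prime) : ext S p = S p := by
  unfold ext
  rw [if_pos hp]

lemma ext_not (S : ℕ → Set Ω) {p : ℕ} (hp : ¬ p.Prime) : ext S p = ∅ := by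
  unfold ext
  rw [if_neg hp]

lemma ext_meas (S : ℕ → Set Ω) (hS : ∀ p, p.Prime → MeasurableSet (S p)) (p : ℕ) :
    MeasurableSet (ext S p) := by
  by_cases hp : p.Prime
  · rw [ext_prime S hp]
    exact hS p hp
  · rw [ext_not S hp]
    exact MeasurableSet.empty

lemma indep_ext [IsProbabilityMeasure μ] (S : ℕ → Set Ω) (hS : ∀ p, p.Prime → MeasurableSet (S p))
    (hind : iIndepSet (fun p : Nat.Primes => S p) μ) : iIndepSet (ext S) μ := by
  classical
  rw [iIndepSet_iff_meas_biInter (fun p => ext_meas S hS p)]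
  intro s
  by_cases h : ∀ p ∈ s, p.Prime
  · have h1 := (iIndepSet_iff_meas_biInter (μ := μ) (f := fun p : Nat.Primes => S p)
      (fun p => hS p p.2)).1 hind (s.subtype Nat.Prime)
    have h2 : (⋂ i ∈ s.subtype Nat.Prime, S (i : ℕ)) = ⋂ p ∈ s, ext S p := by
      ext ω
      simp only [Set.mem_iInter, Finset.mem_subtype]
      constructor
      · intro h3 p hp
        rw [ext_prime S (h p hp)]
        exact h3 ⟨p, h p hp⟩ hp
      · intro h3 p hp
        have := h3 p hp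
        rwa [ext_prime S p.2] at this
    have h3 : ∏ i ∈ s.subtype Nat.Prime, μ (S (i : ℕ)) = ∏ p ∈ s, μ (ext S p) := by
      have h4 : ∏ p ∈ s, μ (ext S p) = ∏ p ∈ s, μ (S p) :=
        prod_congr rfl fun p hp => by rw [ext_prime S (h p hp)]
      rw [h4]
      exact Finset.prod_subtype_of_mem (fun p => μ (S p)) h
    rw [← h2, ← h3]
    exact h1
  · push Not at h
    obtain ⟨p, hp, hpp⟩ := h
    have h1 : (⋂ i ∈ s, ext S i) = ∅ := by
      ext ω
      simp only [Set.mem_iInter, Set.mem_empty_iff_false, iff_false, not_forall]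
      refine ⟨p, hp, ?_⟩
      rw [ext_not S hpp]
      exact Set.notMem_empty ω
    rw [h1, measure_empty]
    refine (prod_eq_zero hp ?_).symm
    rw [ext_not S hpp, measure_empty]

lemma Ev_ext (S : ℕ → Set Ω) (A B : Finset ℕ) (hA : ∀ p ∈ A, p.Prime) (hB : ∀ p ∈ B, p.Prime) :
    Ev (ext S) A B = Ev S A B := by
  ext ω
  simp only [Ev, Set.mem_ofPred_eq]
  constructor
  · rintro ⟨h1, h2⟩
    refine ⟨fun p hp => ?_, fun p hp => ?_⟩
    · have := h1 p hp
      rwa [ext_prime S (hA p hp)] at this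
    · have := h2 p hp
      rwa [ext_prime S (hB p hp)] at this
  · rintro ⟨h1, h2⟩
    refine ⟨fun p hp => ?_, fun p hp => ?_⟩
    · rw [ext_prime S (hA p hp)]
      exact h1 p hp
    · rw [ext_prime S (hB p hp)]
      exact h2 p hp

/-- the second moment method, for events indexed by the primes -/
theorem io_p [IsProbabilityMeasure μ] (S : ℕ → Set Ω) (hS : ∀ p, p.Prime → MeasurableSet (S p))
    (hind : iIndepSet (fun p : Nat.Primes => S p) μ) (δ : ℝ) (hδ : 0 < δ) (cof top : ℕ → Finset ℕ)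
    (hcof : ∀ n, ∀ p ∈ cof n, p.Prime) (htop : ∀ n, ∀ p ∈ top n, p.Prime)
    (hex : ∀ κ : ℝ, 0 < κ → ∀ N : ℕ, ∃ (G : Finset ℕ) (w : ℕ → ℝ),
      (∀ n ∈ G, N ≤ n) ∧ (∀ n ∈ G, 0 ≤ w n) ∧ ∑ n ∈ G, w n = 1 ∧ (∀ n ∈ G, Disjoint (cof n) (top n)) ∧
      (∀ n ∈ G, ∀ p ∈ cof n, δ / p ≤ μ.real (S p)) ∧
      (∀ n ∈ G, ∀ p ∈ top n, μ.real (S p) ≤ 1 - δ) ∧
      ∑ n ∈ G, ∑ m ∈ G, w n * w m * Rd δ cof top n m ≤ 1 + κ) :
    ∀ᵐ ω ∂μ, {n : ℕ | (∀ p ∈ cof n, ω ∈ S p) ∧ ∀ p ∈ top n, ω ∉ S p}.Infinite := by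
  have h := io_w (μ := μ) (ext S) (ext_meas S hS) (indep_ext S hS hind) δ hδ cof top (by
    intro κ hκ N
    obtain ⟨G, w, g1, g2, g3, g4, g5, g6, g7⟩ := hex κ hκ N
    refine ⟨G, w, g1, g2, g3, g4, fun n hn p hp => ⟨(hcof n p hp).pos, ?_⟩, fun n hn p hp => ?_, g7⟩
    · rw [ext_prime S (hcof n p hp)]
      exact g5 n hn p hp
    · rw [ext_prime S (htop n p hp)]
      exact g6 n hn p hp)
  filter_upwards [h] with ω hω
  refine hω.mono fun n hn => ?_
  have h2 : ω ∈ Ev (ext S) (cof n) (top n) := hn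
  rw [Ev_ext S _ _ (hcof n) (htop n)] at h2
  exact h2

/-! ### a convergent sum of probabilities -/

/-- `S` is finite almost surely -/
theorem finite_S [IsProbabilityMeasure μ] (S : ℕ → Set Ω)
    (hsum : Summable fun p : Nat.Primes => μ.real (S p)) :
    ∀ᵐ ω ∂μ, {p : ℕ | p.Prime ∧ ω ∈ S p}.Finite := by
  have h1 : ∑' p : Nat.Primes, μ (S p) ≠ ∞ := by
    have h2 : ∀ p : Nat.Primes, μ (S p) = ENNReal.ofReal (μ.real (S p)) := fun p =>
      (ofReal_measureReal (measure_ne_top _ _)).symm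
    simp_rw [h2]
    exact hsum.tsum_ofReal_ne_top
  filter_upwards [ae_finite_setOfPred_mem h1] with ω hω
  refine (hω.image fun p : Nat.Primes => (p : ℕ)).subset ?_
  rintro p ⟨hp, hpS⟩
  exact ⟨⟨p, hp⟩, hpS, rfl⟩

lemma one_sub_sum_le (s : Finset ℕ) (x : ℕ → ℝ) (h0 : ∀ i ∈ s, 0 ≤ x i) (h1 : ∀ i ∈ s, x i ≤ 1) :
    0 ≤ ∏ i ∈ s, (1 - x i) ∧ 1 - ∑ i ∈ s, x i ≤ ∏ i ∈ s, (1 - x i) ∧ ∏ i ∈ s, (1 - x i) ≤ 1 := by
  induction s using Finset.induction_on with
  | empty => simp
  | insert a s ha ih =>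
    obtain ⟨i0, i1, i2⟩ := ih (fun i hi => h0 i (mem_insert_of_mem hi)) fun i hi => h1 i (mem_insert_of_mem hi)
    have a0 := h0 a (mem_insert_self _ _)
    have a1 := h1 a (mem_insert_self _ _)
    rw [prod_insert ha, sum_insert ha]
    refine ⟨mul_nonneg (by linarith) i0, ?_, ?_⟩
    · nlinarith
    · nlinarith

/-- with positive probability no prime belongs to `S` -/
theorem no_S [IsProbabilityMeasure μ] (S : ℕ → Set Ω) (hS : ∀ p, p.Prime → MeasurableSet (S p))
    (hind : iIndepSet (fun p : Nat.Primes => S p) μ)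
    (hsum : Summable fun p : Nat.Primes => μ.real (S p)) (hlt : ∀ p : ℕ, p.Prime → μ.real (S p) < 1) :
    0 < μ {ω | ∀ p : ℕ, p.Prime → ω ∉ S p} := by
  have hm := ext_meas S hS
  have hi := indep_ext S hS hind
  have hlt' : ∀ p, μ.real (ext S p) < 1 := by
    intro p
    by_cases hp : p.Prime
    · rw [ext_prime S hp]
      exact hlt p hp
    · rw [ext_not S hp, measureReal_empty]
      exact zero_lt_one
  have hx0 : ∀ p, 0 ≤ μ.real (ext S p) := fun p => measureReal_nonneg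
  have hsum' : Summable fun p : ℕ => μ.real (ext S p) := by
    have h1 : (fun p : ℕ => μ.real (ext S p)) = Set.indicator {p : ℕ | p.Prime} (fun p => μ.real (S p)) := by
      funext p
      by_cases hp : p.Prime
      · rw [ext_prime S hp, Set.indicator_of_mem (show p ∈ {p : ℕ | p.Prime} from hp)]
      · rw [ext_not S hp, measureReal_empty, Set.indicator_of_notMem (show p ∉ {p : ℕ | p.Prime} from hp)]
    rw [h1]
    exact summable_subtype_iff_indicator.1 hsum
  set x : ℕ → ℝ := fun p => μ.real (ext S p) with hx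
  set F : ℕ → Set Ω := fun M => Ev (ext S) ∅ (range M) with hF
  have hFm : ∀ M, μ.real (F M) = ∏ p ∈ range M, (1 - x p) := by
    intro M
    rw [hF]
    show μ.real (Ev (ext S) ∅ (range M)) = _
    rw [meas_Ev (ext S) hm hi _ _ (disjoint_empty_left _), prod_empty, one_mul]
  obtain ⟨N, hN⟩ : ∃ N, ∑' p, x p - 1 / 2 < ∑ p ∈ range N, x p := by
    have h1 := hsum'.hasSum.tendsto_sum_nat
    have h2 := h1.eventually_const_lt (show ∑' p, x p - 1 / 2 < ∑' p, x p by linarith)
    exact h2.exists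
  set c : ℝ := ∏ p ∈ range N, (1 - x p) with hc
  have hcpos : 0 < c := prod_pos fun p _ => by linarith [hlt' p]
  have hlow : ∀ M, c / 2 ≤ μ.real (F M) := by
    intro M
    rw [hFm M]
    rcases le_total N M with h | h
    · have h1 : ∏ p ∈ range M, (1 - x p) = c * ∏ p ∈ Ico N M, (1 - x p) := by
        rw [hc, Finset.range_eq_Ico, Finset.range_eq_Ico, Finset.prod_Ico_consecutive _ (Nat.zero_le _) h]
      have h2 := (one_sub_sum_le (Ico N M) x (fun i _ => hx0 i) fun i _ => (hlt' i).le).2.1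
      have h3 : ∑ p ∈ Ico N M, x p = ∑ p ∈ range M, x p - ∑ p ∈ range N, x p :=
        Finset.sum_Ico_eq_sub _ h
      have h4 : ∑ p ∈ range M, x p ≤ ∑' p, x p := hsum'.sum_le_tsum _ fun i _ => hx0 i
      rw [h1]
      have h5 : 1 / 2 ≤ ∏ p ∈ Ico N M, (1 - x p) := by linarith
      nlinarith
    · have h1 : c = (∏ p ∈ range M, (1 - x p)) * ∏ p ∈ Ico M N, (1 - x p) := by
        rw [hc, Finset.range_eq_Ico, Finset.range_eq_Ico, Finset.prod_Ico_consecutive _ (Nat.zero_le _) h]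
      have h2 := one_sub_sum_le (Ico M N) x (fun i _ => hx0 i) fun i _ => (hlt' i).le
      have h3 := one_sub_sum_le (range M) x (fun i _ => hx0 i) fun i _ => (hlt' i).le
      have h4 : c ≤ ∏ p ∈ range M, (1 - x p) := by
        rw [h1]
        exact mul_le_of_le_one_right h3.1 h2.2.2
      linarith
  have hanti : Antitone F := by
    intro M M' h ω hω
    exact ⟨fun p hp => absurd hp (Finset.notMem_empty p), fun p hp => hω.2 p (Finset.range_mono h hp)⟩
  have hinter : (⋂ M, F M) = {ω | ∀ p : ℕ, p.Prime → ω ∉ S p} := by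
    ext ω
    simp only [Set.mem_iInter, Set.mem_ofPred_eq]
    constructor
    · intro h p hp
      have := (h (p + 1)).2 p (mem_range.2 (Nat.lt_succ_self p))
      rwa [ext_prime S hp] at this
    · intro h M
      refine ⟨fun p hp => absurd hp (Finset.notMem_empty p), fun p _ => ?_⟩
      by_cases hp : p.Prime
      · rw [ext_prime S hp]
        exact h p hp
      · rw [ext_not S hp]
        exact Set.notMem_empty ω
  have hlim := tendsto_measure_iInter_atTop (μ := μ) (s := F)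
    (fun M => (measurableSet_Ev (ext S) hm ∅ (range M)).nullMeasurableSet) hanti ⟨0, measure_ne_top _ _⟩
  rw [hinter] at hlim
  have h1 : ENNReal.ofReal (c / 2) ≤ μ {ω | ∀ p : ℕ, p.Prime → ω ∉ S p} := by
    refine ge_of_tendsto' hlim fun M => ?_
    have h2 := hlow M
    show ENNReal.ofReal (c / 2) ≤ μ (F M)
    rw [← ofReal_measureReal (measure_ne_top μ (F M))]
    exact ENNReal.ofReal_le_ofReal h2
  exact lt_of_lt_of_le (ENNReal.ofReal_pos.2 (by linarith)) h1

end ProbM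

end Pool.Agent.Lib.MP_3efbeb_nt.T
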