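import Pool.Agent.Lib.MP_3efbeb_nt.T.RING
import Pool.Agent.Lib.MP_3efbeb_nt.T.ProbW

/-!
# T: CONV, the case of a convergent sum of probabilities
-/

set_option autoImplicit false

namespace Pool.Agent.Lib.MP3efbeb.T

open Finset MeasureTheory ProbabilityTheory
open scoped Classical
open RINGM
open Pool.Agent.Lib.MP_3efbeb_nt.T.ProbM

theorem specCONV : SpecCONV := by
  intro Ω _ μ _ A hA hind hsum hlt
  constructor
  · intro hae
    have hlt' : ∀ p : ℕ, p.Prime → μ.real (A p) < 1 := by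
      intro p hp
      have h1 := hlt p hp
      have h2 := (ENNReal.toReal_lt_toReal (measure_ne_top μ (A p)) ENNReal.one_ne_top).2 h1
      rw [ENNReal.toReal_one] at h2
      exact h2
    have hpos := no_S (μ := μ) A (fun p _ => hA p) hind hsum hlt'
    obtain ⟨ω, h1, h2⟩ : ∃ ω, (∀ p : ℕ, p.Prime → ω ∉ A p) ∧
        {n : ℕ | PrimeIn {p | p.Prime ∧ ω ∈ A p} n ∧ PrimeIn {p | p.Prime ∧ ω ∈ A p} (n + 2) ∧
          PrimeIn {p | p.Prime ∧ ω ∈ A p} (n + 6)}.Infinite := by
      by_contra hcon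
      push Not at hcon
      have h3 : {ω | ∀ p : ℕ, p.Prime → ω ∉ A p} ⊆ {ω | ¬ {n : ℕ | PrimeIn {p | p.Prime ∧ ω ∈ A p} n ∧
          PrimeIn {p | p.Prime ∧ ω ∈ A p} (n + 2) ∧ PrimeIn {p | p.Prime ∧ ω ∈ A p} (n + 6)}.Infinite} :=
        fun ω hω => by
          rw [Set.mem_ofPred_eq, Set.not_infinite]
          exact hcon ω hω
      have h4 := measure_mono_null h3 (ae_iff.1 hae)
      exact hpos.ne' h4
    have h3 : {p : ℕ | p.Prime ∧ ω ∈ A p} = ∅ := by
      ext p
      simp only [Set.mem_ofPred_eq, Set.mem_empty_iff_false, iff_false, not_and]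
      exact h1 p
    rw [h3] at h2
    refine h2.mono ?_
    rintro n ⟨a1, a2, a3⟩
    exact ⟨primeIn_empty a1, primeIn_empty a2, primeIn_empty a3⟩
  · intro hinf
    filter_upwards [finite_S (μ := μ) A hsum] with ω hω
    set S : Set ℕ := {p | p.Prime ∧ ω ∈ A p} with hS
    obtain ⟨B, hB⟩ := hω.bddAbove
    have hSp : ∀ p ∈ S, p.Prime := fun p hp => hp.1
    have h1 : ({n : ℕ | n.Prime ∧ (n + 2).Prime ∧ (n + 6).Prime} \ Set.Iic B).Infinite :=
      hinf.sdiff (Set.finite_Iic B)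
    refine h1.mono ?_
    rintro n ⟨⟨a1, a2, a3⟩, h2⟩
    rw [Set.mem_Iic, not_le] at h2
    refine ⟨prime_of_prime hSp a1 ?_, prime_of_prime hSp a2 ?_, prime_of_prime hSp a3 ?_⟩
    · intro h
      have := hB h
      omega
    · intro h
      have := hB h
      omega
    · intro h
      have := hB h
      omega

end Pool.Agent.Lib.MP3efbeb.T
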