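import Pool.Agent.Lib.MP_3efbeb_nt.T.Spec
import Pool.Agent.Lib.MP_1446ad_nt.SM.MRA
import Pool.Agent.Lib.MP_1446ad_nt.SM.MRB

/-!
# Module GL: lower bound for the product
-/

set_option autoImplicit false

namespace Pool.Agent.Lib.MP3efbeb.T

open Finset
open scoped Classical
open Pool.Agent.Lib.MP391708.QPA (PB rInd Rough)

namespace GLM

open Pool.Agent.Lib.MP_1446ad_nt.SM

theorem mrb : SpecMRB := Pool.Agent.Lib.MP_1446ad_nt.SM.specMRB Pool.Agent.Lib.MP_1446ad_nt.SM.specMRA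

/-- `exp(-x-x²) ≤ 1 - x` for `0 ≤ x ≤ 1/2` -/
theorem exp_le {x : ℝ} (h0 : 0 ≤ x) (h1 : x ≤ 1 / 2) : Real.exp (-(x + x ^ 2)) ≤ 1 - x := by
  have h2 : 1 + (x + x ^ 2) + (x + x ^ 2) ^ 2 / 2 ≤ Real.exp (x + x ^ 2) :=
    Real.quadratic_le_exp_of_nonneg (by positivity)
  have h3 : 1 ≤ (1 - x) * Real.exp (x + x ^ 2) := by
    have h4 : 1 ≤ (1 - x) * (1 + (x + x ^ 2) + (x + x ^ 2) ^ 2 / 2) := by
      have h5 : (1 - x) * (1 + (x + x ^ 2) + (x + x ^ 2) ^ 2 / 2) =
          1 + x ^ 2 * ((1 - x) * (1 + x) ^ 2 / 2 - x) := by ring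
      have h6 : 0 ≤ (1 - x) * (1 + x) ^ 2 / 2 - x := by
        nlinarith [mul_nonneg h0 (sub_nonneg.2 h1), mul_nonneg (mul_nonneg h0 h0) (sub_nonneg.2 h1)]
      rw [h5]
      nlinarith [mul_nonneg (sq_nonneg x) h6]
    exact h4.trans (mul_le_mul_of_nonneg_left h2 (by linarith))
  rw [Real.exp_neg]
  rw [inv_le_iff_one_le_mul₀ (Real.exp_pos _)]
  exact h3

/-- `nu ≤ 3` -/
theorem nu_le (s t : ℕ) {p : ℕ} (hp : p.Prime) : nu s t p ≤ 3 := by
  have key : ∀ c : ℕ, ((range p).filter (fun r => p ∣ r + c)).card ≤ 1 := by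
    intro c
    rw [card_le_one]
    intro a ha b hb
    rw [mem_filter, mem_range] at ha hb
    have h3 : a + c ≡ b + c [MOD p] :=
      (Nat.modEq_zero_iff_dvd.2 ha.2).trans (Nat.modEq_zero_iff_dvd.2 hb.2).symm
    have h4 : a % p = b % p := Nat.ModEq.add_right_cancel' _ h3
    rwa [Nat.mod_eq_of_lt ha.1, Nat.mod_eq_of_lt hb.1] at h4
  have h1 : (range p).filter (fun r => p ∣ Pi3 s t r) ⊆
      ((range p).filter (fun r => p ∣ r + 0) ∪ (range p).filter (fun r => p ∣ r + s)) ∪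
        (range p).filter (fun r => p ∣ r + t) := by
    intro r hr
    rw [mem_filter] at hr
    unfold Pi3 at hr
    rcases hp.dvd_mul.1 hr.2 with h | h
    · rcases hp.dvd_mul.1 h with h | h
      · exact mem_union_left _ (mem_union_left _ (mem_filter.2 ⟨hr.1, h⟩))
      · exact mem_union_left _ (mem_union_right _ (mem_filter.2 ⟨hr.1, h⟩))
    · exact mem_union_right _ (mem_filter.2 ⟨hr.1, h⟩)
  unfold nu
  have h2 := card_le_card h1
  have h3 := (card_union_le ((range p).filter (fun r => p ∣ r + 0) ∪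
    (range p).filter (fun r => p ∣ r + s)) ((range p).filter (fun r => p ∣ r + t)))
  have h4 := card_union_le ((range p).filter (fun r => p ∣ r + 0))
    ((range p).filter (fun r => p ∣ r + s))
  have h5 := key 0
  have h6 := key s
  have h7 := key t
  omega

theorem gg_nonneg (s t p : ℕ) : 0 ≤ gg s t p := by
  unfold gg
  split_ifs <;> positivity

theorem gg_le (s t : ℕ) {p : ℕ} (hp : p.Prime) : gg s t p ≤ 3 / p := by
  unfold gg
  split_ifs
  · positivity
  · have h1 : (nu s t p : ℝ) ≤ 3 := by exact_mod_cast nu_le s t hp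
    exact div_le_div_of_nonneg_right h1 (by positivity)

theorem gg_le_half (s t : ℕ) {p : ℕ} (hp : p.Prime) : gg s t p ≤ 3 / 7 := by
  by_cases h : p ≤ 5
  · unfold gg
    rw [if_pos h]
    norm_num
  · have h1 : 7 ≤ p := by
      rcases Nat.lt_or_ge p 7 with h2 | h2
      · have h3 : p = 6 := by omega
        subst h3
        exact absurd hp (by norm_num)
      · exact h2
    refine (gg_le s t hp).trans ?_
    have h2 : (7 : ℝ) ≤ p := by exact_mod_cast h1
    exact div_le_div_of_nonneg_left (by norm_num) (by norm_num) h2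

/-- `1 - g(p) ≥ exp(-3/p - 9/p²)` -/
theorem one_sub_ge (s t : ℕ) {p : ℕ} (hp : p.Prime) (h2 : 2 < p) :
    Real.exp (-(3 / (p : ℝ) + 9 / (p : ℝ) ^ 2)) ≤ 1 - gg s t p := by
  by_cases h : p ≤ 5
  · unfold gg
    rw [if_pos h, sub_zero]
    exact Real.exp_le_one_iff.2 (neg_nonpos.2 (by positivity))
  · have h1 : 7 ≤ p := by
      rcases Nat.lt_or_ge p 7 with h2 | h2
      · have h3 : p = 6 := by omega
        subst h3
        exact absurd hp (by norm_num)
      · exact h2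
    have h3 : (7 : ℝ) ≤ p := by exact_mod_cast h1
    have h4 : (3 : ℝ) / p ≤ 1 / 2 := by
      rw [div_le_div_iff₀ (by linarith) (by norm_num)]
      linarith
    have h5 := exp_le (x := 3 / (p : ℝ)) (by positivity) h4
    have h6 : (3 / (p : ℝ)) ^ 2 = 9 / (p : ℝ) ^ 2 := by
      rw [div_pow]
      norm_num
    rw [h6] at h5
    refine h5.trans ?_
    have := gg_le s t hp
    linarith

theorem sum_sq_le (N : ℕ) : ∑ p ∈ (Ioc 2 N).filter Nat.Prime, 1 / (p : ℝ) ^ 2 ≤ 1 := by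
  have h1 : ∑ p ∈ (Ioc 2 N).filter Nat.Prime, 1 / (p : ℝ) ^ 2 ≤ ∑ p ∈ Ioc 2 N, 1 / (p : ℝ) ^ 2 :=
    sum_le_sum_of_subset_of_nonneg (filter_subset _ _) fun _ _ _ => by positivity
  refine h1.trans ?_
  by_cases h : 2 ≤ N
  · have h2 := sum_Ioc_inv_sq_le_sub (α := ℝ) (k := 2) (n := N) (by norm_num) h
    simp only [one_div]
    refine h2.trans ?_
    have : (0 : ℝ) ≤ (N : ℝ)⁻¹ := by positivity
    push_cast
    linarith
  · rw [Ioc_eq_empty (by omega)]
    simp

end GLM

open GLM in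
/-- GL. -/
theorem specGL : SpecGL := by
  intro s t
  obtain ⟨C, hC, hM⟩ := mrb
  have hl2 : 0 < Real.log 2 := Real.log_pos (by norm_num)
  set c : ℝ := Real.log 2 ^ 3 * Real.exp (-(3 * C / Real.log 2 + 9)) with hc
  have hc1 : c ≤ Real.log 2 ^ 3 := by
    rw [hc]
    refine mul_le_of_le_one_right (by positivity) (Real.exp_le_one_iff.2 (neg_nonpos.2 ?_))
    positivity
  refine ⟨c, by positivity, fun z hz => ?_⟩
  have hlz : Real.log 2 ≤ Real.log z := Real.log_le_log (by norm_num) hz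
  have hz0 : 0 < Real.log z := hl2.trans_le hlz
  obtain ⟨N, hN⟩ : ∃ N : ℕ, ⌈z⌉₊ = N + 1 :=
    ⟨⌈z⌉₊ - 1, by have := Nat.ceil_pos.2 (by linarith : 0 < z); omega⟩
  have hNz : (N : ℝ) < z := by
    have : N < ⌈z⌉₊ := by omega
    exact Nat.lt_ceil.1 this
  have hPB : PB z ⊆ insert 2 ((Ioc 2 N).filter Nat.Prime) := by
    intro p hp
    unfold PB at hp
    rw [mem_filter, mem_range, hN] at hp
    rw [mem_insert, mem_filter, mem_Ioc]
    have := hp.2.two_le
    by_cases h : p = 2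
    · exact Or.inl h
    · exact Or.inr ⟨⟨by omega, by omega⟩, hp.2⟩
  have h01 : ∀ p ∈ insert 2 ((Ioc 2 N).filter Nat.Prime), 0 ≤ 1 - gg s t p ∧ 1 - gg s t p ≤ 1 := by
    intro p hp
    have hpp : p.Prime := by
      rw [mem_insert, mem_filter] at hp
      rcases hp with rfl | h
      · exact Nat.prime_two
      · exact h.2
    have h1 := gg_le_half s t hpp
    have h2 := gg_nonneg s t p
    constructor <;> linarith
  have hG : ∏ p ∈ insert 2 ((Ioc 2 N).filter Nat.Prime), (1 - gg s t p) ≤ GG s t z := by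
    unfold GG
    exact Finset.prod_le_prod_of_subset_of_le_one hPB
      (fun p hp => (h01 p hp).1) (fun p hp _ => (h01 p hp).2)
  refine le_trans ?_ hG
  rw [prod_insert (by simp)]
  have h2 : (1 : ℝ) - gg s t 2 = 1 := by simp [gg]
  rw [h2, one_mul]
  have h3 : Real.exp (-(3 * (∑ p ∈ (Ioc 2 N).filter Nat.Prime, 1 / (p : ℝ)) +
      9 * ∑ p ∈ (Ioc 2 N).filter Nat.Prime, 1 / (p : ℝ) ^ 2)) ≤
      ∏ p ∈ (Ioc 2 N).filter Nat.Prime, (1 - gg s t p) := by
    rw [mul_sum, mul_sum, ← sum_add_distrib, ← sum_neg_distrib, Real.exp_sum]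
    refine prod_le_prod (fun _ _ => (Real.exp_pos _).le) fun p hp => ?_
    rw [mem_filter, mem_Ioc] at hp
    have h4 := one_sub_ge s t hp.2 hp.1.1
    rw [show 3 * (1 / (p : ℝ)) + 9 * (1 / (p : ℝ) ^ 2) = 3 / (p : ℝ) + 9 / (p : ℝ) ^ 2 by ring]
    exact h4
  refine le_trans ?_ h3
  have h5 := sum_sq_le N
  by_cases hN2 : 2 ≤ N
  · have h6 := hM 2 N le_rfl hN2
    have hN' : (2 : ℝ) ≤ N := by exact_mod_cast hN2
    have hlN : Real.log 2 ≤ Real.log N := Real.log_le_log (by norm_num) hN'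
    have hlN0 : 0 < Real.log N := hl2.trans_le hlN
    have hlNz : Real.log N ≤ Real.log z := Real.log_le_log (by linarith) hNz.le
    push_cast at h6
    have h7 : Real.exp (-(3 * (Real.log (Real.log N / Real.log 2) + C / Real.log 2) + 9)) ≤
        Real.exp (-(3 * (∑ p ∈ (Ioc 2 N).filter Nat.Prime, 1 / (p : ℝ)) +
          9 * ∑ p ∈ (Ioc 2 N).filter Nat.Prime, 1 / (p : ℝ) ^ 2)) := by
      rw [Real.exp_le_exp]
      linarith
    refine le_trans ?_ h7
    have h8 : Real.exp (-(3 * (Real.log (Real.log N / Real.log 2) + C / Real.log 2) + 9)) =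
        (Real.log 2 / Real.log N) ^ 3 * Real.exp (-(3 * C / Real.log 2 + 9)) := by
      rw [show -(3 * (Real.log (Real.log N / Real.log 2) + C / Real.log 2) + 9) =
        3 * (-Real.log (Real.log N / Real.log 2)) + -(3 * C / Real.log 2 + 9) by ring, Real.exp_add]
      congr 1
      rw [show (3 : ℝ) * (-Real.log (Real.log N / Real.log 2)) =
        ((3 : ℕ) : ℝ) * (-Real.log (Real.log N / Real.log 2)) by norm_num, Real.exp_nat_mul,
        Real.exp_neg, Real.exp_log (by positivity), inv_div]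
    rw [h8, hc, div_pow]
    rw [show Real.log 2 ^ 3 * Real.exp (-(3 * C / Real.log 2 + 9)) / Real.log z ^ 3 =
      Real.log 2 ^ 3 / Real.log z ^ 3 * Real.exp (-(3 * C / Real.log 2 + 9)) by ring]
    refine mul_le_mul_of_nonneg_right ?_ (Real.exp_pos _).le
    exact div_le_div_of_nonneg_left (by positivity) (by positivity)
      (pow_le_pow_left₀ hlN0.le hlNz 3)
  · rw [Ioc_eq_empty (by omega)]
    simp only [filter_empty, sum_empty, mul_zero, add_zero, neg_zero, Real.exp_zero]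
    rw [div_le_one (by positivity)]
    exact hc1.trans (pow_le_pow_left₀ hl2.le hlz 3)

end Pool.Agent.Lib.MP3efbeb.T
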