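import Pool.Agent.Lib.MP_3efbeb_nt.T.Spec
import Pool.Agent.Lib.MP_1446ad_nt.SM.MRB
import Pool.Agent.Lib.MP_1446ad_nt.SM.MRA

/-!
# Line T, module OV, part A: pointwise inequalities, sums over primes
-/

set_option autoImplicit false

namespace Pool.Agent.Lib.MP3efbeb.T.OVM

open Finset
open scoped Classical

noncomputable section

theorem gpf_mem {n : ℕ} (hn : 2 ≤ n) : gpf n ∈ n.primeFactors := by
  have hne : n.primeFactors.Nonempty := Nat.nonempty_primeFactors.2 (by omega)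
  obtain ⟨i, hi, h⟩ := Finset.exists_mem_eq_sup n.primeFactors hne id
  unfold gpf
  rw [h]
  exact hi

theorem le_gpf {q n : ℕ} (hq : q ∈ n.primeFactors) : q ≤ gpf n :=
  Finset.le_sup (f := id) hq

theorem gpf_prime {n : ℕ} (hn : 2 ≤ n) : (gpf n).Prime := Nat.prime_of_mem_primeFactors (gpf_mem hn)

/-- `∑_{q ∣ n, q ≤ y} log q` -/
def Xf (y : ℝ) (n : ℕ) : ℝ := ∑ q ∈ n.primeFactors.filter (fun q : ℕ => (q : ℝ) ≤ y), Real.log q

theorem sum_log_sq {n : ℕ} (hs : Squarefree n) : ∑ q ∈ n.primeFactors, Real.log (q : ℝ) = Real.log n := by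
  have h := Nat.prod_primeFactors_of_squarefree hs
  have h2 : (n : ℝ) = ∏ q ∈ n.primeFactors, (q : ℝ) := by
    conv_lhs => rw [← h]
    push_cast
    rfl
  rw [h2, Real.log_prod]
  intro q hq
  have := (Nat.prime_of_mem_primeFactors hq).pos
  positivity

theorem V_eq {n : ℕ} (hn : 2 ≤ n) (hs : Squarefree n) :
    ∑ q ∈ cofP n, Real.log (q : ℝ) = Real.log n - Real.log (gpf n) := by
  have h := Finset.add_sum_erase n.primeFactors (fun q : ℕ => Real.log (q : ℝ)) (gpf_mem hn)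
  have h2 := sum_log_sq hs
  unfold cofP
  linarith

theorem log_nonneg_nat (q : ℕ) : 0 ≤ Real.log (q : ℝ) := Real.log_natCast_nonneg q

theorem Xf_nonneg (y : ℝ) (n : ℕ) : 0 ≤ Xf y n := Finset.sum_nonneg fun q _ => log_nonneg_nat q

theorem Xf_le {n : ℕ} (y : ℝ) (hs : Squarefree n) : Xf y n ≤ Real.log n := by
  rw [← sum_log_sq hs]
  exact Finset.sum_le_sum_of_subset_of_nonneg (Finset.filter_subset _ _) fun q _ _ => log_nonneg_nat q

/-- `gpf n ≤ y` -/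
theorem Xf_small {n : ℕ} {y : ℝ} (hs : Squarefree n) (h : (gpf n : ℝ) ≤ y) : Xf y n = Real.log n := by
  rw [← sum_log_sq hs]
  unfold Xf
  congr 1
  refine Finset.filter_true_of_mem fun q hq => ?_
  have : (q : ℝ) ≤ gpf n := by exact_mod_cast le_gpf hq
  linarith

/-- `gpf n > y` -/
theorem Xf_large {n : ℕ} {y : ℝ} (hn : 2 ≤ n) (hs : Squarefree n) (h : y < (gpf n : ℝ)) :
    Xf y n ≤ Real.log n - Real.log (gpf n) := by
  rw [← V_eq hn hs]
  unfold Xf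
  refine Finset.sum_le_sum_of_subset_of_nonneg ?_ fun q _ _ => log_nonneg_nat q
  intro q hq
  rw [Finset.mem_filter] at hq
  unfold cofP
  refine Finset.mem_erase.2 ⟨?_, hq.1⟩
  rintro rfl
  exact absurd hq.2 (not_le.2 h)

/-- no prime factor in `(y, y']`, `n ≤ y y'`, `gpf n > y`: `V = X` -/
theorem V_le_Xf {n : ℕ} {y y' : ℝ} (hn : 2 ≤ n) (hyy : (n : ℝ) ≤ y' * y') (hy' : 0 ≤ y')
    (h : y < (gpf n : ℝ)) (hmid : ∀ q ∈ n.primeFactors, ¬ (y < (q : ℝ) ∧ (q : ℝ) ≤ y')) :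
    ∑ q ∈ cofP n, Real.log (q : ℝ) ≤ Xf y n := by
  unfold Xf
  refine Finset.sum_le_sum_of_subset_of_nonneg ?_ fun q _ _ => log_nonneg_nat q
  intro q hq
  unfold cofP at hq
  rw [Finset.mem_erase] at hq
  refine Finset.mem_filter.2 ⟨hq.2, ?_⟩
  by_contra hcon
  push Not at hcon
  have h1 : y' < (gpf n : ℝ) := by
    by_contra h2
    exact hmid _ (gpf_mem hn) ⟨h, not_lt.1 h2⟩
  have h3 : y' < (q : ℝ) := by
    by_contra h2
    exact hmid _ hq.2 ⟨hcon, not_lt.1 h2⟩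
  have hqp : q.Prime := Nat.prime_of_mem_primeFactors hq.2
  have hgp := gpf_prime hn
  have hdvd : q * gpf n ∣ n := by
    refine Nat.Coprime.mul_dvd_of_dvd_of_dvd ?_ (Nat.dvd_of_mem_primeFactors hq.2)
      (Nat.dvd_of_mem_primeFactors (gpf_mem hn))
    exact (Nat.coprime_primes hqp hgp).2 hq.1
  have hle : q * gpf n ≤ n := Nat.le_of_dvd (by omega) hdvd
  have hle' : (q : ℝ) * gpf n ≤ n := by exact_mod_cast hle
  have : y' * y' < (q : ℝ) * gpf n := by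
    have hq0 : (0 : ℝ) < q := by exact_mod_cast hqp.pos
    nlinarith
  linarith

/-- exchange of sums -/
theorem exch {s t b : ℕ} {a η : ℝ} {x u : ℕ} {v : ℝ} (hx : 1 ≤ x) (hv : v ≤ 1) (hu : 1 ≤ u) :
    ∑ q ∈ (Icc 1 x).filter (fun q : ℕ => q.Prime ∧ (q : ℝ) ≤ (x : ℝ) ^ v),
      Real.log q * (((PP s t b a η x).filter (fun m => q ∣ m + u)).card : ℝ)
      = ∑ m ∈ PP s t b a η x, Xf ((x : ℝ) ^ v) (m + u) := by
  have hx1 : (1 : ℝ) ≤ x := by exact_mod_cast hx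
  have h1 : ∀ q : ℕ, Real.log (q : ℝ) * (((PP s t b a η x).filter (fun m => q ∣ m + u)).card : ℝ)
      = ∑ m ∈ PP s t b a η x, if q ∣ m + u then Real.log (q : ℝ) else 0 := by
    intro q
    rw [← Finset.sum_filter, Finset.sum_const, nsmul_eq_mul, mul_comm]
  simp only [h1]
  rw [Finset.sum_comm]
  refine Finset.sum_congr rfl fun m _ => ?_
  rw [← Finset.sum_filter]
  unfold Xf
  refine Finset.sum_congr ?_ fun q _ => rfl
  ext q
  simp only [Finset.mem_filter, Finset.mem_Icc, Nat.mem_primeFactors]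
  constructor
  · rintro ⟨⟨_, h2, h3⟩, h4⟩
    exact ⟨⟨h2, h4, by omega⟩, h3⟩
  · rintro ⟨⟨h2, h4, _⟩, h3⟩
    refine ⟨⟨⟨h2.one_lt.le, ?_⟩, h2, h3⟩, h4⟩
    have h5 : (x : ℝ) ^ v ≤ x := by
      calc (x : ℝ) ^ v ≤ (x : ℝ) ^ (1 : ℝ) := Real.rpow_le_rpow_of_exponent_le hx1 hv
        _ = x := Real.rpow_one _
    exact_mod_cast h3.trans h5

end

end Pool.Agent.Lib.MP3efbeb.T.OVM
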