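import Pool.Agent.Lib.MP_3efbeb_nt.T.OVA

/-!
# Line T, module OV, part B: primes in intervals, the numerical argument
-/

set_option autoImplicit false

namespace Pool.Agent.Lib.MP3efbeb.T.OVM

open Finset Filter Topology
open scoped Classical

noncomputable section

/-- the primes in `(x^α, x^β]` -/
def PI (α β : ℝ) (x : ℕ) : Finset ℕ :=
  (Icc 1 x).filter (fun q : ℕ => q.Prime ∧ (x : ℝ) ^ α < q ∧ (q : ℝ) ≤ (x : ℝ) ^ β)

/-- the sum of `1/q` over the primes in `(x^α, x^β]` -/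
theorem sum_PI {α β κ : ℝ} (hα : 0 < α) (hαβ : α < β) (hκ : 0 < κ) :
    ∃ X₀ : ℕ, ∀ x : ℕ, X₀ ≤ x → ∑ q ∈ PI α β x, 1 / (q : ℝ) ≤ Real.log (β / α) + κ := by
  obtain ⟨C, hC0, hC⟩ := MP_1446ad_nt.SM.specMRB MP_1446ad_nt.SM.specMRA
  have hβ : 0 < β := hα.trans hαβ
  -- choose `δ` with `log (β/(α-δ)) ≤ log (β/α) + κ/2`
  obtain ⟨δ, hδ0, hδα, hδ⟩ : ∃ δ : ℝ, 0 < δ ∧ δ < α ∧ Real.log (β / (α - δ)) ≤ Real.log (β / α) + κ / 2 := by
    have hcont : Tendsto (fun δ : ℝ => Real.log (β / (α - δ))) (𝓝[>] 0) (𝓝 (Real.log (β / (α - 0)))) := by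
      have h1 : ContinuousAt (fun δ : ℝ => Real.log (β / (α - δ))) 0 := by
        refine ContinuousAt.log ?_ ?_
        · exact continuousAt_const.div (continuousAt_const.sub continuousAt_id) (by simpa using hα.ne')
        · simpa using ⟨hβ.ne', hα.ne'⟩
      exact h1.tendsto.mono_left nhdsWithin_le_nhds
    rw [sub_zero] at hcont
    have h2 : ∀ᶠ δ in 𝓝[>] (0 : ℝ), Real.log (β / (α - δ)) < Real.log (β / α) + κ / 2 :=
      hcont.eventually_lt_const (by linarith)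
    have h3 : ∀ᶠ δ in 𝓝[>] (0 : ℝ), δ < α := by
      filter_upwards [Ioo_mem_nhdsGT hα] with δ hδ using hδ.2
    have h4 : ∀ᶠ δ in 𝓝[>] (0 : ℝ), 0 < δ := self_mem_nhdsWithin
    obtain ⟨δ, hd⟩ := (h2.and (h3.and h4)).exists
    exact ⟨δ, hd.2.2, hd.2.1, hd.1.le⟩
  have hαδ : 0 < α - δ := by linarith
  -- large `x`
  have e1 : ∀ᶠ x : ℕ in atTop, (2 : ℝ) ≤ (x : ℝ) ^ (α - δ) := by
    have := (tendsto_rpow_atTop hαδ).comp tendsto_natCast_atTop_atTop
    exact this.eventually_ge_atTop 2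
  have e2 : ∀ᶠ x : ℕ in atTop, (2 : ℝ) ≤ (x : ℝ) ^ δ := by
    have := (tendsto_rpow_atTop hδ0).comp tendsto_natCast_atTop_atTop
    exact this.eventually_ge_atTop 2
  have e3 : ∀ᶠ x : ℕ in atTop, C / ((α - δ) * Real.log x) ≤ κ / 2 := by
    have h1 : Tendsto (fun x : ℕ => (α - δ) * Real.log (x : ℝ)) atTop atTop :=
      (Real.tendsto_log_atTop.comp tendsto_natCast_atTop_atTop).const_mul_atTop hαδ
    have h2 : Tendsto (fun x : ℕ => C / ((α - δ) * Real.log (x : ℝ))) atTop (𝓝 0) := h1.const_div_atTop C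
    exact (h2.eventually_le_const (by linarith : (0 : ℝ) < κ / 2))
  obtain ⟨X₀, hX⟩ := eventually_atTop.1 (e1.and (e2.and (e3.and (eventually_ge_atTop 2))))
  refine ⟨X₀, fun x hx => ?_⟩
  obtain ⟨h1, h2, h3, h4⟩ := hX x hx
  have hx0 : (0 : ℝ) < x := by exact_mod_cast (by omega : 0 < x)
  have hx1 : (1 : ℝ) ≤ x := by exact_mod_cast (by omega : 1 ≤ x)
  have hlx : 0 < Real.log x := Real.log_pos (by exact_mod_cast (by omega : 1 < x))
  have hxa : (x : ℝ) ^ α = (x : ℝ) ^ (α - δ) * (x : ℝ) ^ δ := by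
    rw [← Real.rpow_add hx0]; congr 1; ring
  have hpa : 0 < (x : ℝ) ^ (α - δ) := by positivity
  -- `a = ⌊x^α⌋ ≥ x^(α-δ)`
  set A := ⌊(x : ℝ) ^ α⌋₊ with hA
  set B := ⌊(x : ℝ) ^ β⌋₊ with hB
  have hA1 : (x : ℝ) ^ (α - δ) ≤ A := by
    have := Nat.lt_floor_add_one ((x : ℝ) ^ α)
    rw [← hA] at this
    nlinarith
  have hA2 : 2 ≤ A := by
    have : (2 : ℝ) ≤ A := h1.trans hA1
    exact_mod_cast this
  have hab : (x : ℝ) ^ α ≤ (x : ℝ) ^ β := Real.rpow_le_rpow_of_exponent_le hx1 hαβ.le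
  have hAB : A ≤ B := Nat.floor_le_floor hab
  have hsub : PI α β x ⊆ (Ioc A B).filter Nat.Prime := by
    intro q hq
    unfold PI at hq
    rw [Finset.mem_filter] at hq
    refine Finset.mem_filter.2 ⟨Finset.mem_Ioc.2 ⟨?_, ?_⟩, hq.2.1⟩
    · exact (Nat.floor_lt (by positivity)).2 hq.2.2.1
    · exact Nat.le_floor hq.2.2.2
  have hm := hC A B hA2 hAB
  have hle : ∑ q ∈ PI α β x, 1 / (q : ℝ) ≤ ∑ q ∈ (Ioc A B).filter Nat.Prime, 1 / (q : ℝ) :=
    Finset.sum_le_sum_of_subset_of_nonneg hsub fun q _ _ => by positivity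
  have hlA : (α - δ) * Real.log x ≤ Real.log A := by
    rw [← Real.log_rpow hx0]
    exact Real.log_le_log hpa hA1
  have hlA0 : 0 < Real.log A := lt_of_lt_of_le (by positivity) hlA
  have hlB : Real.log B ≤ β * Real.log x := by
    rw [← Real.log_rpow hx0]
    refine Real.log_le_log ?_ (Nat.floor_le (by positivity))
    exact_mod_cast (by omega : 0 < B)
  have hlB0 : 0 < Real.log B := lt_of_lt_of_le hlA0
    (Real.log_le_log (by exact_mod_cast (by omega : 0 < A)) (by exact_mod_cast hAB))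
  have h5 : Real.log (Real.log B / Real.log A) ≤ Real.log (β / (α - δ)) := by
    refine Real.log_le_log (by positivity) ?_
    rw [div_le_div_iff₀ hlA0 hαδ]
    nlinarith
  have h6 : C / Real.log A ≤ κ / 2 := (div_le_div_of_nonneg_left hC0 (by positivity) hlA).trans h3
  linarith

/-- the bound of B, in terms of `#PP` -/
theorem union_le {s t b : ℕ} {a η K' NP : ℝ} {x u : ℕ} {α β : ℝ}
    (hB : ∀ q : ℕ, q.Prime → (x : ℝ) ^ α < q → (q : ℝ) ≤ (x : ℝ) ^ β →
      (((PP s t b a η x).filter (fun m => q ∣ m + u)).card : ℝ) ≤ K' * NP / q) :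
    (((PP s t b a η x).filter (fun m => ∃ q ∈ PI α β x, q ∣ m + u)).card : ℝ)
      ≤ K' * NP * ∑ q ∈ PI α β x, 1 / (q : ℝ) := by
  have h1 : (PP s t b a η x).filter (fun m => ∃ q ∈ PI α β x, q ∣ m + u) ⊆
      (PI α β x).biUnion (fun q => (PP s t b a η x).filter (fun m => q ∣ m + u)) := by
    intro m hm
    rw [Finset.mem_filter] at hm
    obtain ⟨q, hq, hd⟩ := hm.2
    exact Finset.mem_biUnion.2 ⟨q, hq, Finset.mem_filter.2 ⟨hm.1, hd⟩⟩
  have h2 : (((PP s t b a η x).filter (fun m => ∃ q ∈ PI α β x, q ∣ m + u)).card : ℝ) ≤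
      ∑ q ∈ PI α β x, (((PP s t b a η x).filter (fun m => q ∣ m + u)).card : ℝ) := by
    exact_mod_cast (Finset.card_le_card h1).trans Finset.card_biUnion_le
  refine h2.trans ?_
  rw [Finset.mul_sum]
  refine Finset.sum_le_sum fun q hq => ?_
  unfold PI at hq
  rw [Finset.mem_filter] at hq
  have := hB q hq.2.1 hq.2.2.1 hq.2.2.2
  calc _ ≤ _ := this
    _ = K' * NP * (1 / (q : ℝ)) := by ring

/-- the numerical argument. `x1 = E X'`, `σ = P(Sm)`, `μ1 = P(Mid)`, `μ2 = P(Mid2)`, `τ = P(Tn)`,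
`p = P(squarefree)`. -/
theorem numeric {K d cst ε κ ω x1 V σ μ1 μ2 τ p : ℝ} (hK : 1 ≤ K) (hd : d = 1 / (400 * K)) (hc : cst = d ^ 2 / 100)
    (hε : ε = cst / (100 * K)) (hκ : κ = cst / 100) (hω0 : 0 ≤ ω) (hω : ω ≤ cst / 100) (hσ0 : 0 ≤ σ) (hp : p ≤ 1)
    (hτσ : τ ≤ σ) (hτ : τ ≤ (d / 8 + κ) * (1 + 2 * κ))
    (hx1 : x1 ≤ (1 / 2 - ε + κ) * (1 + 2 * κ)) (hμ0 : 0 ≤ μ1) (hμ1 : μ1 ≤ cst / 2) (hμ2 : μ2 ≤ 1 / 4)
    (hV : V ≤ x1 + μ1 * (1 / 2 + ε + ω) - d / 8 * (σ - τ))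
    (hx2 : x1 ≤ σ * (1 + ω) + (p - σ) * (1 / 2 + ε + ω) - (d + ε) * (p - σ - μ2)) :
    V ≤ 1 / 2 - cst / 2 := by
  have hd0 : 0 < d := by rw [hd]; positivity
  have hd1 : d ≤ 1 / 400 := by
    rw [hd]
    exact one_div_le_one_div_of_le (by norm_num) (by linarith)
  have hc0 : 0 < cst := by rw [hc]; positivity
  have hcd : cst ≤ d / 40000 := by
    rw [hc]
    nlinarith
  have hε0 : 0 < ε := by rw [hε]; positivity
  have hε1 : ε ≤ cst / 100 := by
    rw [hε]
    exact div_le_div_of_nonneg_left hc0.le (by norm_num) (by linarith)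
  have hκ0 : 0 < κ := by rw [hκ]; positivity
  have hstep : μ1 * (1 / 2 + ε + ω) ≤ cst / 2 * (6 / 10) := by
    have h1 : 1 / 2 + ε + ω ≤ 6 / 10 := by linarith
    have h0 : 0 ≤ 1 / 2 + ε + ω := by linarith
    exact mul_le_mul hμ1 h1 h0 (by linarith)
  by_cases hA : x1 < 1 / 2 - cst
  · have : 0 ≤ d / 8 * (σ - τ) := by
      apply mul_nonneg (by linarith) (by linarith)
    linarith
  · push Not at hA
    -- lower bound for `σ`
    have hσ : d / 2 ≤ σ := by
      by_contra hcon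
      push Not at hcon
      have h1 : x1 ≤ p * (1 / 2 + ω - d) + σ * (1 / 2 + d) + (d + ε) * μ2 := by linarith
      have h2 : p * (1 / 2 + ω - d) ≤ 1 * (1 / 2 + ω - d) := by
        apply mul_le_mul_of_nonneg_right hp; linarith
      have h3 : σ * (1 / 2 + d) ≤ d / 2 * (6 / 10) := by
        apply mul_le_mul hcon.le (by linarith) (by linarith) (by linarith)
      have h4 : (d + ε) * μ2 ≤ (d + ε) * (1 / 4) := by
        apply mul_le_mul_of_nonneg_left hμ2; linarith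
      linarith
    have hτ2 : τ ≤ d / 7 := by
      have : (d / 8 + κ) * (1 + 2 * κ) ≤ d / 7 := by nlinarith
      linarith
    have h5 : d / 8 * (d / 2 - d / 7) ≤ d / 8 * (σ - τ) := by
      apply mul_le_mul_of_nonneg_left _ (by linarith); linarith
    have h6 : (1 / 2 - ε + κ) * (1 + 2 * κ) ≤ 1 / 2 + 3 * κ := by nlinarith
    have h7 : d ^ 2 = 100 * cst := by rw [hc]; ring
    have h8 : d / 8 * (d / 2 - d / 7) = 5 / 112 * (100 * cst) := by rw [← h7]; ring
    linarith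

theorem sum_ind (S : Finset ℕ) (P : ℕ → Prop) (c : ℝ) :
    ∑ m ∈ S, (if P m then c else 0) = c * ((S.filter P).card : ℝ) := by
  rw [← Finset.sum_filter, Finset.sum_const, nsmul_eq_mul, mul_comm]

/-- the two summed inequalities -/
theorem core {S : Finset ℕ} {Vv Xv : ℕ → ℝ} {L ε ω d : ℝ} {Sm Tn M1 M2 : ℕ → Prop} (hL : 0 ≤ L)
    (hε : 0 ≤ ε) (hω : 0 ≤ ω) (hd : 0 ≤ d)
    (hTS : ∀ m, Tn m → Sm m)
    (h1 : ∀ m ∈ S, Sm m → ¬ Tn m → Vv m ≤ Xv m - d / 8 * L)
    (h2 : ∀ m ∈ S, Sm m → Vv m ≤ Xv m)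
    (h3 : ∀ m ∈ S, ¬ Sm m → ¬ M1 m → Vv m ≤ Xv m)
    (h4 : ∀ m ∈ S, ¬ Sm m → Vv m ≤ (1 / 2 + ε + ω) * L)
    (h5 : ∀ m, 0 ≤ Xv m)
    (h6 : ∀ m ∈ S, Sm m → Xv m ≤ (1 + ω) * L)
    (h7 : ∀ m ∈ S, ¬ Sm m → Xv m ≤ (1 / 2 + ε + ω) * L)
    (h8 : ∀ m ∈ S, ¬ Sm m → ¬ M2 m → Xv m ≤ (1 / 2 - d + ω) * L) :
    (∑ m ∈ S, Vv m ≤ ∑ m ∈ S, Xv m + (1 / 2 + ε + ω) * L * ((S.filter M1).card : ℝ)
      - d / 8 * L * (((S.filter Sm).card : ℝ) - ((S.filter Tn).card : ℝ))) ∧
    (∑ m ∈ S, Xv m ≤ (1 + ω) * L * ((S.filter Sm).card : ℝ)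
      + (1 / 2 + ε + ω) * L * ((S.card : ℝ) - ((S.filter Sm).card : ℝ))
      - (d + ε) * L * ((S.card : ℝ) - ((S.filter Sm).card : ℝ) - ((S.filter M2).card : ℝ))) := by
  have hc1 : 0 ≤ (1 / 2 + ε + ω) * L := by positivity
  have hc2 : 0 ≤ (d + ε) * L := by positivity
  constructor
  · have hpt : ∀ m ∈ S, Vv m ≤ Xv m + (if M1 m then (1 / 2 + ε + ω) * L else 0)
        - ((if Sm m then d / 8 * L else 0) - (if Tn m then d / 8 * L else 0)) := by
      intro m hm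
      by_cases hs : Sm m
      · have hM : 0 ≤ (if M1 m then (1 / 2 + ε + ω) * L else 0) := by
          split_ifs
          · exact hc1
          · exact le_rfl
        by_cases ht : Tn m
        · have := h2 m hm hs
          simp only [hs, ht, if_true]
          linarith
        · have := h1 m hm hs ht
          simp only [hs, ht, if_true, if_false]
          linarith
      · have ht : ¬ Tn m := fun h => hs (hTS m h)
        by_cases hM : M1 m
        · have := h4 m hm hs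
          have := h5 m
          simp only [hs, ht, hM, if_true, if_false]
          linarith
        · have := h3 m hm hs hM
          simp only [hs, ht, hM, if_false]
          linarith
    refine (Finset.sum_le_sum hpt).trans (le_of_eq ?_)
    rw [Finset.sum_sub_distrib, Finset.sum_add_distrib, Finset.sum_sub_distrib, sum_ind, sum_ind, sum_ind]
    ring
  · have hpt : ∀ m ∈ S, Xv m ≤ (if Sm m then (1 + ω) * L else 0)
        + ((1 / 2 + ε + ω) * L - (if Sm m then (1 / 2 + ε + ω) * L else 0))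
        - ((d + ε) * L - (if Sm m then (d + ε) * L else 0) - (if M2 m then (d + ε) * L else 0)) := by
      intro m hm
      have hM : 0 ≤ (if M2 m then (d + ε) * L else 0) := by
        split_ifs
        · exact hc2
        · exact le_rfl
      by_cases hs : Sm m
      · have := h6 m hm hs
        simp only [hs, if_true]
        linarith
      · by_cases hM : M2 m
        · have := h7 m hm hs
          simp only [hs, hM, if_true, if_false]
          linarith
        · have := h8 m hm hs hM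
          simp only [hs, hM, if_false]
          linarith
    refine (Finset.sum_le_sum hpt).trans (le_of_eq ?_)
    rw [Finset.sum_sub_distrib, Finset.sum_add_distrib, Finset.sum_sub_distrib, Finset.sum_sub_distrib,
      Finset.sum_sub_distrib, sum_ind, sum_ind, sum_ind, sum_ind, Finset.sum_const, Finset.sum_const,
      nsmul_eq_mul, nsmul_eq_mul]
    ring

end

end Pool.Agent.Lib.MP3efbeb.T.OVM
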