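import Pool.Agent.Lib.MP_3efbeb_nt.T.PROB
import Pool.Agent.Lib.MP_1446ad_nt.SM.MRA

/-!
# T: PR, lemmas
-/

set_option autoImplicit false

namespace Pool.Agent.Lib.MP3efbeb.T

open Finset
open scoped Classical
open Pool.Agent.Lib.MP391708.QPA (PB rInd Rough)

namespace PRM

/-- the product of the shifts -/
def FF (H : Finset ℕ) (n : ℕ) : ℕ := ∏ h ∈ H, (n + h)

lemma Pi3_eq {s t : ℕ} (hs : 0 < s) (hst : s < t) (n : ℕ) : Pi3 s t n = FF {0, s, t} n := by
  unfold Pi3 FF
  rw [prod_insert (by simp; omega), prod_insert (by simp; omega), prod_singleton, add_zero, mul_assoc]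

/-- the residues modulo `D` where `FF H` vanishes -/
def ZR (H : Finset ℕ) (D : ℕ) : Finset ℕ := (range D).filter fun r => D ∣ FF H r

lemma FF_modEq (H : Finset ℕ) (D n m : ℕ) (h : n ≡ m [MOD D]) : FF H n ≡ FF H m [MOD D] := by
  unfold FF
  induction H using Finset.induction_on with
  | empty => simp; rfl
  | insert a s ha ih =>
    rw [prod_insert ha, prod_insert ha]
    exact Nat.ModEq.mul (Nat.ModEq.add_right a h) ih

lemma mod_mem_ZR {H : Finset ℕ} {D n : ℕ} (hD : 0 < D) (h : D ∣ FF H n) : n % D ∈ ZR H D := by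
  unfold ZR
  rw [mem_filter, mem_range]
  refine ⟨Nat.mod_lt _ hD, ?_⟩
  exact (FF_modEq H D (n % D) n (Nat.mod_modEq n D)).symm.dvd_iff (dvd_refl D) |>.1 h

lemma card_ZR_le (H : Finset ℕ) (D : ℕ) (hD : Squarefree D) :
    (ZR H D).card ≤ H.card ^ D.primeFactors.card := by
  classical
  have hch : ∀ r ∈ ZR H D, ∀ p ∈ D.primeFactors, ∃ h ∈ H, p ∣ r + h := by
    intro r hr p hp
    unfold ZR at hr
    rw [mem_filter] at hr
    have hpp := Nat.prime_of_mem_primeFactors hp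
    have h1 : p ∣ FF H r := (Nat.dvd_of_mem_primeFactors hp).trans hr.2
    unfold FF at h1
    obtain ⟨h, hh, hd⟩ := (hpp.prime.dvd_finsetProd_iff _).1 h1
    exact ⟨h, hh, hd⟩
  -- the choice function
  let g : ℕ → (∀ p ∈ D.primeFactors, ℕ) := fun r p hp =>
    if h : ∃ h ∈ H, p ∣ r + h then h.choose else 0
  have hg : ∀ r ∈ ZR H D, ∀ p (hp : p ∈ D.primeFactors), g r p hp ∈ H ∧ p ∣ r + g r p hp := by
    intro r hr p hp
    have h := hch r hr p hp
    simp only [g, dif_pos h]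
    exact h.choose_spec
  have h1 : (ZR H D).card ≤ (D.primeFactors.pi fun _ => H).card := by
    apply card_le_card_of_injOn g
    · intro r hr
      rw [mem_coe] at hr ⊢
      rw [mem_pi]
      intro p hp
      exact (hg r hr p hp).1
    · intro r hr r' hr' heq
      rw [mem_coe] at hr hr'
      have hr1 := (mem_range.1 (mem_filter.1 hr).1)
      have hr2 := (mem_range.1 (mem_filter.1 hr').1)
      have h2 : (D : ℤ) ∣ (r : ℤ) - r' := by
        have h3 : (D : ℤ) = ∏ p ∈ D.primeFactors, (p : ℤ) := by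
          rw [← Nat.cast_prod, Nat.prod_primeFactors_of_squarefree hD]
        rw [h3]
        apply Finset.prod_dvd_of_coprime
        · intro p hp q hq hpq
          have h4 := (Nat.coprime_primes (Nat.prime_of_mem_primeFactors hp)
            (Nat.prime_of_mem_primeFactors hq)).2 hpq
          exact Nat.isCoprime_iff_coprime.2 h4
        · intro p hp
          have h5 := (hg r hr p hp).2
          have h6 := (hg r' hr' p hp).2
          have h7 : g r p hp = g r' p hp := by rw [heq]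
          rw [← h7] at h6
          have h8 : (p : ℤ) ∣ ((r + g r p hp : ℕ) : ℤ) - ((r' + g r p hp : ℕ) : ℤ) :=
            dvd_sub (Int.natCast_dvd_natCast.2 h5) (Int.natCast_dvd_natCast.2 h6)
          push_cast at h8
          rwa [add_sub_add_right_eq_sub] at h8
      have h9 := Int.eq_zero_of_abs_lt_dvd h2 (by
        rw [abs_lt]
        constructor <;> omega)
      omega
  rw [Finset.card_pi, prod_const] at h1
  exact h1

/-- the number of elements of a residue class in `(x, 2x]` -/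
lemma card_class_le (D r x : ℕ) (hD : 0 < D) :
    ((((Ioc x (2 * x)).filter fun n => n % D = r).card : ℕ) : ℝ) ≤ (x : ℝ) / D + 1 := by
  have h1 := Nat.Ioc_filter_modEq_card (a := x) (b := 2 * x) hD r
  have h2 : (Ioc x (2 * x)).filter (fun n => n % D = r) ⊆ (Ioc x (2 * x)).filter (fun n => n ≡ r [MOD D]) := by
    intro n hn
    rw [mem_filter] at hn ⊢
    refine ⟨hn.1, ?_⟩
    rw [← hn.2]
    exact (Nat.mod_modEq n D).symm
  have h3 : ((((Ioc x (2 * x)).filter fun n => n % D = r).card : ℕ) : ℝ)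
      ≤ (((Ioc x (2 * x)).filter (fun n => n ≡ r [MOD D])).card : ℝ) := by exact_mod_cast card_le_card h2
  refine h3.trans ?_
  set c := ((Ioc x (2 * x)).filter (fun n => n ≡ r [MOD D])).card with hc
  set u : ℚ := (((2 * x : ℕ) : ℚ) - r) / D with hu
  set v : ℚ := ((x : ℚ) - r) / D with hv
  have huv : v ≤ u := by
    rw [hu, hv]
    gcongr
    push_cast
    linarith [(Nat.cast_nonneg x : (0 : ℚ) ≤ x)]
  have hfl : ⌊v⌋ ≤ ⌊u⌋ := Int.floor_mono huv
  have hc2 : (c : ℤ) = ⌊u⌋ - ⌊v⌋ := by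
    rw [h1]
    exact max_eq_left (by linarith)
  have hd : u - v = (x : ℚ) / D := by
    rw [hu, hv]
    push_cast
    ring
  have h4 : ((c : ℤ) : ℚ) ≤ (x : ℚ) / D + 1 := by
    rw [hc2, ← hd]
    push_cast
    have e1 := Int.floor_le u
    have e4 := Int.lt_floor_add_one v
    linarith
  have h5 : (((c : ℤ) : ℚ) : ℝ) ≤ (((x : ℚ) / D + 1 : ℚ) : ℝ) := by exact_mod_cast h4
  push_cast at h5
  exact h5

/-- the trivial count -/
lemma count_trivial (H : Finset ℕ) (D x : ℕ) (hD : Squarefree D) (G : Finset ℕ) (hG : G ⊆ Ioc x (2 * x)) :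
    ((G.filter fun n => D ∣ FF H n).card : ℝ) ≤ (H.card : ℝ) ^ D.primeFactors.card * ((x : ℝ) / D + 1) := by
  have hD0 : 0 < D := Nat.pos_of_ne_zero hD.ne_zero
  have h1 : G.filter (fun n => D ∣ FF H n) ⊆ (ZR H D).biUnion fun r => (Ioc x (2 * x)).filter fun n => n % D = r := by
    intro n hn
    rw [mem_filter] at hn
    rw [mem_biUnion]
    exact ⟨n % D, mod_mem_ZR hD0 hn.2, mem_filter.2 ⟨hG hn.1, rfl⟩⟩
  have h2 : ((G.filter fun n => D ∣ FF H n).card : ℝ) ≤ ∑ r ∈ ZR H D, (((Ioc x (2 * x)).filter fun n => n % D = r).card : ℝ) := by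
    have := (card_le_card h1).trans card_biUnion_le
    exact_mod_cast this
  refine h2.trans ((sum_le_sum fun r _ => card_class_le D r x hD0).trans ?_)
  rw [sum_const, nsmul_eq_mul]
  refine mul_le_mul_of_nonneg_right ?_ (by positivity)
  exact_mod_cast card_ZR_le H D hD

/-! ### the number of prime factors -/

lemma prod_le {s t m : ℕ} (hm : 2 ≤ m) : ∏ q ∈ (Pi3 s t m).primeFactors, q ≤ Pi3 s t m :=
  Nat.le_of_dvd (Nat.pos_of_ne_zero (PROBM.Pi3_ne hm)) (Nat.prod_primeFactors_dvd _)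

lemma Pi3_le {s t m x : ℕ} (hx : 27 ≤ x) (hst : s < t) (ht : t ≤ x) (hm : m ≤ 2 * x) :
    Pi3 s t m ≤ x ^ 4 := by
  unfold Pi3
  calc m * (m + s) * (m + t) ≤ (3 * x) * (3 * x) * (3 * x) := by
        refine Nat.mul_le_mul (Nat.mul_le_mul ?_ ?_) ?_ <;> omega
    _ = 27 * x ^ 3 := by ring
    _ ≤ x * x ^ 3 := Nat.mul_le_mul_right _ hx
    _ = x ^ 4 := by ring

lemma card_pf_le {s t m x : ℕ} {η : ℝ} (hx : 27 ≤ x) (hst : s < t) (ht : t ≤ x)
    (hm2 : 2 ≤ m) (hm : m ≤ 2 * x) (hr : Rough ((x : ℝ) ^ η) (Pi3 s t m)) :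
    ((Pi3 s t m).primeFactors.card : ℝ) * η ≤ 4 := by
  set F := (Pi3 s t m).primeFactors with hF
  have hx1 : (1 : ℝ) < x := by
    have : (27 : ℝ) ≤ x := by exact_mod_cast hx
    linarith
  have hx0 : (0 : ℝ) < x := by linarith
  have h1 : ((x : ℝ) ^ η) ^ F.card ≤ ∏ q ∈ F, (q : ℝ) := by
    rw [← prod_const]
    refine prod_le_prod (fun q _ => (Real.rpow_pos_of_pos hx0 η).le) fun q hq => ?_
    exact hr q (Nat.prime_of_mem_primeFactors hq) (Nat.dvd_of_mem_primeFactors hq)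
  have h2 : ∏ q ∈ F, (q : ℝ) ≤ (x : ℝ) ^ 4 := by
    have := (prod_le (s := s) (t := t) hm2).trans (Pi3_le hx hst ht hm)
    rw [← Nat.cast_prod]
    exact_mod_cast this
  have h3 : (x : ℝ) ^ (η * F.card) ≤ (x : ℝ) ^ (4 : ℝ) := by
    rw [Real.rpow_mul hx0.le, Real.rpow_natCast]
    refine (h1.trans h2).trans (le_of_eq ?_)
    rw [show (4 : ℝ) = ((4 : ℕ) : ℝ) by norm_num, Real.rpow_natCast]
  have h4 := (Real.rpow_le_rpow_left_iff hx1).1 h3
  linarith

/-! ### the correlation factor -/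

/-- the product of the common primes -/
def gc (s t m n : ℕ) : ℕ := ∏ q ∈ (Pi3 s t m).primeFactors ∩ (Pi3 s t n).primeFactors, q

lemma gc_pos (s t m n : ℕ) : 0 < gc s t m n :=
  prod_pos fun _ hq => (Nat.prime_of_mem_primeFactors (mem_inter.1 hq).1).pos

lemma RR_le {s t m n L x : ℕ} {δ c : ℝ} (hδ : 0 < δ) (hδ1 : δ ≤ 1) (hc : c < 1) (hx : 1 ≤ x) (hm : 2 ≤ m) (hn : 2 ≤ n)
    (hL : (Pi3 s t m).primeFactors.card ≤ L) (hcof : (∏ q ∈ cof s t m, (q : ℝ)) ≤ (x : ℝ) ^ (1 - c)) :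
    RR s t δ m n ≤ (1 / δ) ^ (3 + L) * min (gc s t m n : ℝ) ((x : ℝ) ^ (1 - c)) := by
  have h1δ : 1 ≤ 1 / δ := by
    rw [le_div_iff₀ hδ]
    linarith
  have hx1 : (1 : ℝ) ≤ x := by exact_mod_cast hx
  have hxc : 1 ≤ (x : ℝ) ^ (1 - c) := Real.one_le_rpow hx1 (by linarith)
  have hg1 : (1 : ℝ) ≤ (gc s t m n : ℝ) := by exact_mod_cast gc_pos s t m n
  unfold RR
  split_ifs with h
  · have h2 : 1 ≤ min (gc s t m n : ℝ) ((x : ℝ) ^ (1 - c)) := le_min hg1 hxc
    have h3 : 1 ≤ (1 / δ) ^ (3 + L) := one_le_pow₀ h1δ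
    nlinarith
  · have hprimeC : ∀ q ∈ cof s t m, q.Prime := fun q hq => Nat.prime_of_mem_primeFactors (PROBM.cof_sub hm hq)
    have e1 : ∏ q ∈ cof s t m ∩ cof s t n, ((q : ℝ) / δ)
        = (∏ q ∈ cof s t m ∩ cof s t n, (q : ℝ)) * (1 / δ) ^ (cof s t m ∩ cof s t n).card := by
      rw [← prod_const, ← prod_mul_distrib]
      exact prod_congr rfl fun q _ => by ring
    have e2 : (1 / δ) ^ (cof s t m ∩ cof s t n).card ≤ (1 / δ) ^ L := by
      refine pow_le_pow_right₀ h1δ ?_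
      exact (card_le_card (inter_subset_left.trans (PROBM.cof_sub hm))).trans hL
    have e3 : ∏ q ∈ cof s t m ∩ cof s t n, (q : ℝ) ≤ min (gc s t m n : ℝ) ((x : ℝ) ^ (1 - c)) := by
      refine le_min ?_ ?_
      · unfold gc
        push_cast
        refine prod_le_prod_of_subset_of_one_le ?_ (fun q hq => ?_) fun q hq _ => ?_
        · exact inter_subset_inter (PROBM.cof_sub hm) (PROBM.cof_sub hn)
        · positivity
        · exact_mod_cast (Nat.prime_of_mem_primeFactors (mem_inter.1 hq).1).one_lt.le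
      · refine le_trans ?_ hcof
        refine prod_le_prod_of_subset_of_one_le inter_subset_left (fun q hq => ?_) fun q hq _ => ?_
        · positivity
        · exact_mod_cast (hprimeC q hq).one_lt.le
    have e4 : 0 ≤ ∏ q ∈ cof s t m ∩ cof s t n, (q : ℝ) := prod_nonneg fun q _ => by positivity
    rw [e1, pow_add]
    calc (1 / δ) ^ 3 * ((∏ q ∈ cof s t m ∩ cof s t n, (q : ℝ)) * (1 / δ) ^ (cof s t m ∩ cof s t n).card)
        ≤ (1 / δ) ^ 3 * (min (gc s t m n : ℝ) ((x : ℝ) ^ (1 - c)) * (1 / δ) ^ L) := by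
          refine mul_le_mul_of_nonneg_left ?_ (by positivity)
          exact mul_le_mul e3 e2 (by positivity) (e4.trans e3)
      _ = _ := by ring

end PRM

end Pool.Agent.Lib.MP3efbeb.T
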