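import Pool.Agent.Lib.MP_3efbeb_nt.T.Spec
import Pool.Agent.Lib.MP_3efbeb_nt.T.ProbW

/-!
# T: PROB, the probability of the union
-/

set_option autoImplicit false

namespace Pool.Agent.Lib.MP3efbeb.T

open Finset MeasureTheory ProbabilityTheory
open scoped Classical
open Pool.Agent.Lib.MP_3efbeb_nt.T (Ev)
open Pool.Agent.Lib.MP_3efbeb_nt.T.ProbM

namespace PROBM

lemma gpf_mem {m : ℕ} (hm : 2 ≤ m) : gpf m ∈ m.primeFactors := by
  have hne : m.primeFactors.Nonempty := Nat.nonempty_primeFactors.2 (by omega)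
  obtain ⟨p, hp, h⟩ := Finset.exists_mem_eq_sup _ hne id
  unfold gpf
  rw [h]
  exact hp

lemma Pi3_ne {s t m : ℕ} (hm : 2 ≤ m) : Pi3 s t m ≠ 0 := by
  unfold Pi3
  have h1 : 0 < m := by omega
  positivity

lemma cofP_sub {m : ℕ} : cofP m ⊆ m.primeFactors := erase_subset _ _

/-- the three positions -/
lemma mem_cof {s t m p : ℕ} : p ∈ cof s t m ↔ p ∈ cofP m ∨ p ∈ cofP (m + s) ∨ p ∈ cofP (m + t) := by
  unfold cof
  rw [mem_union, mem_union, or_assoc]

lemma mem_top {s t m p : ℕ} : p ∈ top s t m ↔ p = gpf m ∨ p = gpf (m + s) ∨ p = gpf (m + t) := by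
  unfold top
  rw [mem_insert, mem_insert, mem_singleton]

lemma cof_sub {s t m : ℕ} (hm : 2 ≤ m) : cof s t m ⊆ (Pi3 s t m).primeFactors := by
  intro p hp
  have h0 : Pi3 s t m ≠ 0 := Pi3_ne hm
  have d1 : m ∣ Pi3 s t m := ⟨(m + s) * (m + t), by unfold Pi3; ring⟩
  have d2 : m + s ∣ Pi3 s t m := ⟨m * (m + t), by unfold Pi3; ring⟩
  have d3 : m + t ∣ Pi3 s t m := ⟨m * (m + s), by unfold Pi3; ring⟩
  rcases mem_cof.1 hp with h | h | h
  · exact Nat.primeFactors_mono d1 h0 (cofP_sub h)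
  · exact Nat.primeFactors_mono d2 h0 (cofP_sub h)
  · exact Nat.primeFactors_mono d3 h0 (cofP_sub h)

lemma top_sub {s t m : ℕ} (hm : 2 ≤ m) : top s t m ⊆ (Pi3 s t m).primeFactors := by
  intro p hp
  have h0 : Pi3 s t m ≠ 0 := Pi3_ne hm
  have d1 : m ∣ Pi3 s t m := ⟨(m + s) * (m + t), by unfold Pi3; ring⟩
  have d2 : m + s ∣ Pi3 s t m := ⟨m * (m + t), by unfold Pi3; ring⟩
  have d3 : m + t ∣ Pi3 s t m := ⟨m * (m + s), by unfold Pi3; ring⟩
  rcases mem_top.1 hp with h | h | h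
  · rw [h]
    exact Nat.primeFactors_mono d1 h0 (gpf_mem hm)
  · rw [h]
    exact Nat.primeFactors_mono d2 h0 (gpf_mem (by omega))
  · rw [h]
    exact Nat.primeFactors_mono d3 h0 (gpf_mem (by omega))

lemma card_top_le (s t m : ℕ) : (top s t m).card ≤ 3 := by
  unfold top
  exact card_le_three

/-- a prime divides only one of two coprime-by-squarefreeness factors -/
lemma sq_false {p u v w : ℕ} (hp : p.Prime) (hsq : Squarefree w) (hd : u * v ∣ w) (h1 : p ∣ u) (h2 : p ∣ v) :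
    False := by
  have h3 : p * p ∣ w := (mul_dvd_mul h1 h2).trans hd
  have h4 := hsq p h3
  rw [Nat.isUnit_iff] at h4
  exact hp.one_lt.ne' h4

lemma disj {s t m : ℕ} (hm : 2 ≤ m) (hsq : Squarefree (Pi3 s t m)) : Disjoint (cof s t m) (top s t m) := by
  rw [Finset.disjoint_left]
  intro p hc ht
  have hpp := Nat.prime_of_mem_primeFactors (cof_sub hm hc)
  have d12 : m * (m + s) ∣ Pi3 s t m := ⟨m + t, rfl⟩
  have d13 : m * (m + t) ∣ Pi3 s t m := ⟨m + s, by unfold Pi3; ring⟩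
  have d23 : (m + s) * (m + t) ∣ Pi3 s t m := ⟨m, by unfold Pi3; ring⟩
  have g1 : gpf m ∣ m := Nat.dvd_of_mem_primeFactors (gpf_mem hm)
  have g2 : gpf (m + s) ∣ m + s := Nat.dvd_of_mem_primeFactors (gpf_mem (by omega))
  have g3 : gpf (m + t) ∣ m + t := Nat.dvd_of_mem_primeFactors (gpf_mem (by omega))
  rcases mem_cof.1 hc with h | h | h
  · have hd := Nat.dvd_of_mem_primeFactors (cofP_sub h)
    rcases mem_top.1 ht with e | e | e
    · rw [e] at h
      exact Finset.notMem_erase _ _ h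
    · exact sq_false hpp hsq d12 hd (e ▸ g2)
    · exact sq_false hpp hsq d13 hd (e ▸ g3)
  · have hd := Nat.dvd_of_mem_primeFactors (cofP_sub h)
    rcases mem_top.1 ht with e | e | e
    · exact sq_false hpp hsq d12 (e ▸ g1) hd
    · rw [e] at h
      exact Finset.notMem_erase _ _ h
    · exact sq_false hpp hsq d23 hd (e ▸ g3)
  · have hd := Nat.dvd_of_mem_primeFactors (cofP_sub h)
    rcases mem_top.1 ht with e | e | e
    · exact sq_false hpp hsq d13 (e ▸ g1) hd
    · exact sq_false hpp hsq d23 (e ▸ g2) hd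
    · rw [e] at h
      exact Finset.notMem_erase _ _ h

lemma Rd_le_RR {s t m n : ℕ} {δ : ℝ} (hδ : 0 < δ) (hδ1 : δ ≤ 1) (hm : 2 ≤ m) (hn : 2 ≤ n) :
    Rd δ (cof s t) (top s t) m n ≤ RR s t δ m n := by
  unfold RR
  split_ifs with h
  · rw [Rd_eq_one]
    exact h.mono (union_subset (cof_sub hm) (top_sub hm)) (union_subset (cof_sub hn) (top_sub hn))
  · unfold Rd
    rw [mul_comm]
    refine mul_le_mul_of_nonneg_right ?_ (prod_nonneg fun q _ => by positivity)
    refine pow_le_pow_right₀ ?_ ?_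
    · rw [le_div_iff₀ hδ]
      linarith
    · exact (card_le_card inter_subset_left).trans (card_top_le s t m)

end PROBM

open PROBM

theorem specPROB : SpecPROB := by
  intro Ω _ μ _ A hA hind δ κ P₀ s t S w hδ hδ1 hκ hP₀ hp hw hw1 hS hR
  have hm : ∀ p, MeasurableSet (ext A p) := ext_meas A fun p _ => hA p
  have hi := indep_ext A (fun p _ => hA p) hind
  have hprc : ∀ m ∈ S, ∀ q ∈ cof s t m, q.Prime ∧ P₀ ≤ q := by
    intro m hmS q hq
    obtain ⟨h2, -, h3⟩ := hS m hmS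
    have h4 := cof_sub h2 hq
    have h5 := Nat.prime_of_mem_primeFactors h4
    exact ⟨h5, h3 q h5 (Nat.dvd_of_mem_primeFactors h4)⟩
  have hprt : ∀ m ∈ S, ∀ q ∈ top s t m, q.Prime ∧ P₀ ≤ q := by
    intro m hmS q hq
    obtain ⟨h2, -, h3⟩ := hS m hmS
    have h4 := top_sub h2 hq
    have h5 := Nat.prime_of_mem_primeFactors h4
    exact ⟨h5, h3 q h5 (Nat.dvd_of_mem_primeFactors h4)⟩
  have h := union_ge (μ := μ) (ext A) hm hi δ κ hδ (cof s t) (top s t) S w (fun n _ => hw n) hw1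
    (fun n hn => disj (hS n hn).1 (hS n hn).2.1)
    (fun n hn p hpc => by
      obtain ⟨h1, h2⟩ := hprc n hn p hpc
      rw [ext_prime A h1]
      exact ⟨h1.pos, (hp p h1 h2).1⟩)
    (fun n hn p hpt => by
      obtain ⟨h1, h2⟩ := hprt n hn p hpt
      rw [ext_prime A h1]
      exact (hp p h1 h2).2)
    (by
      refine le_trans ?_ hR
      refine sum_le_sum fun m hmS => sum_le_sum fun n hn => ?_
      exact mul_le_mul_of_nonneg_left (Rd_le_RR hδ hδ1.le (hS m hmS).1 (hS n hn).1)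
        (mul_nonneg (hw m) (hw n)))
  refine h.trans (le_of_eq ?_)
  congr 1
  refine Set.iUnion₂_congr fun n hn => ?_
  exact Ev_ext A _ _ (fun p hpc => (hprc n hn p hpc).1) fun p hpt => (hprt n hn p hpt).1

end Pool.Agent.Lib.MP3efbeb.T
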