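import Mathlib

/-!
# T: random sets of inverted primes, the probabilistic part

`S p` (`p` a natural number) are independent events. `Ev S A B` is the event that all `S p`, `p ∈ A`, and none of the
`S p`, `p ∈ B`, occur. Second moment method for events of this form.
-/

set_option autoImplicit false

namespace Pool.Agent.Lib.MP_3efbeb_nt.T

open MeasureTheory ProbabilityTheory Finset
open scoped ENNReal

variable {Ω : Type*} [MeasurableSpace Ω] {μ : Measure Ω}

/-- the event that all `S p`, `p ∈ A`, and none of the `S p`, `p ∈ B`, occur -/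
def Ev (S : ℕ → Set Ω) (A B : Finset ℕ) : Set Ω := {ω | (∀ p ∈ A, ω ∈ S p) ∧ ∀ p ∈ B, ω ∉ S p}

namespace ProbM

lemma Ev_eq (S : ℕ → Set Ω) (A B : Finset ℕ) (hAB : Disjoint A B) :
    Ev S A B = ⋂ p ∈ A ∪ B, (if p ∈ A then S p else (S p)ᶜ) := by
  ext ω
  simp only [Ev, Set.mem_ofPred_eq, Set.mem_iInter]
  constructor
  · rintro ⟨h1, h2⟩ p hp
    by_cases hpA : p ∈ A
    · rw [if_pos hpA]
      exact h1 p hpA
    · rw [if_neg hpA]
      exact h2 p ((Finset.mem_union.1 hp).resolve_left hpA)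
  · intro h
    refine ⟨fun p hp => ?_, fun p hp => ?_⟩
    · have := h p (Finset.mem_union_left _ hp)
      rwa [if_pos hp] at this
    · have hpA : p ∉ A := fun hpA => Finset.disjoint_left.1 hAB hpA hp
      have := h p (Finset.mem_union_right _ hp)
      rwa [if_neg hpA] at this

lemma measurableSet_Ev (S : ℕ → Set Ω) (hS : ∀ p, MeasurableSet (S p)) (A B : Finset ℕ) :
    MeasurableSet (Ev S A B) := by
  have : Ev S A B = (⋂ p ∈ A, S p) ∩ ⋂ p ∈ B, (S p)ᶜ := by
    ext ω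
    simp [Ev]
  rw [this]
  exact (Finset.measurableSet_biInter _ fun p _ => hS p).inter
    (Finset.measurableSet_biInter _ fun p _ => (hS p).compl)

lemma meas_Ev [IsProbabilityMeasure μ] (S : ℕ → Set Ω) (hS : ∀ p, MeasurableSet (S p))
    (hind : iIndepSet S μ) (A B : Finset ℕ) (hAB : Disjoint A B) :
    μ.real (Ev S A B) = (∏ p ∈ A, μ.real (S p)) * ∏ p ∈ B, (1 - μ.real (S p)) := by
  rw [Ev_eq S A B hAB]
  have h1 := (iIndepSet_iff_iIndep S μ).1 hind
  have h2 := h1.meas_biInter (S := A ∪ B) (s := fun p => if p ∈ A then S p else (S p)ᶜ) (fun p _ => by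
    have h3 : MeasurableSet[MeasurableSpace.generateFrom {S p}] (S p) :=
      MeasurableSpace.measurableSet_generateFrom rfl
    show MeasurableSet[MeasurableSpace.generateFrom {S p}] (if p ∈ A then S p else (S p)ᶜ)
    split_ifs
    · exact h3
    · exact h3.compl)
  rw [Measure.real, h2, ENNReal.toReal_prod, prod_union hAB]
  congr 1
  · refine prod_congr rfl fun p hp => ?_
    rw [if_pos hp]
    rfl
  · refine prod_congr rfl fun p hp => ?_
    rw [if_neg (fun hpA => Finset.disjoint_left.1 hAB hpA hp)]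
    exact probReal_compl_eq_one_sub (hS p)

lemma Ev_inter (S : ℕ → Set Ω) (A B A' B' : Finset ℕ) :
    Ev S A B ∩ Ev S A' B' = Ev S (A ∪ A') (B ∪ B') := by
  ext ω
  simp only [Ev, Set.mem_inter_iff, Set.mem_ofPred_eq, Finset.mem_union]
  constructor
  · rintro ⟨⟨h1, h2⟩, h3, h4⟩
    exact ⟨fun p hp => hp.elim (h1 p) (h3 p), fun p hp => hp.elim (h2 p) (h4 p)⟩
  · rintro ⟨h1, h2⟩
    exact ⟨⟨fun p hp => h1 p (Or.inl hp), fun p hp => h2 p (Or.inl hp)⟩,
      fun p hp => h1 p (Or.inr hp), fun p hp => h2 p (Or.inr hp)⟩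

lemma Ev_empty (S : ℕ → Set Ω) (A B : Finset ℕ) (h : ¬ Disjoint A B) : Ev S A B = ∅ := by
  rw [Finset.not_disjoint_iff] at h
  obtain ⟨p, hA, hB⟩ := h
  ext ω
  simp only [Ev, Set.mem_ofPred_eq, Set.mem_empty_iff_false, iff_false, not_and]
  intro h1 h2
  exact h2 p hB (h1 p hA)

/-- the correlation of two events -/
lemma inter_le [IsProbabilityMeasure μ] (S : ℕ → Set Ω) (hS : ∀ p, MeasurableSet (S p))
    (hind : iIndepSet S μ) (A B A' B' : Finset ℕ) (hAB : Disjoint A B) (hAB' : Disjoint A' B')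
    (h0 : ∀ p ∈ A ∩ A', 0 < μ.real (S p)) (h1 : ∀ p ∈ B ∩ B', μ.real (S p) < 1) :
    μ.real (Ev S A B ∩ Ev S A' B') ≤ μ.real (Ev S A B) * μ.real (Ev S A' B') *
      ((∏ p ∈ A ∩ A', (μ.real (S p))⁻¹) * ∏ p ∈ B ∩ B', (1 - μ.real (S p))⁻¹) := by
  have hm : ∀ p, μ.real (S p) ≤ 1 := fun p => measureReal_le_one
  have hm0 : ∀ p, 0 ≤ μ.real (S p) := fun p => measureReal_nonneg
  by_cases hd : Disjoint (A ∪ A') (B ∪ B')
  · rw [Ev_inter, meas_Ev S hS hind _ _ hd, meas_Ev S hS hind _ _ hAB, meas_Ev S hS hind _ _ hAB']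
    have e1 : (∏ p ∈ A ∪ A', μ.real (S p)) * (∏ p ∈ A ∩ A', μ.real (S p))
        = (∏ p ∈ A, μ.real (S p)) * ∏ p ∈ A', μ.real (S p) := prod_union_inter
    have e2 : (∏ p ∈ B ∪ B', (1 - μ.real (S p))) * (∏ p ∈ B ∩ B', (1 - μ.real (S p)))
        = (∏ p ∈ B, (1 - μ.real (S p))) * ∏ p ∈ B', (1 - μ.real (S p)) := prod_union_inter
    have e3 : 0 < ∏ p ∈ A ∩ A', μ.real (S p) := prod_pos h0
    have e4 : 0 < ∏ p ∈ B ∩ B', (1 - μ.real (S p)) := prod_pos fun p hp => by linarith [h1 p hp]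
    rw [prod_inv_distrib, prod_inv_distrib]
    apply le_of_eq
    field_simp
    calc (∏ p ∈ A ∪ A', μ.real (S p)) * (∏ p ∈ B ∪ B', (1 - μ.real (S p))) *
          (∏ p ∈ A ∩ A', μ.real (S p)) * (∏ p ∈ B ∩ B', (1 - μ.real (S p)))
        = ((∏ p ∈ A ∪ A', μ.real (S p)) * (∏ p ∈ A ∩ A', μ.real (S p))) *
          ((∏ p ∈ B ∪ B', (1 - μ.real (S p))) * (∏ p ∈ B ∩ B', (1 - μ.real (S p)))) := by ring
      _ = ((∏ p ∈ A, μ.real (S p)) * ∏ p ∈ A', μ.real (S p)) *
          ((∏ p ∈ B, (1 - μ.real (S p))) * ∏ p ∈ B', (1 - μ.real (S p))) := by rw [e1, e2]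
      _ = _ := by ring
  · rw [Ev_inter, Ev_empty S _ _ hd, measureReal_empty]
    refine mul_nonneg (mul_nonneg measureReal_nonneg measureReal_nonneg) (mul_nonneg ?_ ?_)
    · exact prod_nonneg fun p _ => inv_nonneg.2 (hm0 p)
    · exact prod_nonneg fun p _ => inv_nonneg.2 (by linarith [hm p])

/-- Cauchy-Schwarz (Chung-Erdős inequality with weights `1/μ(E i)`) -/
lemma chung_erdos [IsProbabilityMeasure μ] {ι : Type*} (G : Finset ι) (E : ι → Set Ω)
    (hE : ∀ i ∈ G, MeasurableSet (E i)) (hpos : ∀ i ∈ G, 0 < μ.real (E i)) (R : ι → ι → ℝ)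
    (hR : ∀ i ∈ G, ∀ j ∈ G, μ.real (E i ∩ E j) ≤ μ.real (E i) * μ.real (E j) * R i j) :
    (G.card : ℝ) ^ 2 ≤ μ.real (⋃ i ∈ G, E i) * ∑ i ∈ G, ∑ j ∈ G, R i j := by
  classical
  set U : Set Ω := ⋃ i ∈ G, E i with hU
  have hUm : MeasurableSet U := Finset.measurableSet_biUnion _ hE
  set f : Ω → ℝ := fun ω => ∑ i ∈ G, (μ.real (E i))⁻¹ * (E i).indicator 1 ω with hf
  have hfm : Measurable f := by
    refine Finset.measurable_sum _ fun i hi => ?_
    exact (measurable_one.indicator (hE i hi)).const_mul _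
  have hint : ∀ i ∈ G, Integrable ((E i).indicator (1 : Ω → ℝ)) μ := fun i hi =>
    (integrable_const (1 : ℝ)).indicator (hE i hi)
  have h1 : ∫ ω, f ω ∂μ = G.card := by
    rw [hf, integral_finsetSum _ fun i hi => (hint i hi).const_mul _, card_eq_sum_ones]
    push_cast
    refine sum_congr rfl fun i hi => ?_
    rw [integral_const_mul, integral_indicator_one (hE i hi)]
    exact inv_mul_cancel₀ (hpos i hi).ne'
  have h2 : ∫ ω, f ω ^ 2 ∂μ ≤ ∑ i ∈ G, ∑ j ∈ G, R i j := by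
    have e1 : ∀ ω, f ω ^ 2 = ∑ i ∈ G, ∑ j ∈ G, ((μ.real (E i))⁻¹ * (μ.real (E j))⁻¹) *
        (E i ∩ E j).indicator (1 : Ω → ℝ) ω := by
      intro ω
      rw [hf, sq, sum_mul_sum]
      refine sum_congr rfl fun i _ => sum_congr rfl fun j _ => ?_
      rw [Set.inter_indicator_one, Pi.mul_apply]
      ring
    have e2 : ∫ ω, f ω ^ 2 ∂μ = ∑ i ∈ G, ∑ j ∈ G, ((μ.real (E i))⁻¹ * (μ.real (E j))⁻¹) *
        μ.real (E i ∩ E j) := by
      simp_rw [e1]
      rw [integral_finsetSum]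
      · refine sum_congr rfl fun i hi => ?_
        rw [integral_finsetSum]
        · refine sum_congr rfl fun j hj => ?_
          rw [integral_const_mul, integral_indicator_one ((hE i hi).inter (hE j hj))]
        · intro j hj
          exact ((integrable_const (1 : ℝ)).indicator ((hE i hi).inter (hE j hj))).const_mul _
      · intro i hi
        refine integrable_finsetSum _ fun j hj => ?_
        exact ((integrable_const (1 : ℝ)).indicator ((hE i hi).inter (hE j hj))).const_mul _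
    rw [e2]
    refine sum_le_sum fun i hi => sum_le_sum fun j hj => ?_
    have e3 := hR i hi j hj
    have e4 := hpos i hi
    have e5 := hpos j hj
    rw [← mul_inv, inv_mul_le_iff₀ (mul_pos e4 e5)]
    exact e3
  have hbd : ∃ C : ℝ, ∀ ω, |f ω| ≤ C := by
    refine ⟨∑ i ∈ G, (μ.real (E i))⁻¹, fun ω => ?_⟩
    refine (Finset.abs_sum_le_sum_abs _ _).trans (sum_le_sum fun i hi => ?_)
    rw [abs_mul, abs_of_pos (inv_pos.2 (hpos i hi))]
    refine mul_le_of_le_one_right (inv_pos.2 (hpos i hi)).le ?_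
    by_cases h : ω ∈ E i
    · rw [Set.indicator_of_mem h]
      simp
    · rw [Set.indicator_of_notMem h]
      simp
  obtain ⟨C, hC⟩ := hbd
  have hf1 : Integrable f μ := Integrable.of_bound hfm.aestronglyMeasurable C
    (Filter.Eventually.of_forall fun ω => hC ω)
  have hf2 : Integrable (fun ω => f ω ^ 2) μ := by
    refine Integrable.of_bound (hfm.pow_const 2).aestronglyMeasurable (C ^ 2)
      (Filter.Eventually.of_forall fun ω => ?_)
    rw [Real.norm_eq_abs, abs_pow]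
    exact pow_le_pow_left₀ (abs_nonneg _) (hC ω) 2
  have hfU : ∀ ω, f ω = f ω * U.indicator 1 ω := by
    intro ω
    by_cases h : ω ∈ U
    · rw [Set.indicator_of_mem h, Pi.one_apply, mul_one]
    · have h3 : f ω = 0 := by
        refine sum_eq_zero fun i hi => ?_
        have : ω ∉ E i := fun h4 => h (Set.mem_biUnion hi h4)
        rw [Set.indicator_of_notMem this, mul_zero]
      rw [h3, zero_mul]
  -- the quadratic function `∫ (f - t 1_U)²`
  have h3 : ∀ t : ℝ, 0 ≤ (∫ ω, f ω ^ 2 ∂μ) - 2 * t * G.card + t ^ 2 * μ.real U := by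
    intro t
    have e1 : ∀ ω, (f ω - t * U.indicator 1 ω) ^ 2
        = f ω ^ 2 - 2 * t * f ω + t ^ 2 * U.indicator (1 : Ω → ℝ) ω := by
      intro ω
      have e2 : (U.indicator (1 : Ω → ℝ) ω) ^ 2 = U.indicator (1 : Ω → ℝ) ω := by
        by_cases h : ω ∈ U
        · rw [Set.indicator_of_mem h]
          simp
        · rw [Set.indicator_of_notMem h]
          simp
      calc (f ω - t * U.indicator 1 ω) ^ 2
          = f ω ^ 2 - 2 * t * (f ω * U.indicator 1 ω) + t ^ 2 * (U.indicator (1 : Ω → ℝ) ω) ^ 2 := by ring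
        _ = _ := by rw [← hfU ω, e2]
    have e2 : 0 ≤ ∫ ω, (f ω - t * U.indicator 1 ω) ^ 2 ∂μ := integral_nonneg fun ω => sq_nonneg _
    have e3 : Integrable (U.indicator (1 : Ω → ℝ)) μ := (integrable_const (1 : ℝ)).indicator hUm
    simp_rw [e1] at e2
    have e4 : ∫ ω, (f ω ^ 2 - 2 * t * f ω + t ^ 2 * U.indicator (1 : Ω → ℝ) ω) ∂μ
        = (∫ ω, f ω ^ 2 ∂μ) - 2 * t * G.card + t ^ 2 * μ.real U := by
      have e5 := integral_add (μ := μ) (f := fun ω => f ω ^ 2 - 2 * t * f ω)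
        (g := fun ω => t ^ 2 * U.indicator (1 : Ω → ℝ) ω) (hf2.sub (hf1.const_mul _)) (e3.const_mul _)
      have e6 := integral_sub (μ := μ) (f := fun ω => f ω ^ 2) (g := fun ω => 2 * t * f ω) hf2 (hf1.const_mul _)
      rw [e5, e6, integral_const_mul, integral_const_mul, h1, integral_indicator_one hUm]
    rw [e4] at e2
    exact e2
  have hU0 : 0 ≤ μ.real U := measureReal_nonneg
  have hF0 : 0 ≤ ∫ ω, f ω ^ 2 ∂μ := integral_nonneg fun ω => sq_nonneg _
  have h4 : (G.card : ℝ) ^ 2 ≤ μ.real U * ∫ ω, f ω ^ 2 ∂μ := by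
    rcases hU0.eq_or_lt with h5 | h5
    · -- `μ U = 0`
      have h6 : (G.card : ℝ) = 0 := by
        by_contra hne
        have h7 : (0 : ℝ) < G.card := lt_of_le_of_ne (Nat.cast_nonneg _) (Ne.symm hne)
        have h8 := h3 ((∫ ω, f ω ^ 2 ∂μ + 1) / (2 * G.card))
        rw [← h5] at h8
        have key : ∀ F c : ℝ, c ≠ 0 → 2 * ((F + 1) / (2 * c)) * c = F + 1 := by
          intro F c hc
          field_simp
        have h9 := key (∫ ω, f ω ^ 2 ∂μ) (G.card : ℝ) hne
        linarith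
      rw [h6, ← h5, zero_mul]
      norm_num
    · have h6 := h3 (G.card / μ.real U)
      have h7 : 2 * ((G.card : ℝ) / μ.real U) * G.card = 2 * (G.card : ℝ) ^ 2 / μ.real U := by ring
      have key : ∀ c u : ℝ, u ≠ 0 → (c / u) ^ 2 * u = c ^ 2 / u := by
        intro c u hu
        field_simp
      have h8 := key (G.card : ℝ) (μ.real U) h5.ne'
      rw [h7, h8] at h6
      have h9 : (G.card : ℝ) ^ 2 / μ.real U ≤ ∫ ω, f ω ^ 2 ∂μ := by
        have : 2 * (G.card : ℝ) ^ 2 / μ.real U = 2 * ((G.card : ℝ) ^ 2 / μ.real U) := by ring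
        linarith
      rw [div_le_iff₀ h5] at h9
      linarith
  exact h4.trans (mul_le_mul_of_nonneg_left h2 hU0)

/-- the second moment method: infinitely many of the events `Ev S (A n) (B n)` occur -/
theorem io [IsProbabilityMeasure μ] (S : ℕ → Set Ω) (hS : ∀ p, MeasurableSet (S p))
    (hind : iIndepSet S μ) (A B : ℕ → Finset ℕ) (W : ℝ → ℕ → Finset ℕ → Prop)
    (hW : ∀ ζ X G, W ζ X G → (∀ n ∈ G, X ≤ n) ∧ (∀ n ∈ G, Disjoint (A n) (B n)) ∧
      (∀ n ∈ G, ∀ p ∈ A n, 0 < μ.real (S p)) ∧ (∀ n ∈ G, ∀ p ∈ B n, μ.real (S p) < 1) ∧ 0 < G.card ∧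
      ∑ n ∈ G, ∑ m ∈ G, ((∏ p ∈ A n ∩ A m, (μ.real (S p))⁻¹) * ∏ p ∈ B n ∩ B m, (1 - μ.real (S p))⁻¹)
        ≤ (1 + ζ) * (G.card : ℝ) ^ 2)
    (hex : ∀ ζ : ℝ, 0 < ζ → ∀ X : ℕ, ∃ G, W ζ X G) :
    ∀ᵐ ω ∂μ, {n : ℕ | ω ∈ Ev S (A n) (B n)}.Infinite := by
  set U : ℕ → Set Ω := fun X => ⋃ n ∈ Set.Ici X, Ev S (A n) (B n) with hU
  have hUm : ∀ X, MeasurableSet (U X) := fun X =>
    MeasurableSet.biUnion (Set.to_countable _) fun n _ => measurableSet_Ev S hS _ _
  have h1 : ∀ X, μ.real (U X) = 1 := by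
    intro X
    refine le_antisymm measureReal_le_one ?_
    refine le_of_forall_pos_lt_add fun ζ hζ => ?_
    obtain ⟨G, hG⟩ := hex ζ hζ X
    obtain ⟨g1, g2, g3, g4, g5, g6⟩ := hW ζ X G hG
    have e1 := chung_erdos (μ := μ) G (fun n => Ev S (A n) (B n)) (fun n _ => measurableSet_Ev S hS _ _)
      (fun n hn => by
        rw [meas_Ev S hS hind _ _ (g2 n hn)]
        refine mul_pos (prod_pos fun p hp => g3 n hn p hp) (prod_pos fun p hp => ?_)
        linarith [g4 n hn p hp])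
      (fun n m => (∏ p ∈ A n ∩ A m, (μ.real (S p))⁻¹) * ∏ p ∈ B n ∩ B m, (1 - μ.real (S p))⁻¹)
      (fun n hn m hm => inter_le S hS hind _ _ _ _ (g2 n hn) (g2 m hm)
        (fun p hp => g3 n hn p (Finset.mem_inter.1 hp).1)
        (fun p hp => g4 n hn p (Finset.mem_inter.1 hp).1))
    have e0 : (⋃ n ∈ G, Ev S (A n) (B n)) ⊆ U X := by
      refine Set.iUnion₂_subset fun n hn => ?_
      exact Set.subset_biUnion_of_mem (u := fun n => Ev S (A n) (B n)) (g1 n hn)
    have e2 : μ.real (⋃ n ∈ G, Ev S (A n) (B n)) ≤ μ.real (U X) := measureReal_mono e0 (measure_ne_top _ _)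
    have hc : (0 : ℝ) < G.card := by exact_mod_cast g5
    have e3 : (G.card : ℝ) ^ 2 ≤ μ.real (U X) * ((1 + ζ) * (G.card : ℝ) ^ 2) := by
      refine e1.trans ?_
      refine mul_le_mul e2 g6 ?_ measureReal_nonneg
      refine sum_nonneg fun n hn => sum_nonneg fun m _ => mul_nonneg (prod_nonneg fun p hp => ?_)
        (prod_nonneg fun p hp => ?_)
      · exact inv_nonneg.2 (g3 n hn p (Finset.mem_inter.1 hp).1).le
      · have := g4 n hn p (Finset.mem_inter.1 hp).1
        exact inv_nonneg.2 (by linarith)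
    have e4 : 1 ≤ μ.real (U X) * (1 + ζ) := by
      have h5 : 0 < (G.card : ℝ) ^ 2 := by positivity
      by_contra hcon
      push Not at hcon
      have := mul_lt_mul_of_pos_right hcon h5
      linarith
    have e5 : μ.real (U X) ≤ 1 := measureReal_le_one
    nlinarith
  have h2 : ∀ᵐ ω ∂μ, ∀ X, ω ∈ U X := by
    rw [ae_all_iff]
    intro X
    refine (mem_ae_iff_prob_eq_one (hUm X)).2 ?_
    have h3 := h1 X
    rw [Measure.real, ENNReal.toReal_eq_one_iff] at h3
    exact h3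
  filter_upwards [h2] with ω hω
  rw [Set.infinite_iff_exists_gt]
  intro a
  have := hω (a + 1)
  rw [hU] at this
  simp only [Set.mem_iUnion, Set.mem_Ici] at this
  obtain ⟨n, hn, hω'⟩ := this
  exact ⟨n, hω', by omega⟩

end ProbM

end Pool.Agent.Lib.MP_3efbeb_nt.T
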