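import Pool.Agent.Lib.MP_3efbeb_nt.T.Spec

/-!
# T: RING, prime elements of `ℤ[1/S]`
-/

set_option autoImplicit false

namespace Pool.Agent.Lib.MP3efbeb.T

open Finset
open scoped Classical

namespace RINGM

/-- no prime outside `S` divides an element of the multiplicative set generated by `S` -/
lemma not_dvd {S : Set ℕ} (hS : ∀ p ∈ S, p.Prime) {P : ℕ} (hP : P.Prime) (hPS : P ∉ S) {x : ℤ} (hx : x ∈ RS S) :
    ¬ (P : ℤ) ∣ x := by
  unfold RS at hx
  induction hx using Submonoid.closure_induction with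
  | mem y hy =>
    obtain ⟨q, hq, rfl⟩ := hy
    intro hd
    have h1 : P ∣ q := Int.natCast_dvd_natCast.1 hd
    have h2 := (Nat.prime_dvd_prime_iff_eq hP (hS q hq)).1 h1
    exact hPS (h2 ▸ hq)
  | one =>
    intro hd
    have h1 : P ∣ 1 := by exact_mod_cast hd
    exact hP.one_lt.ne' (Nat.dvd_one.1 h1)
  | mul y z _ _ hy hz =>
    intro hd
    exact ((Nat.prime_iff_prime_int.1 hP).dvd_or_dvd hd).elim hy hz

lemma zero_notMem {S : Set ℕ} (hS : ∀ p ∈ S, p.Prime) : (0 : ℤ) ∉ RS S := by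
  intro h
  -- all elements are nonzero
  have key : ∀ x ∈ RS S, x ≠ 0 := by
    intro x hx
    unfold RS at hx
    induction hx using Submonoid.closure_induction with
    | mem y hy =>
      obtain ⟨q, hq, rfl⟩ := hy
      show (q : ℤ) ≠ 0
      exact_mod_cast (hS q hq).ne_zero
    | one => exact one_ne_zero
    | mul y z _ _ hy hz => exact mul_ne_zero hy hz
  exact key 0 h rfl

lemma RS_le {S : Set ℕ} (hS : ∀ p ∈ S, p.Prime) : RS S ≤ nonZeroDivisors ℤ := by
  intro x hx
  rw [mem_nonZeroDivisors_iff_ne_zero]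
  rintro rfl
  exact zero_notMem hS hx

lemma prod_mem_RS {S : Set ℕ} (T : Finset ℕ) (hT : ∀ q ∈ T, q ∈ S) : ((∏ q ∈ T, q : ℕ) : ℤ) ∈ RS S := by
  rw [Nat.cast_prod]
  refine Submonoid.prod_mem _ fun q hq => ?_
  exact Submonoid.subset_closure ⟨q, hT q hq, rfl⟩

/-- a prime outside `S` times an element of the multiplicative set -/
lemma prime_mul {S : Set ℕ} (hS : ∀ p ∈ S, p.Prime) {P : ℕ} (hP : P.Prime) (hPS : P ∉ S) {d : ℤ} (hd : d ∈ RS S) :
    Prime (algebraMap ℤ (Localization (RS S)) ((P : ℤ) * d)) := by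
  have h1 : IsUnit (algebraMap ℤ (Localization (RS S)) d) :=
    IsLocalization.map_units (Localization (RS S)) (⟨d, hd⟩ : RS S)
  rw [map_mul]
  have h2 : Associated (algebraMap ℤ (Localization (RS S)) (P : ℤ))
      (algebraMap ℤ (Localization (RS S)) (P : ℤ) * algebraMap ℤ (Localization (RS S)) d) :=
    ⟨h1.unit, rfl⟩
  rw [← h2.prime_iff]
  have hinj : Function.Injective (algebraMap ℤ (Localization (RS S))) :=
    IsLocalization.injective _ (RS_le hS)
  have hP0 : (P : ℤ) ≠ 0 := by exact_mod_cast hP.ne_zero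
  have h3 : (Ideal.span {(P : ℤ)}).IsPrime := (Ideal.span_singleton_prime hP0).2 (Nat.prime_iff_prime_int.1 hP)
  have h4 : Disjoint (RS S : Set ℤ) (Ideal.span {(P : ℤ)} : Ideal ℤ) := by
    rw [Set.disjoint_left]
    intro x hx hxP
    exact not_dvd hS hP hPS hx (Ideal.mem_span_singleton.1 hxP)
  have h5 := IsLocalization.isPrime_of_isPrime_disjoint (RS S) (Localization (RS S)) _ h3 h4
  rw [Ideal.map_span, Set.image_singleton] at h5
  refine (Ideal.span_singleton_prime ?_).1 h5
  intro h6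
  exact hP0 (hinj (by rw [h6, map_zero]))

lemma prime_of_prime {S : Set ℕ} (hS : ∀ p ∈ S, p.Prime) {P : ℕ} (hP : P.Prime) (hPS : P ∉ S) : PrimeIn S P := by
  have h := prime_mul hS hP hPS (Submonoid.one_mem (RS S))
  rw [mul_one] at h
  exact h

/-- prime elements of `ℤ[1/∅]` -/
lemma primeIn_empty {n : ℕ} (h : PrimeIn ∅ n) : n.Prime := by
  have hM : RS ∅ ≤ IsUnit.submonoid ℤ := by
    unfold RS
    rw [Set.image_empty, Submonoid.closure_empty]
    exact bot_le
  have e := IsLocalization.atUnits ℤ (RS ∅) (S := Localization (RS ∅)) hM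
  unfold PrimeIn at h
  have h1 : e (n : ℤ) = algebraMap ℤ (Localization (RS ∅)) (n : ℤ) := e.commutes (n : ℤ)
  rw [← h1] at h
  exact Nat.prime_iff_prime_int.2 ((MulEquiv.prime_iff e).1 h)

end RINGM

open RINGM

theorem specRING : SpecRING := by
  intro S n hS hn hsq hcof hgpf
  have hmem : gpf n ∈ n.primeFactors := by
    have hne : n.primeFactors.Nonempty := Nat.nonempty_primeFactors.2 (by omega)
    obtain ⟨p, hp, h⟩ := Finset.exists_mem_eq_sup _ hne id
    unfold gpf
    rw [h]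
    exact hp
  have h1 : n = gpf n * ∏ q ∈ cofP n, q := by
    unfold cofP
    rw [Finset.mul_prod_erase n.primeFactors (fun q => q) hmem]
    exact (Nat.prod_primeFactors_of_squarefree hsq).symm
  have h2 := prime_mul hS (Nat.prime_of_mem_primeFactors hmem) hgpf (prod_mem_RS (cofP n) hcof)
  unfold PrimeIn
  rw [← Nat.cast_mul, ← h1] at h2
  exact h2

end Pool.Agent.Lib.MP3efbeb.T
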