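import Pool.Agent.Lib.MP_3efbeb_nt.T.Spec
import Pool.Agent.Lib.MP_1446ad_nt.SM.MRA

/-!
# Module SG: the sum of the reciprocals of the primes in `BP a x`
-/

set_option autoImplicit false

namespace Pool.Agent.Lib.MP3efbeb.T

open Finset
open scoped Classical
open Pool.Agent.Lib.MP391708.QPA (PB rInd Rough)

namespace SGM

open Pool.Agent.Lib.MP_1446ad_nt.SM

theorem BP_eq {a : ℝ} (ha : 0 < a) (ha1 : a ≤ 1 / 4) {x : ℕ} (hx : 1 ≤ x) :
    BP a x = (Ioc ⌊(x : ℝ) ^ (1 - a)⌋₊ ⌊(x : ℝ) ^ (1 - a / 2)⌋₊).filter Nat.Prime := by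
  have hx1 : (1 : ℝ) ≤ x := by exact_mod_cast hx
  ext P
  unfold BP
  rw [mem_filter, mem_filter, mem_Icc, mem_Ioc, Nat.floor_lt (by positivity),
    Nat.le_floor_iff (by positivity)]
  constructor
  · rintro ⟨_, h1, h2, h3⟩
    exact ⟨⟨h2, h3⟩, h1⟩
  · rintro ⟨⟨h2, h3⟩, h1⟩
    refine ⟨⟨h1.pos, ?_⟩, h1, h2, h3⟩
    have h4 : (x : ℝ) ^ (1 - a / 2) ≤ (x : ℝ) ^ (1 : ℝ) :=
      Real.rpow_le_rpow_of_exponent_le hx1 (by linarith)
    rw [Real.rpow_one] at h4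
    exact_mod_cast h3.trans h4

/-- `log ⌊y⌋ ≥ log y - 1` -/
theorem log_floor {y : ℝ} (hy : 1 ≤ y) :
    Real.log y - 1 ≤ Real.log ⌊y⌋₊ ∧ Real.log ⌊y⌋₊ ≤ Real.log y := by
  have h1 : 1 ≤ ⌊y⌋₊ := Nat.le_floor (by exact_mod_cast hy)
  have h2 : (1 : ℝ) ≤ ⌊y⌋₊ := by exact_mod_cast h1
  have h3 : y < ⌊y⌋₊ + 1 := Nat.lt_floor_add_one y
  refine ⟨?_, Real.log_le_log (by linarith) (Nat.floor_le (by linarith))⟩
  have h4 : Real.log y ≤ Real.log (2 * ⌊y⌋₊) := Real.log_le_log (by linarith) (by linarith)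
  rw [Real.log_mul (by norm_num) (by linarith)] at h4
  have h5 : Real.log 2 ≤ 1 := by
    have := Real.log_two_lt_d9
    linarith
  linarith

theorem sum_log {C : ℝ} (hM : ∀ N : ℕ, 1 ≤ N →
    |(∑ p ∈ (Ioc 0 N).filter Nat.Prime, Real.log p / (p : ℝ)) - Real.log N| ≤ C)
    {a : ℝ} (ha : 0 < a) (ha1 : a ≤ 1 / 4) {x : ℕ} (hx : 1 ≤ x) :
    |(∑ P ∈ BP a x, Real.log P / (P : ℝ)) - a / 2 * Real.log x| ≤ 2 * C + 1 := by
  have hx1 : (1 : ℝ) ≤ x := by exact_mod_cast hx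
  rw [BP_eq ha ha1 hx]
  set y1 := (x : ℝ) ^ (1 - a) with hy1
  set y2 := (x : ℝ) ^ (1 - a / 2) with hy2
  have hy1' : 1 ≤ y1 := Real.one_le_rpow hx1 (by linarith)
  have hy12 : y1 ≤ y2 := Real.rpow_le_rpow_of_exponent_le hx1 (by linarith)
  have hf1 : 1 ≤ ⌊y1⌋₊ := Nat.le_floor (by exact_mod_cast hy1')
  have hf12 : ⌊y1⌋₊ ≤ ⌊y2⌋₊ := Nat.floor_mono hy12
  have h1 := log_floor hy1'
  have h2 := log_floor (hy1'.trans hy12)
  have h3 : Real.log y1 = (1 - a) * Real.log x := Real.log_rpow (by linarith) _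
  have h4 : Real.log y2 = (1 - a / 2) * Real.log x := Real.log_rpow (by linarith) _
  have h5 := abs_le.1 (hM ⌊y1⌋₊ hf1)
  have h6 := abs_le.1 (hM ⌊y2⌋₊ (hf1.trans hf12))
  have h7 : ∑ p ∈ (Ioc ⌊y1⌋₊ ⌊y2⌋₊).filter Nat.Prime, Real.log p / (p : ℝ) =
      (∑ p ∈ (Ioc 0 ⌊y2⌋₊).filter Nat.Prime, Real.log p / (p : ℝ)) -
        ∑ p ∈ (Ioc 0 ⌊y1⌋₊).filter Nat.Prime, Real.log p / (p : ℝ) := by
    rw [eq_sub_iff_add_eq, sum_filter, sum_filter, sum_filter, add_comm]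
    exact sum_Ioc_consecutive _ (Nat.zero_le _) hf12
  rw [h7, abs_le]
  constructor <;> linarith

theorem log_mem {a : ℝ} {x : ℕ} (hx : 1 ≤ x) {P : ℕ} (hP : P ∈ BP a x) :
    (1 - a) * Real.log x ≤ Real.log P ∧ Real.log P ≤ (1 - a / 2) * Real.log x := by
  have hx1 : (0 : ℝ) < x := by exact_mod_cast hx
  unfold BP at hP
  rw [mem_filter] at hP
  obtain ⟨_, h1, h2, h3⟩ := hP
  have hP0 : (0 : ℝ) < P := by exact_mod_cast h1.pos
  rw [← Real.log_rpow hx1, ← Real.log_rpow hx1]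
  exact ⟨Real.log_le_log (by positivity) h2.le, Real.log_le_log hP0 h3⟩

end SGM

open SGM in
/-- SG. -/
theorem specSG : SpecSG := by
  intro a ha ha1
  obtain ⟨C, hC, hM⟩ := Pool.Agent.Lib.MP_1446ad_nt.SM.specMRA
  refine ⟨⌈Real.exp (4 * (2 * C + 1) / a)⌉₊ + 2, fun x hx => ?_⟩
  have hx2 : 2 ≤ x := by omega
  have hx1 : (0 : ℝ) < x := by
    have : 0 < x := by omega
    exact_mod_cast this
  have hL : 4 * (2 * C + 1) / a ≤ Real.log x := by
    rw [Real.le_log_iff_exp_le hx1]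
    have h1 : Real.exp (4 * (2 * C + 1) / a) ≤ (⌈Real.exp (4 * (2 * C + 1) / a)⌉₊ : ℝ) := Nat.le_ceil _
    refine h1.trans ?_
    have h2 : ⌈Real.exp (4 * (2 * C + 1) / a)⌉₊ ≤ x := by omega
    exact_mod_cast h2
  have hL0 : 0 < Real.log x := lt_of_lt_of_le (by positivity) hL
  have hL' : 4 * (2 * C + 1) ≤ a * Real.log x := by
    rw [div_le_iff₀ ha] at hL
    linarith
  have hS := abs_le.1 (sum_log hM ha ha1 (x := x) (by omega))
  unfold sg
  constructor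
  · have h1 : ∑ P ∈ BP a x, Real.log P / (P : ℝ) / Real.log x ≤ ∑ P ∈ BP a x, 1 / (P : ℝ) := by
      refine sum_le_sum fun P hP => ?_
      have h2 := log_mem (by omega) hP
      have h3 : Real.log P / (P : ℝ) / Real.log x = Real.log P / Real.log x * (1 / (P : ℝ)) := by
        ring
      rw [h3]
      refine mul_le_of_le_one_left (by positivity) ((div_le_one hL0).2 ?_)
      nlinarith
    rw [← sum_div] at h1
    refine le_trans ?_ h1
    rw [le_div_iff₀ hL0]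
    linarith
  · have h1 : ∑ P ∈ BP a x, 1 / (P : ℝ) ≤
        ∑ P ∈ BP a x, Real.log P / (P : ℝ) / (3 / 4 * Real.log x) := by
      refine sum_le_sum fun P hP => ?_
      have h2 := log_mem (by omega) hP
      have h3 : Real.log P / (P : ℝ) / (3 / 4 * Real.log x) =
          Real.log P / (3 / 4 * Real.log x) * (1 / (P : ℝ)) := by ring
      rw [h3]
      refine le_mul_of_one_le_left (by positivity) ((one_le_div (by positivity)).2 ?_)
      nlinarith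
    rw [← sum_div] at h1
    refine h1.trans ?_
    rw [div_le_iff₀ (by positivity)]
    linarith

end Pool.Agent.Lib.MP3efbeb.T
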