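import Pool.Agent.Lib.MP_3efbeb_nt.Odd.Spec
import Pool.Agent.Lib.MP_d1f1b5_nt.TB.Spec

/-!
# MP_3efbeb_nt, line T: prime triples in almost every ring `ℤ[1/S]` (exact Specs with proofs)

**Theorem.** Let the primes be inverted independently, `p` with probability `ε_p`. (1) If `δ/p ≤ ε_p ≤ 1 - δ` for all large
`p`, then almost surely for every admissible triple of shifts there are infinitely many `n` with all `n + h` prime in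
`ℤ[1/S]`. (2) If `∑ ε_p < ∞` and all `ε_p < 1`, the same for `(0,2,6)` holds almost surely iff Q1.

Shifts `0 < s < t`, the numbers are `m, m + s, m + t`, `m ∈ (x, 2x]`, `m = b mod 30`, `z = x^η`,
`m = a P` with a prime `P ∈ (x^(1-a₀), x^(1-a₀/2)]`. `a₀` is written `a`.

Every module: file `T/<NAME>.lean`, theorem `specNAME (hXX : SpecXX) .. : SpecNAME` in the namespace
`Pool.Agent.Lib.MP3efbeb.T`, own lemmas in `Pool.Agent.Lib.MP3efbeb.T.<NAME>M`.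
-/

set_option autoImplicit false

namespace Pool.Agent.Lib.MP3efbeb.T

open Finset
open scoped Classical
open Pool.Agent.Lib.MP391708.QPA (PB rInd Rough)

noncomputable section

/-! ## Definitions -/

/-- `m (m+s) (m+t)` -/
def Pi3 (s t m : ℕ) : ℕ := m * (m + s) * (m + t)

/-- number of classes `r` modulo `p` with `p ∣ r (r+s) (r+t)` -/
def nu (s t p : ℕ) : ℕ := ((range p).filter (fun r => p ∣ Pi3 s t r)).card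

/-- the sieve density, `0` at `2, 3, 5` -/
def gg (s t p : ℕ) : ℝ := if p ≤ 5 then 0 else (nu s t p : ℝ) / p

/-- `∏_{p < z} (1 - g(p))` -/
def GG (s t : ℕ) (z : ℝ) : ℝ := ∏ p ∈ PB z, (1 - gg s t p)

/-- admissible data -/
def Adm (s t b : ℕ) : Prop := 0 < s ∧ s < t ∧ b < 30 ∧ Nat.Coprime (Pi3 s t b) 30

/-- the primes in `(x^(1-a), x^(1-a/2)]` -/
def BP (a : ℝ) (x : ℕ) : Finset ℕ :=
  (Icc 1 x).filter (fun P => P.Prime ∧ (x : ℝ) ^ (1 - a) < P ∧ (P : ℝ) ≤ (x : ℝ) ^ (1 - a / 2))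

/-- `∑ 1/P` -/
def sg (a : ℝ) (x : ℕ) : ℝ := ∑ P ∈ BP a x, 1 / (P : ℝ)

/-- the `m ∈ (x, 2x]`, `m = b mod 30`, with a prime factor in `BP a x` -/
def MM (b : ℕ) (a : ℝ) (x : ℕ) : Finset ℕ :=
  (Ioc x (2 * x)).filter (fun m => m % 30 = b ∧ ∃ P ∈ BP a x, P ∣ m)

/-- those with `m (m+s) (m+t)` free of prime factors `< x^η` -/
def PP (s t b : ℕ) (a η : ℝ) (x : ℕ) : Finset ℕ :=
  (MM b a x).filter (fun m => Rough ((x : ℝ) ^ η) (Pi3 s t m))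

/-- expected number of rough triples in `(x, 2x]` in the class `b mod 30` -/
def N0 (s t : ℕ) (η : ℝ) (x : ℕ) : ℝ := (x : ℝ) / 30 * GG s t ((x : ℝ) ^ η)

/-- largest prime factor (`0` for `m ≤ 1`) -/
def gpf (m : ℕ) : ℕ := m.primeFactors.sup id

/-- the other prime factors -/
def cofP (m : ℕ) : Finset ℕ := m.primeFactors.erase (gpf m)

/-- the primes that must be inverted -/
def cof (s t m : ℕ) : Finset ℕ := cofP m ∪ cofP (m + s) ∪ cofP (m + t)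

/-- the primes that must not be inverted -/
def top (s t m : ℕ) : Finset ℕ := {gpf m, gpf (m + s), gpf (m + t)}

/-- the correlation factor -/
def RR (s t : ℕ) (δ : ℝ) (m n : ℕ) : ℝ :=
  if Disjoint (Pi3 s t m).primeFactors (Pi3 s t n).primeFactors then 1
  else (1 / δ) ^ 3 * ∏ q ∈ cof s t m ∩ cof s t n, ((q : ℝ) / δ)

/-! ## Group N: counting -/

/-- CL (no hypotheses). Classes. For `x ≥ 5` every `m ∈ MM` has exactly one prime factor in `BP a x` (`> x^(3/4)`).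
For `P ∈ BP`, `P ∤ 30 M` (as `P > x^(3/4) ≥ M`, `P > 30`): the `c ∈ (x/P, 2x/P]` with `cP = b mod 30`, `cP mod M ∈ R` form
`|R|` classes modulo `30 M` (CRT, `P` is invertible): their number is `|R| x/(30 M P)` up to `|R|`. Sum over `P`,
`|BP| ≤ x^(1-a/2)`. -/
def SpecCL : Prop := ∀ a : ℝ, 0 < a → a ≤ 1 / 4 → ∃ X₀ : ℕ, ∀ x : ℕ, X₀ ≤ x → ∀ b : ℕ, b < 30 → Nat.Coprime b 30 →
  ∀ M : ℕ, 1 ≤ M → Nat.Coprime M 30 → (M : ℝ) ≤ (x : ℝ) ^ (3 / 4 : ℝ) → ∀ R : Finset ℕ, R ⊆ range M →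
  |(((MM b a x).filter (fun m => m % M ∈ R)).card : ℝ) - (x : ℝ) / 30 * sg a x * ((R.card : ℝ) / M)|
    ≤ 2 * R.card * (x : ℝ) ^ (1 - a / 2)

/-- LB (from `Odd.SpecFLK`, CL, GL, SG). FLK with `κ = 3`, `S = MM`, `om = 1`, `v = Pi3 s t`, `g = gg s t` (`nu ≤ 3`,
`3/7 ≤ 1/2`), `X = (x/30) sg`, `b` with `C e^(-b) ≤ κ/2`. `δ` not coprime to `30`: both terms are `0` (`m = b mod 30`).
Otherwise CL with `M = δ`, `R = {r < δ : δ ∣ Pi3 s t r}`, `#R = ∏ nu ≤ δ`. The error sum is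
`≤ C (1+log x) (z^(8b+16))² 2 x^(1-a/2)`, negligible if `η (16b+32) ≤ a/8`, because
`sg N0 ≥ (a/4) (x/30) c/(log x)^3`. -/
def SpecLB : Prop := ∀ s t b : ℕ, Adm s t b → ∀ a κ : ℝ, 0 < a → a ≤ 1 / 4 → 0 < κ → ∃ η₀ : ℝ, 0 < η₀ ∧
  ∀ η : ℝ, 0 < η → η ≤ η₀ → ∃ X₀ : ℕ, ∀ x : ℕ, X₀ ≤ x →
    (1 - κ) * (sg a x * N0 s t η x) ≤ ((PP s t b a η x).card : ℝ)

/-- A1 (from `Odd.SpecFLK`, CL, GL, SG). As LB with `S = {m ∈ MM : q ∣ m + u}`, `X = (x/30) sg/q`, `M = q δ`,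
`R = {r < qδ : q ∣ r + u, δ ∣ Pi3 s t r}`, `#R = ∏_{p ∣ δ} nu` (`q ≥ z` is coprime to `δ`). -/
def SpecA1 : Prop := ∀ s t b : ℕ, Adm s t b → ∀ a κ : ℝ, 0 < a → a ≤ 1 / 4 → 0 < κ → ∃ η₀ : ℝ, 0 < η₀ ∧
  ∀ η : ℝ, 0 < η → η ≤ η₀ → ∃ X₀ : ℕ, ∀ x : ℕ, X₀ ≤ x → ∀ u ∈ ({s, t} : Finset ℕ), ∀ q : ℕ, q.Prime →
    (x : ℝ) ^ η ≤ q → (q : ℝ) ≤ (x : ℝ) ^ (a / 8) →
    (((PP s t b a η x).filter (fun m => q ∣ m + u)).card : ℝ) ≤ (1 + κ) * (sg a x * N0 s t η x) / q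

/-- A2 (from `Odd.SpecFLK`, CL, GL, SG and `TB.SpecBIL`). The bilinear large sieve. For each `q` FLK as in A1
(`S = {m ∈ MM : q ∣ m+u}`, `X = (x/30) sg/q`); the error terms are
`E(q,δ) = #{m ∈ MM : q ∣ m+u, δ ∣ Pi3 m} - X g(δ)`, `δ ≤ D = z^(8b+16)`. Put `m = cP`, `Q = 30 δ`; for classes
`α, β mod Q` let `T(q) = #{(c,P) : c = α, P = β (Q), x < cP ≤ 2x, q ∣ cP+u}` and `T₀` the same without `q`. Orthogonality: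
`T(q) = (q-1)⁻¹ ∑_χ χ̄(-u) ∑ χ(c)χ(P)`; the principal character gives `T₀/(q-1)` up to the `c` divisible by `q`
(`q < P`), total error `≤ 4x log x/q²`-like (`q ≥ x^(a/8)`); for `χ ≠ 1` cut `P` into dyadic blocks `(K,2K]`,
`M = 2x/K + 1`, and use BIL: `∑_{q ∈ (R,2R]} ∑_{χ≠1} |..| ≤ C(1+log x) √((K+R²)(M+R²)KM)`, and
`√((K+R²)(M+R²)KM)/R ≤ 8 x^(1-ρ)`, `ρ = min(a/8, ε)/2`, for `x^(a/8)/2 ≤ R ≤ x^(1/2-ε)`, `K ≤ x^(1-a/2)`.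
There are `≤ 900 D³` triples `(δ, α, β)`: take `η(24b+48) ≤ ρ/2`. The sum over the classes of `T₀` is
`#{m ∈ MM : δ ∣ Pi3 m}`: CL. -/
def SpecA2 : Prop := ∀ s t b : ℕ, Adm s t b → ∀ a ε κ : ℝ, 0 < a → a ≤ 1 / 4 → 0 < ε → ε ≤ 1 / 8 → 0 < κ →
  ∃ η₀ : ℝ, 0 < η₀ ∧ ∀ η : ℝ, 0 < η → η ≤ η₀ → ∃ X₀ : ℕ, ∀ x : ℕ, X₀ ≤ x → ∀ u ∈ ({s, t} : Finset ℕ), ∀ Q : Finset ℕ,
    (∀ q ∈ Q, q.Prime ∧ (x : ℝ) ^ (a / 8) ≤ q ∧ (q : ℝ) ≤ (x : ℝ) ^ (1 / 2 - ε)) →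
    ∑ q ∈ Q, Real.log q * (((PP s t b a η x).filter (fun m => q ∣ m + u)).card : ℝ)
      ≤ (1 + κ) * (sg a x * N0 s t η x) * (∑ q ∈ Q, Real.log q / q) + κ * (sg a x * N0 s t η x) * Real.log x

/-- AV (from A1, A2, and `Pool.Agent.Lib.MP_1446ad_nt.SM.specMRA`, Mertens). Primes `q < x^η` do not divide
`m + u`; `x^η ≤ q ≤ x^(a/8)`: A1; larger: A2. `∑_{q ≤ x^v} log q/q ≤ v log x + C`. -/
def SpecAV : Prop := ∀ s t b : ℕ, Adm s t b → ∀ a ε κ : ℝ, 0 < a → a ≤ 1 / 4 → 0 < ε → ε ≤ 1 / 8 → 0 < κ →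
  ∃ η₀ : ℝ, 0 < η₀ ∧ ∀ η : ℝ, 0 < η → η ≤ η₀ → ∃ X₀ : ℕ, ∀ x : ℕ, X₀ ≤ x → ∀ u ∈ ({s, t} : Finset ℕ), ∀ v : ℝ,
    0 ≤ v → v ≤ 1 / 2 - ε →
    ∑ q ∈ (Icc 1 x).filter (fun q : ℕ => q.Prime ∧ (q : ℝ) ≤ (x : ℝ) ^ v),
      Real.log q * (((PP s t b a η x).filter (fun m => q ∣ m + u)).card : ℝ)
      ≤ (v + κ) * Real.log x * (sg a x * N0 s t η x)

/-- B (from `Odd.SpecFLK`, GL, `QPA.specRSUM`, a Mertens product). Upper bound for large `q`, constant independent of `a, η`. `m = cP`,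
`c = m/P ∈ [x^(a/2), 2x^a]` is `z`-rough. Fix `c` (`q ∤ c`, otherwise `q ∣ u`): `P = r + 30 q j`, `P ∈ (x/c, 2x/c]`,
`j` in an interval of length `x/(30 c q) ≥ x^(1/5)`. FLK, `κ = 3`, `b = 1`, sieving range `z₁ = x^(1/400)`, with
`v(j) = P ∏_{p < z, p ∣ (cP+s)(cP+t)} p`, `g(p) = gg s t p` for `p < z` (the classes `P = 0, -s/c, -t/c`) and `g(p) = 1/p` for
`z ≤ p < z₁`. The bound is `C (x/(30cq)) GG(z) ∏_{z≤p<z₁}(1-1/p) + C x^(0.13)`, and the last product is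
`≤ C η` (`∏_{p<z₁}(1-1/p) ≤ C/log z₁`: `QPA.specWMER`, and `≥ c/log z` for `p < z`: GL-type). Sum over rough `c`:
`∑ 1/c ≤ C (a log x + 1)/(η log x) ≤ C' a/η` (RSUM). -/
def SpecB : Prop := ∀ s t b : ℕ, Adm s t b → ∃ K : ℝ, 1 ≤ K ∧ ∀ a : ℝ, 0 < a → a ≤ 1 / 8 → ∃ η₀ : ℝ, 0 < η₀ ∧
  ∀ η : ℝ, 0 < η → η ≤ η₀ → ∃ X₀ : ℕ, ∀ x : ℕ, X₀ ≤ x → ∀ u ∈ ({s, t} : Finset ℕ), ∀ q : ℕ, q.Prime →
    (x : ℝ) ^ (1 / 4 : ℝ) ≤ q → (q : ℝ) ≤ (x : ℝ) ^ (5 / 8 : ℝ) →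
    (((PP s t b a η x).filter (fun m => q ∣ m + u)).card : ℝ) ≤ K * a * N0 s t η x / q

/-- GL (no hypotheses; Mertens lower bound): `nu ≤ 3`; `1 - 3/p ≥ (1-1/p)^3 (1 - 7/p^2)` for `p ≥ 7`-like, or directly
`log(1-3/p) ≥ -3/p - 20/p²` and `∑_{p<z} 1/p ≤ log log z + C`. -/
def SpecGL : Prop := ∀ s t : ℕ, ∃ c : ℝ, 0 < c ∧ ∀ z : ℝ, 2 ≤ z → c / Real.log z ^ 3 ≤ GG s t z

/-- SG (from `SM.specMRA`): `∑ log P/P` over `BP` is `(a/2) log x + O(1)`. -/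
def SpecSG : Prop := ∀ a : ℝ, 0 < a → a ≤ 1 / 4 → ∃ X₀ : ℕ, ∀ x : ℕ, X₀ ≤ x → a / 4 ≤ sg a x ∧ sg a x ≤ a

/-- UG (from `Odd.SpecFLK`, a Mertens upper bound for the product). Upper bound sieve in a class. `g ∣ Pi3 s t m`: for each
prime of `g` one of the three factors: `≤ 3^ω(g) ≤ 3^(1/η)` classes modulo `g`; in each of them FLK
(`κ = 3`, `b = 1`, `z' = x^η'`, `η' = min(η, c/100)`, `M = 30 g`, length `x/(30 g) ≥ x^(c/2)`) gives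
`≤ C (x/g) ∏_{p<z'} (1-gg) ≤ C' (x/g)/(log x)^3`. The product bound: `nu s t p = 3` for `p ∤ st(t-s)`. `g = 1` allowed. -/
def SpecUG : Prop := ∀ s t b : ℕ, Adm s t b → ∀ η c : ℝ, 0 < η → 0 < c → c < 1 → ∃ C : ℝ, 0 < C ∧ ∃ X₀ : ℕ, ∀ x : ℕ,
  X₀ ≤ x → ∀ g : ℕ, Squarefree g → Rough ((x : ℝ) ^ η) g → (g : ℝ) ≤ (x : ℝ) ^ (1 - c) →
    (((Ioc x (2 * x)).filter (fun m => m % 30 = b ∧ Rough ((x : ℝ) ^ η) (Pi3 s t m) ∧ g ∣ Pi3 s t m)).card : ℝ)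
      ≤ C * x / (g * Real.log x ^ 3)

/-! ## Group D: the deterministic theorem -/

/-- good elements -/
def Good (s t b : ℕ) (η c : ℝ) (x m : ℕ) : Prop :=
  x < m ∧ m ≤ 2 * x ∧ m % 30 = b ∧ Rough ((x : ℝ) ^ η) (Pi3 s t m) ∧ Squarefree (Pi3 s t m) ∧
    (∏ q ∈ cof s t m, (q : ℝ)) ≤ (x : ℝ) ^ (1 - c)

/-- OV (from AV, B, SG, LB): the mean of `log cofP(m+u)` is strictly less than `(1/2) log x`.
Let `K` be as in B (`K ≥ 1`), `P(.)`, `E` = proportion and mean over `PP`, `u_q = log q/log x`. With SG and LB the bound of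
B is `P(q ∣ m+u) ≤ 8K/q`. `d = 1/(400 K)`, `c* = d²/100`, `ε = c*/(100K)`, `κ = c*/100`.
`X' = ∑_{q ∣ m+u, q ≤ x^(1/2-ε)} u_q`, `v = log(∏ cofP)/log x`, squarefree `m+u`. AV: `E X' ≤ 1/2 - ε + 2κ`.
`P(some prime of (x^(1/2-ε), x^(1/2+ε)]) ≤ 8K·5ε ≤ c*/2`. Without such a prime: `gpf > x^(1/2+ε)` and `v = X'`, or `gpf ≤ x^(1/2-ε)`
and `v = X' - u_gpf`. With such a prime `v ≤ 1/2 + ε + o(1)`. Put `π = P(gpf ≤ x^(1/2-ε))`. If `E X' < 1/2 - c*` done.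
Otherwise, as `X' ≤ 1/2 - d` for `gpf > x^(1/2+d)` and `P(a prime in (x^(1/2-ε), x^(1/2+d)]) ≤ 8K·3(ε+d) ≤ 1/4`,
`1/2 - c* ≤ E X' ≤ π + (1-π)/2 + ε - d (3/4 - π)`, so `π ≥ d/2`; `P(gpf < x^(d/8)) ≤ d/8 + κ` (AV with `v = d/8`: then
`∑_{q ≤ x^(d/8)} u_q ≥ 1`), so `E[u_gpf ; gpf ≤ x^(1/2-ε)] ≥ (d/8)(d/2 - d/4) ≥ 3c*` and `E v ≤ 1/2 - c*`. -/
def SpecOV : Prop := ∀ s t b : ℕ, Adm s t b → ∃ cs : ℝ, 0 < cs ∧ cs ≤ 1 / 8 ∧ ∀ a : ℝ, 0 < a → a ≤ 1 / 8 →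
  ∃ η₀ : ℝ, 0 < η₀ ∧ ∀ η : ℝ, 0 < η → η ≤ η₀ → ∃ X₀ : ℕ, ∀ x : ℕ, X₀ ≤ x → ∀ u ∈ ({s, t} : Finset ℕ),
    ∑ m ∈ (PP s t b a η x).filter (fun m => Squarefree (Pi3 s t m)), ∑ q ∈ cofP (m + u), Real.log q
      ≤ (1 / 2 - cs) * Real.log x * ((PP s t b a η x).card : ℝ)

/-- DET (from OV, LB, SG, GL). `a = cs/4` in OV; `∏ cofP m ≤ 2x^a`. So the mean of `log ∏ cof` over the squarefree elements of `PP`
is `≤ (1 - 2cs + a + o(1)) log x`, and (Markov) a proportion `≥ cs/2` of `PP` has `∏ cof ≤ x^(1-cs)`.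
Not squarefree: `q² ∣ m + u` with `q ≥ x^η`: `≤ ∑ (x/q² + 1) ≤ x^(1-η) + 3√x`, negligible (the three numbers are coprime as their
common primes divide `s`, `t` or `t-s`). `#PP ≥ (1/2)(a/4)(x/30) c/(log x)^3`. -/
def SpecDET : Prop := ∀ s t b : ℕ, Adm s t b → ∃ η c c₁ : ℝ, 0 < η ∧ 0 < c ∧ c < 1 ∧ 0 < c₁ ∧ ∃ X₀ : ℕ, ∀ x : ℕ, X₀ ≤ x →
  c₁ * x / Real.log x ^ 3 ≤ (((Ioc x (2 * x)).filter (fun m => Good s t b η c x m)).card : ℝ)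

/-- PR (from UG). Pairs. Disjoint pairs: `≤ (C x/log³x)²` (UG with `g = 1`). Otherwise let `g > 1` be the product of the common primes;
all primes are `≥ x^η`, `ω(Pi3 m) ≤ 4/η`, so all powers of `1/δ` are bounded. `g ≤ x^(1-c/2)`: `∏_{cof ∩ cof} q ≤ g` and UG:
`∑_g g (C x/(g log³x))² = C² x²/log⁶x ∑ 1/g`, `∑ 1/g ≤ ∏_{x^η ≤ q ≤ 3x} (1+1/q) ≤ C'`. `g > x^(1-c/2)`:
`∏_{cof ∩ cof} q ≤ x^(1-c)`, and for each `m` and each of the `≤ 2^(4/η)` divisors `g` of `Pi3 m` there are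
`≤ 3^(4/η) (x/g + 1) ≤ C x^(c/2)` numbers `n`. -/
def SpecPR : Prop := ∀ s t b : ℕ, Adm s t b → ∀ η c δ : ℝ, 0 < η → 0 < c → c < 1 → 0 < δ → δ ≤ 1 →
  ∃ C : ℝ, 0 < C ∧ ∃ X₀ : ℕ, ∀ x : ℕ, X₀ ≤ x →
    ∑ m ∈ (Ioc x (2 * x)).filter (fun m => Good s t b η c x m),
      ∑ n ∈ (Ioc x (2 * x)).filter (fun m => Good s t b η c x m), RR s t δ m n ≤ C * (x : ℝ) ^ 2 / Real.log x ^ 6

/-- DF (from DET, PR). `J` scales `x_1 < x_2 < ...`, `x_(j+1)^η > 3 x_j + t`, uniform weights `1/(J #N_j)`: the pairs from different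
scales have disjoint supports (`RR = 1`), the others contribute `≤ (C/c₁²)/J`. -/
def SpecDF : Prop := ∀ s t b : ℕ, Adm s t b → ∀ δ κ : ℝ, 0 < δ → δ ≤ 1 → 0 < κ → ∀ N : ℕ,
  ∃ (S : Finset ℕ) (w : ℕ → ℝ), (∀ m, 0 ≤ w m) ∧ ∑ m ∈ S, w m = 1 ∧
    (∀ m ∈ S, N ≤ m ∧ Squarefree (Pi3 s t m) ∧ ∀ p : ℕ, p.Prime → p ∣ Pi3 s t m → N ≤ p) ∧
    ∑ m ∈ S, ∑ n ∈ S, w m * w n * RR s t δ m n ≤ 1 + κ

/-! ## Group P: probability and algebra -/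

/-- the event: all primes of `cof` are inverted, those of `top` are not -/
def EE {Ω : Type} (A : ℕ → Set Ω) (s t m : ℕ) : Set Ω :=
  {ω | (∀ q ∈ cof s t m, ω ∈ A q) ∧ ∀ q ∈ top s t m, ω ∉ A q}

/-- PROB (no hypotheses). `π_m = μ(EE m) = ∏_{cof} μ(A q) ∏_{top} (1 - μ(A q)) > 0` (`cof` and `top` consist of primes `≥ N ≥ P₀`; they are
disjoint as `Pi3 s t m` is squarefree). `F = ∑_m w_m 1_{EE m}/π_m`, `E F = 1`,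
`E F² = ∑ w_m w_n μ(EE m ∩ EE n)/(π_m π_n) ≤ ∑ w w RR ≤ 1 + κ`: if the supports are disjoint the quotient is `1`; if
`cof m ∩ top n ≠ ∅` the intersection is empty; otherwise it is `∏_{cof∩cof} 1/μ(A q) ∏_{top∩top} 1/(1-μ(A q))`.
Cauchy-Schwarz: `1 = E F = E F 1_{F>0} ≤ (E F²)^(1/2) μ(F>0)^(1/2)`. -/
def SpecPROB : Prop := ∀ (Ω : Type) [MeasurableSpace Ω] (μ : MeasureTheory.Measure Ω) [MeasureTheory.IsProbabilityMeasure μ]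
  (A : ℕ → Set Ω), (∀ p, MeasurableSet (A p)) → ProbabilityTheory.iIndepSet (fun p : Nat.Primes => A (p : ℕ)) μ →
  ∀ (δ κ : ℝ) (P₀ s t : ℕ) (S : Finset ℕ) (w : ℕ → ℝ), 0 < δ → δ < 1 → 0 < κ → 1 ≤ P₀ →
  (∀ p : ℕ, p.Prime → P₀ ≤ p → δ / p ≤ μ.real (A p) ∧ μ.real (A p) ≤ 1 - δ) →
  (∀ m, 0 ≤ w m) → ∑ m ∈ S, w m = 1 →
  (∀ m ∈ S, 2 ≤ m ∧ Squarefree (Pi3 s t m) ∧ ∀ p : ℕ, p.Prime → p ∣ Pi3 s t m → P₀ ≤ p) →
  ∑ m ∈ S, ∑ n ∈ S, w m * w n * RR s t δ m n ≤ 1 + κ →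
  1 / (1 + κ) ≤ μ.real (⋃ m ∈ S, EE A s t m)

/-- IO (from PROB, DF): for every `N` the union over `m ≥ N` has measure `≥ 1/(1+κ)` for all `κ`. -/
def SpecIO : Prop := ∀ (Ω : Type) [MeasurableSpace Ω] (μ : MeasureTheory.Measure Ω) [MeasureTheory.IsProbabilityMeasure μ]
  (A : ℕ → Set Ω), (∀ p, MeasurableSet (A p)) → ProbabilityTheory.iIndepSet (fun p : Nat.Primes => A (p : ℕ)) μ →
  ∀ (δ : ℝ) (P₀ s t b : ℕ), 0 < δ → δ < 1 → Adm s t b →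
  (∀ p : ℕ, p.Prime → P₀ ≤ p → δ / p ≤ μ.real (A p) ∧ μ.real (A p) ≤ 1 - δ) →
  ∀ᵐ ω ∂μ, ∀ N : ℕ, ∃ m : ℕ, N ≤ m ∧ Squarefree (Pi3 s t m) ∧ ω ∈ EE A s t m

/-- the multiplicative set generated by `S` -/
def RS (S : Set ℕ) : Submonoid ℤ := Submonoid.closure ((fun p : ℕ => (p : ℤ)) '' S)

/-- `n` is a prime element of `ℤ[1/S]` -/
def PrimeIn (S : Set ℕ) (n : ℕ) : Prop := Prime (algebraMap ℤ (Localization (RS S)) (n : ℤ))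

/-- RING (no hypotheses). `n = P d`, `P = gpf n ∉ S` prime, `d` a product of elements of `S`, so a unit of `ℤ[1/S]`; `P` is prime in
`ℤ[1/S]` (`IsLocalization.isPrime_of_isPrime_disjoint` for the ideal `(P)`, `Ideal.span_singleton_prime`), not a unit, not `0`. -/
def SpecRING : Prop := ∀ (S : Set ℕ) (n : ℕ), (∀ p ∈ S, p.Prime) → 2 ≤ n → Squarefree n → (∀ q ∈ cofP n, q ∈ S) →
  gpf n ∉ S → PrimeIn S n

/-- CONV (no hypotheses). `∑ μ(A p) < ∞`, `μ(A p) < 1`. Borel-Cantelli: a.s. only finitely many `ω ∈ A p`; and the event `no p`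
has positive measure (`∏ (1 - μ(A p)) > 0`). `←`: for `S` finite and a prime triple `n` larger than the elements of `S` the three
numbers are prime in `ℤ[1/S]` (RING-like, `cofP = ∅`). `→`: on the event `S = ∅` the ring is `ℤ` (`RS ∅ = ⊥`), a nonempty
event meets every event of measure one. -/
def SpecCONV : Prop := ∀ (Ω : Type) [MeasurableSpace Ω] (μ : MeasureTheory.Measure Ω) [MeasureTheory.IsProbabilityMeasure μ]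
  (A : ℕ → Set Ω), (∀ p, MeasurableSet (A p)) → ProbabilityTheory.iIndepSet (fun p : Nat.Primes => A (p : ℕ)) μ →
  Summable (fun p : Nat.Primes => μ.real (A (p : ℕ))) → (∀ p : ℕ, p.Prime → μ (A p) < 1) →
  ((∀ᵐ ω ∂μ, {n : ℕ | PrimeIn {p | p.Prime ∧ ω ∈ A p} n ∧ PrimeIn {p | p.Prime ∧ ω ∈ A p} (n + 2) ∧
      PrimeIn {p | p.Prime ∧ ω ∈ A p} (n + 6)}.Infinite) ↔
    {n : ℕ | n.Prime ∧ (n + 2).Prime ∧ (n + 6).Prime}.Infinite)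

/-- MAIN1 (from IO, RING). `H = {h₀, h₀+s, h₀+t}`; `b` from admissibility at `2, 3, 5` (CRT); `m = n + h₀`, `m ≥ N ≥ h₀ + 2`; the
three numbers divide the squarefree `Pi3 s t m`. Countably many `H`. -/
def SpecMAIN1 : Prop := ∀ (Ω : Type) [MeasurableSpace Ω] (μ : MeasureTheory.Measure Ω) [MeasureTheory.IsProbabilityMeasure μ]
  (A : ℕ → Set Ω), (∀ p, MeasurableSet (A p)) → ProbabilityTheory.iIndepSet (fun p : Nat.Primes => A (p : ℕ)) μ →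
  ∀ (δ : ℝ) (P₀ : ℕ), 0 < δ →
  (∀ p : ℕ, p.Prime → P₀ ≤ p → δ / p ≤ μ.real (A p) ∧ μ.real (A p) ≤ 1 - δ) →
  ∀ᵐ ω ∂μ, ∀ H : Finset ℕ, H.card = 3 → (∀ p : ℕ, p.Prime → ∃ r : ℕ, ∀ h ∈ H, ¬ p ∣ r + h) →
    {n : ℕ | ∀ h ∈ H, PrimeIn {p | p.Prime ∧ ω ∈ A p} (n + h)}.Infinite

end

end Pool.Agent.Lib.MP3efbeb.T
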