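import Pool.Agent.Lib.MP_3efbeb_nt.T.GL
import Pool.Agent.Lib.MP_3efbeb_nt.Odd.FLK
import Pool.Agent.Lib.MP_3efbeb_nt.Odd.RT
import Pool.Agent.Lib.MP_3efbeb_nt.Odd.NU
import Pool.Agent.Lib.MP_391708_nt.QPA.Wmer

/-!
# Module UG: upper bound sieve in a class
-/

set_option autoImplicit false

namespace Pool.Agent.Lib.MP3efbeb.T

open Finset
open scoped Classical
open Pool.Agent.Lib.MP391708.QPA (PB rInd Rough Wp)

namespace UGM

open GLM

/-! ### The product -/

theorem nu_ge {s t p : ℕ} (hs : 0 < s) (hst : s < t) (hp : t < p) : 3 ≤ nu s t p := by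
  unfold nu
  have h : ({0, p - s, p - t} : Finset ℕ) ⊆ (range p).filter (fun r => p ∣ Pi3 s t r) := by
    intro r hr
    simp only [mem_insert, mem_singleton] at hr
    rw [mem_filter, mem_range]
    unfold Pi3
    rcases hr with rfl | rfl | rfl
    · exact ⟨by omega, by simp⟩
    · refine ⟨by omega, ?_⟩
      rw [show p - s + s = p by omega]
      exact (Dvd.intro_left _ rfl).mul_right _
    · refine ⟨by omega, ?_⟩
      rw [show p - t + t = p by omega]
      exact Dvd.intro_left _ rfl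
  have h3 : ({0, p - s, p - t} : Finset ℕ).card = 3 := by
    rw [card_insert_of_notMem, card_insert_of_notMem, card_singleton]
    · rw [mem_singleton]; omega
    · rw [mem_insert, mem_singleton]; omega
  rw [← h3]
  exact card_le_card h

theorem one_sub_le {s t p : ℕ} (hs : 0 < s) (hst : s < t) (hp : p.Prime) :
    1 - gg s t p ≤ (if p ≤ max 5 t then 8 else 1) * (1 - 1 / (p : ℝ)) ^ 3 := by
  have hp2 : (2 : ℝ) ≤ p := by exact_mod_cast hp.two_le
  have h1 : 1 / (p : ℝ) ≤ 1 / 2 := one_div_le_one_div_of_le (by norm_num) hp2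
  split_ifs with h
  · have h2 := gg_nonneg s t p
    have h3 : (1 / 2 : ℝ) ^ 3 ≤ (1 - 1 / (p : ℝ)) ^ 3 := pow_le_pow_left₀ (by norm_num) (by linarith) 3
    linarith
  · have h5 : ¬ p ≤ 5 := fun h' => h (h'.trans (le_max_left _ _))
    have ht : t < p := by
      by_contra h'
      exact h ((not_lt.1 h').trans (le_max_right _ _))
    have h6 : (3 : ℝ) ≤ nu s t p := by exact_mod_cast nu_ge hs hst ht
    unfold gg
    rw [if_neg h5, one_mul]
    have h7 : (3 : ℝ) / p ≤ (nu s t p : ℝ) / p := div_le_div_of_nonneg_right h6 (by positivity)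
    have h8 : 0 ≤ 1 / (p : ℝ) := by positivity
    have h9 : (3 : ℝ) / p = 3 * (1 / (p : ℝ)) := by ring
    nlinarith [mul_nonneg h8 h8, mul_nonneg (mul_nonneg h8 h8) (sub_nonneg.2 h1)]

/-- the upper bound for the product -/
theorem GG_le {s t : ℕ} (hs : 0 < s) (hst : s < t) : ∃ C : ℝ, 0 < C ∧ ∀ z : ℝ, 2 ≤ z →
    GG s t z ≤ C / Real.log z ^ 3 := by
  obtain ⟨C, hC, hW⟩ := Pool.Agent.Lib.MP391708.QPA.specWMER
  refine ⟨8 ^ (max 5 t + 1) * C ^ 3, by positivity, fun z hz => ?_⟩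
  have hl : 0 < Real.log z := Real.log_pos (by linarith)
  have hP : ∀ p ∈ PB z, p.Prime := fun p hp => by
    unfold PB at hp
    exact (mem_filter.1 hp).2
  have h1 : GG s t z ≤ ∏ p ∈ PB z, ((if p ≤ max 5 t then (8 : ℝ) else 1) * (1 - 1 / (p : ℝ)) ^ 3) := by
    unfold GG
    refine prod_le_prod (fun p hp => ?_) fun p hp => one_sub_le hs hst (hP p hp)
    have := gg_le_half s t (hP p hp)
    linarith
  have h2 : ∏ p ∈ PB z, ((if p ≤ max 5 t then (8 : ℝ) else 1) * (1 - 1 / (p : ℝ)) ^ 3) =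
      (∏ p ∈ PB z, (if p ≤ max 5 t then (8 : ℝ) else 1)) * Wp z ^ 3 := by
    rw [prod_mul_distrib, prod_pow]
    rfl
  have h3 : ∏ p ∈ PB z, (if p ≤ max 5 t then (8 : ℝ) else 1) ≤ 8 ^ (max 5 t + 1) := by
    rw [prod_ite, prod_const, prod_const_one, mul_one]
    refine pow_le_pow_right₀ (by norm_num) ?_
    refine (card_le_card (t := range (max 5 t + 1)) fun p hp => ?_).trans (card_range _).le
    rw [mem_range]
    have := (mem_filter.1 hp).2
    omega
  have h4 : 0 ≤ Wp z := by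
    unfold Wp
    refine prod_nonneg fun p hp => ?_
    have : 1 / (p : ℝ) ≤ 1 := by
      rw [div_le_one (by exact_mod_cast (hP p hp).pos)]
      exact_mod_cast (hP p hp).one_le
    linarith
  have h5 : Wp z ^ 3 ≤ (C / Real.log z) ^ 3 := pow_le_pow_left₀ h4 (hW z hz) 3
  calc GG s t z ≤ (∏ p ∈ PB z, (if p ≤ max 5 t then (8 : ℝ) else 1)) * Wp z ^ 3 := by
        rw [← h2]; exact h1
    _ ≤ 8 ^ (max 5 t + 1) * (C / Real.log z) ^ 3 := by gcongr
    _ = 8 ^ (max 5 t + 1) * C ^ 3 / Real.log z ^ 3 := by rw [div_pow]; ring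

/-! ### Roots -/

/-- the forms -/
def FF (M m₀ s t : ℕ) : Finset (ℕ × ℕ) := {(M, m₀), (M, m₀ + s), (M, m₀ + t)}

theorem vF_FF {M m₀ s t : ℕ} (hs : 0 < s) (hst : s < t) (j : ℕ) :
    Odd.vF (FF M m₀ s t) j = Pi3 s t (M * j + m₀) := by
  unfold Odd.vF FF Pi3
  rw [prod_insert, prod_insert, prod_singleton]
  · ring
  · simp only [mem_singleton, Prod.mk.injEq, true_and]; omega
  · simp only [mem_insert, mem_singleton, Prod.mk.injEq, true_and]; omega

theorem Pi3_modEq {s t n r r' : ℕ} (h : r ≡ r' [MOD n]) : Pi3 s t r ≡ Pi3 s t r' [MOD n] :=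
  (h.mul (h.add_right s)).mul (h.add_right t)

theorem Pi3_dvd {s t n r r' : ℕ} (h : r ≡ r' [MOD n]) : n ∣ Pi3 s t r ↔ n ∣ Pi3 s t r' :=
  (Pi3_modEq h).dvd_iff dvd_rfl

theorem nu_FF {p M m₀ s t : ℕ} (hp : p.Prime) (hM : ¬ p ∣ M) (hs : 0 < s) (hst : s < t) :
    Odd.nu (FF M m₀ s t) p = nu s t p := by
  have : Fact p.Prime := ⟨hp⟩
  have hM' : (M : ZMod p) ≠ 0 := by
    rw [Ne, ZMod.natCast_eq_zero_iff]
    exact hM
  unfold Odd.nu nu
  refine card_nbij' (fun j => (M * j + m₀) % p)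
    (fun r => (((r : ZMod p) - m₀) * (M : ZMod p)⁻¹).val) ?_ ?_ ?_ ?_
  · intro j hj
    simp only [coe_filter, mem_range, Set.mem_ofPred_eq] at hj ⊢
    refine ⟨Nat.mod_lt _ hp.pos, ?_⟩
    rw [vF_FF hs hst] at hj
    exact (Pi3_dvd (Nat.mod_modEq _ _)).2 hj.2
  · intro r hr
    simp only [coe_filter, mem_range, Set.mem_ofPred_eq] at hr ⊢
    refine ⟨ZMod.val_lt _, ?_⟩
    rw [vF_FF hs hst]
    refine (Pi3_dvd (s := s) (t := t) ?_).2 hr.2
    rw [← ZMod.natCast_eq_natCast_iff]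
    push_cast
    rw [ZMod.natCast_val, ZMod.cast_id', id_eq]
    field_simp
    ring
  · intro j hj
    simp only [coe_filter, mem_range, Set.mem_ofPred_eq] at hj ⊢
    have h1 : (((M * j + m₀) % p : ℕ) : ZMod p) = M * j + m₀ := by
      rw [ZMod.natCast_mod]
      push_cast
      ring
    rw [h1]
    have h2 : ((M : ZMod p) * j + m₀ - m₀) * (M : ZMod p)⁻¹ = j := by
      field_simp
      ring
    rw [h2, ZMod.val_natCast, Nat.mod_eq_of_lt hj.1]
  · intro r hr
    simp only [coe_filter, mem_range, Set.mem_ofPred_eq] at hr ⊢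
    have h1 : M * (((r : ZMod p) - m₀) * (M : ZMod p)⁻¹).val + m₀ ≡ r [MOD p] := by
      rw [← ZMod.natCast_eq_natCast_iff]
      push_cast
      rw [ZMod.natCast_val, ZMod.cast_id', id_eq]
      field_simp
      ring
    have h2 : (M * (((r : ZMod p) - m₀) * (M : ZMod p)⁻¹).val + m₀) % p = r % p := h1
    rw [h2, Nat.mod_eq_of_lt hr.1]

/-- the number of classes -/
theorem card_classes {s t g : ℕ} (hs : 0 < s) (hst : s < t) (hg : Squarefree g) :
    ((range g).filter (fun r => g ∣ Pi3 s t r)).card ≤ 3 ^ g.primeFactors.card := by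
  have h1 : (range g).filter (fun r => g ∣ Pi3 s t r) =
      (range g).filter (fun r => g ∣ Odd.vF (FF 1 0 s t) r) := by
    refine filter_congr fun r _ => ?_
    rw [vF_FF hs hst]
    simp
  rw [h1]
  change Odd.nu (FF 1 0 s t) g ≤ _
  conv_lhs => rw [← Nat.prod_primeFactors_of_squarefree hg]
  rw [Odd.RTM.nu_prod _ _ fun p hp => Nat.prime_of_mem_primeFactors hp, ← prod_const]
  refine prod_le_prod' fun p hp => ?_
  have hpp := Nat.prime_of_mem_primeFactors hp
  rw [nu_FF hpp (by simpa using hpp.one_lt.ne') hs hst]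
  exact nu_le s t hpp

/-! ### The sieve in a class -/

/-- the sieve -/
theorem class_sieve {C : ℝ} (hC : 0 < C) (hFLK : ∀ (b : ℕ) (z : ℝ), 2 ≤ z →
    ∀ (S : Finset ℕ) (v : ℕ → ℕ) (om : ℕ → ℝ) (X : ℝ) (g : ℕ → ℝ), 0 ≤ X → (∀ i ∈ S, 0 ≤ om i) →
    (∀ p : ℕ, p.Prime → 0 ≤ g p ∧ g p ≤ (3 : ℕ) / (p : ℝ) ∧ g p ≤ 1 / 2) →
    |(∑ i ∈ S, om i * rInd z (v i)) - X * ∏ p ∈ PB z, (1 - g p)|
      ≤ C * Real.exp (-(b : ℝ)) * X * (∏ p ∈ PB z, (1 - g p))
        + C * (1 + Real.log z) *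
          ∑ δ ∈ (Icc 1 ⌊z ^ (8 * b + 16)⌋₊).filter
            (fun δ => Squarefree δ ∧ ∀ p : ℕ, p.Prime → p ∣ δ → (p : ℝ) < z),
            |(∑ i ∈ S.filter (fun i => δ ∣ v i), om i) - X * ∏ p ∈ δ.primeFactors, g p|)
    {s t b : ℕ} (hA : Adm s t b) {z : ℝ} (hz : 2 ≤ z) {g m₀ T : ℕ} (hg : Rough z g)
    (hm : m₀ % 30 = b) :
    (((Ico T (2 * T)).filter (fun j => Rough z (Pi3 s t (30 * g * j + m₀)))).card : ℝ) ≤
      (1 + C) * T * GG s t z + C * (1 + Real.log z) * z ^ 48 := by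
  obtain ⟨hs, hst, hb, hcop⟩ := hA
  have hlz : 0 < Real.log z := Real.log_pos (by linarith)
  have key := hFLK 1 z hz (Ico T (2 * T)) (fun j => Pi3 s t (30 * g * j + m₀)) (fun _ => 1) T
    (gg s t) (Nat.cast_nonneg _) (fun _ _ => zero_le_one) (fun p hp => ⟨gg_nonneg s t p, by
      have := gg_le s t hp
      exact_mod_cast this, (gg_le_half s t hp).trans (by norm_num)⟩)
  have e1 : ∑ j ∈ Ico T (2 * T), (1 : ℝ) * rInd z (Pi3 s t (30 * g * j + m₀)) =
      (((Ico T (2 * T)).filter (fun j => Rough z (Pi3 s t (30 * g * j + m₀)))).card : ℝ) := by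
    simp only [one_mul, rInd]
    rw [sum_boole]
  have hmod : ∀ j, 30 * g * j + m₀ ≡ b [MOD 30] := by
    intro j
    have h1 : 30 * g * j + m₀ ≡ 0 + m₀ [MOD 30] := by
      refine Nat.ModEq.add_right _ ?_
      rw [Nat.modEq_zero_iff_dvd, mul_assoc]
      exact Dvd.intro _ rfl
    rw [zero_add] at h1
    refine h1.trans ?_
    change m₀ % 30 = b % 30
    rw [hm, Nat.mod_eq_of_lt hb]
  have hrem : ∀ δ ∈ (Icc 1 ⌊z ^ (8 * 1 + 16)⌋₊).filter
      (fun δ => Squarefree δ ∧ ∀ p : ℕ, p.Prime → p ∣ δ → (p : ℝ) < z),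
      |(∑ j ∈ (Ico T (2 * T)).filter (fun j => δ ∣ Pi3 s t (30 * g * j + m₀)), (1 : ℝ)) -
        T * ∏ p ∈ δ.primeFactors, gg s t p| ≤ z ^ 24 := by
    intro δ hδ
    rw [mem_filter, mem_Icc] at hδ
    obtain ⟨⟨hδ1, hδ2⟩, hsq, hpr⟩ := hδ
    have hδz : (δ : ℝ) ≤ z ^ 24 := (Nat.le_floor_iff (by positivity)).1 hδ2
    rw [sum_const, nsmul_eq_mul, mul_one]
    by_cases h30 : ∃ p : ℕ, p.Prime ∧ p ∣ δ ∧ p ≤ 5
    · obtain ⟨p, hp, hpδ, hp5⟩ := h30
      have hp30 : p ∣ 30 := by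
        have := hp.two_le
        interval_cases p
        · norm_num
        · norm_num
        · exact absurd hp (by norm_num)
        · norm_num
      have h1 : (Ico T (2 * T)).filter (fun j => δ ∣ Pi3 s t (30 * g * j + m₀)) = ∅ := by
        refine filter_eq_empty_iff.2 fun j _ hj => ?_
        have h2 : p ∣ Pi3 s t b :=
          (Pi3_dvd (s := s) (t := t) ((hmod j).of_dvd hp30)).1 (hpδ.trans hj)
        exact Nat.Prime.not_coprime_iff_dvd.2 ⟨p, hp, h2, hp30⟩ hcop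
      have h2 : ∏ p ∈ δ.primeFactors, gg s t p = 0 :=
        prod_eq_zero (Nat.mem_primeFactors.2 ⟨hp, hpδ, by omega⟩) (by simp [gg, hp5])
      rw [h1, h2]
      simp only [card_empty, Nat.cast_zero, mul_zero, sub_zero, abs_zero]
      positivity
    · push Not at h30
      have hnM : ∀ p : ℕ, p.Prime → p ∣ δ → ¬ p ∣ 30 * g := by
        intro p hp hpδ hpM
        rcases hp.dvd_mul.1 hpM with h | h
        · have h5 := h30 p hp hpδ
          have h6 : p ∈ Nat.primeFactors 30 := Nat.mem_primeFactors.2 ⟨hp, h, by norm_num⟩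
          have h7 : Nat.primeFactors 30 = {2, 3, 5} := by
            rw [show 30 = 2 * (3 * 5) by norm_num, Nat.primeFactors_mul (by norm_num) (by norm_num),
              Nat.primeFactors_mul (by norm_num) (by norm_num), Nat.Prime.primeFactors (by norm_num),
              Nat.Prime.primeFactors (by norm_num), Nat.Prime.primeFactors (by norm_num)]
            rfl
          rw [h7] at h6
          simp only [mem_insert, mem_singleton] at h6
          omega
        · have h8 := hg p hp h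
          have h9 := hpr p hp hpδ
          linarith
      have h1 := Odd.specRT (FF (30 * g) m₀ s t) δ T hsq
      have h2 : (Ico T (2 * T)).filter (fun j => δ ∣ Odd.vF (FF (30 * g) m₀ s t) j) =
          (Ico T (2 * T)).filter (fun j => δ ∣ Pi3 s t (30 * g * j + m₀)) :=
        filter_congr fun j _ => by rw [vF_FF hs hst]
      have h3 : ∏ p ∈ δ.primeFactors, ((Odd.nu (FF (30 * g) m₀ s t) p : ℝ) / p) =
          ∏ p ∈ δ.primeFactors, gg s t p := by
        refine prod_congr rfl fun p hp => ?_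
        have hpp := Nat.prime_of_mem_primeFactors hp
        have hpδ := Nat.dvd_of_mem_primeFactors hp
        rw [nu_FF hpp (hnM p hpp hpδ) hs hst]
        unfold gg
        rw [if_neg (by have := h30 p hpp hpδ; omega)]
      rw [h2, h3] at h1
      exact h1.trans hδz
  have hsum : ∑ δ ∈ (Icc 1 ⌊z ^ (8 * 1 + 16)⌋₊).filter
      (fun δ => Squarefree δ ∧ ∀ p : ℕ, p.Prime → p ∣ δ → (p : ℝ) < z),
      |(∑ j ∈ (Ico T (2 * T)).filter (fun j => δ ∣ Pi3 s t (30 * g * j + m₀)), (1 : ℝ)) -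
        T * ∏ p ∈ δ.primeFactors, gg s t p| ≤ z ^ 48 := by
    refine (sum_le_card_nsmul _ _ _ hrem).trans ?_
    rw [nsmul_eq_mul]
    have h1 : ((((Icc 1 ⌊z ^ (8 * 1 + 16)⌋₊).filter
      (fun δ => Squarefree δ ∧ ∀ p : ℕ, p.Prime → p ∣ δ → (p : ℝ) < z)).card : ℕ) : ℝ) ≤ z ^ 24 := by
      refine le_trans ?_ (Nat.floor_le (by positivity : (0 : ℝ) ≤ z ^ (8 * 1 + 16)))
      have h2 := card_filter_le (Icc 1 ⌊z ^ (8 * 1 + 16)⌋₊)
        (fun δ => Squarefree δ ∧ ∀ p : ℕ, p.Prime → p ∣ δ → (p : ℝ) < z)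
      rw [Nat.card_Icc, Nat.add_sub_cancel] at h2
      exact_mod_cast h2
    calc _ ≤ z ^ 24 * z ^ 24 := by gcongr
      _ = z ^ 48 := by ring
  have hG : 0 ≤ GG s t z := by
    unfold GG
    refine prod_nonneg fun p hp => ?_
    unfold PB at hp
    have := gg_le_half s t (mem_filter.1 hp).2
    linarith
  have he : Real.exp (-((1 : ℕ) : ℝ)) ≤ 1 := Real.exp_le_one_iff.2 (by norm_num)
  rw [e1] at key
  have h1 := (abs_le.1 key).2
  have h2 : C * Real.exp (-((1 : ℕ) : ℝ)) * T * ∏ p ∈ PB z, (1 - gg s t p) ≤ C * T * GG s t z := by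
    change C * Real.exp (-((1 : ℕ) : ℝ)) * T * GG s t z ≤ _
    have h3 : C * Real.exp (-((1 : ℕ) : ℝ)) ≤ C * 1 := by gcongr
    rw [mul_one] at h3
    gcongr
  have h3 : C * (1 + Real.log z) * ∑ δ ∈ (Icc 1 ⌊z ^ (8 * 1 + 16)⌋₊).filter
      (fun δ => Squarefree δ ∧ ∀ p : ℕ, p.Prime → p ∣ δ → (p : ℝ) < z),
      |(∑ j ∈ (Ico T (2 * T)).filter (fun j => δ ∣ Pi3 s t (30 * g * j + m₀)), (1 : ℝ)) -
        T * ∏ p ∈ δ.primeFactors, gg s t p| ≤ C * (1 + Real.log z) * z ^ 48 := by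
    gcongr
  change _ - (T : ℝ) * GG s t z ≤ _ at h1
  linarith

/-- the elements of a class -/
theorem class_card_le {s t b x g r m₀ : ℕ} {z η : ℝ} (hz : z ≤ (x : ℝ) ^ η) (hg : 0 < g)
    (hcop : Nat.Coprime 30 g) (hb : b < 30) (h1 : m₀ ≡ b [MOD 30]) (h2 : m₀ ≡ r [MOD g])
    (h3 : m₀ < 30 * g) :
    (((Ioc x (2 * x)).filter (fun m => m % 30 = b ∧ Rough ((x : ℝ) ^ η) (Pi3 s t m) ∧
      g ∣ Pi3 s t m)).filter (fun m => m % g = r)).card ≤
      ((Ico (x / (30 * g)) (2 * (x / (30 * g)))).filter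
        (fun j => Rough z (Pi3 s t (30 * g * j + m₀)))).card + 2 := by
  set T := x / (30 * g) with hT
  have hM : 0 < 30 * g := by positivity
  have hsub : ((Ioc x (2 * x)).filter (fun m => m % 30 = b ∧ Rough ((x : ℝ) ^ η) (Pi3 s t m) ∧
      g ∣ Pi3 s t m)).filter (fun m => m % g = r) ⊆
      (((Ico T (2 * T)).filter (fun j => Rough z (Pi3 s t (30 * g * j + m₀)))) ∪
        {2 * T, 2 * T + 1}).image (fun j => 30 * g * j + m₀) := by
    intro m hm
    simp only [mem_filter, mem_Ioc] at hm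
    obtain ⟨⟨⟨hm1, hm2⟩, hm3, hm4, -⟩, hm5⟩ := hm
    have e1 : m ≡ m₀ [MOD 30] := by
      refine Nat.ModEq.trans ?_ h1.symm
      change m % 30 = b % 30
      rw [hm3, Nat.mod_eq_of_lt hb]
    have e2 : m ≡ m₀ [MOD g] := by
      refine Nat.ModEq.trans ?_ h2.symm
      change m % g = r % g
      rw [← hm5, Nat.mod_mod]
    have e3 : m % (30 * g) = m₀ := by
      have e4 : m ≡ m₀ [MOD 30 * g] := (Nat.modEq_and_modEq_iff_modEq_mul hcop).1 ⟨e1, e2⟩
      have e5 : m % (30 * g) = m₀ % (30 * g) := e4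
      rw [e5, Nat.mod_eq_of_lt h3]
    have e6 : 30 * g * (m / (30 * g)) + m₀ = m := by
      conv_rhs => rw [← Nat.div_add_mod m (30 * g), e3]
    have e7 : T ≤ m / (30 * g) := Nat.div_le_div_right hm1.le
    have e8 : m / (30 * g) ≤ 2 * T + 1 := by
      have e9 : x < 30 * g * (T + 1) := by
        have := Nat.lt_mul_div_succ x hM
        simpa using this
      have e10 : m < 30 * g * (2 * T + 2) := by
        have : 30 * g * (2 * T + 2) = 2 * (30 * g * (T + 1)) := by ring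
        omega
      have := (Nat.div_lt_iff_lt_mul hM).2 (by rw [Nat.mul_comm]; exact e10)
      omega
    refine mem_image.2 ⟨m / (30 * g), ?_, e6⟩
    rw [mem_union, mem_filter, mem_Ico, mem_insert, mem_singleton, e6]
    by_cases h : m / (30 * g) < 2 * T
    · exact Or.inl ⟨⟨e7, h⟩, fun p hp hpd => hz.trans (hm4 p hp hpd)⟩
    · right
      omega
  refine (card_le_card hsub).trans (card_image_le.trans ((card_union_le _ _).trans ?_))
  exact Nat.add_le_add_left (card_le_two) _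

/-- the number of prime factors of a rough number -/
theorem card_pf {x g : ℕ} {η : ℝ} (hη : 0 < η) (hx : 2 ≤ x) (hsq : Squarefree g)
    (hR : Rough ((x : ℝ) ^ η) g) (hg : (g : ℝ) ≤ x) : g.primeFactors.card ≤ ⌈1 / η⌉₊ := by
  have hx1 : (1 : ℝ) < x := by exact_mod_cast hx
  have h1 : ((x : ℝ) ^ η) ^ g.primeFactors.card ≤ (g : ℝ) := by
    have h2 : ∏ p ∈ g.primeFactors, (p : ℝ) = g := by
      rw [← Nat.cast_prod, Nat.prod_primeFactors_of_squarefree hsq]
    rw [← h2, ← prod_const]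
    refine prod_le_prod (fun _ _ => by positivity) fun p hp => ?_
    exact hR p (Nat.prime_of_mem_primeFactors hp) (Nat.dvd_of_mem_primeFactors hp)
  have h2 : (x : ℝ) ^ (η * g.primeFactors.card) ≤ (x : ℝ) ^ (1 : ℝ) := by
    rw [Real.rpow_mul (by linarith), Real.rpow_natCast, Real.rpow_one]
    exact h1.trans hg
  have h3 : η * g.primeFactors.card ≤ 1 := (Real.rpow_le_rpow_left_iff hx1).1 h2
  have h4 : (g.primeFactors.card : ℝ) ≤ 1 / η := by
    rw [le_div_iff₀ hη]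
    linarith
  exact_mod_cast h4.trans (Nat.le_ceil _)

end UGM

open UGM GLM in
/-- UG. -/
theorem specUG : SpecUG := by
  intro s t b hA η c hη hc hc1
  obtain ⟨C, hC, hFLK⟩ := Odd.specFLK 3
  obtain ⟨hs, hst, hb, hcopb⟩ := hA
  obtain ⟨C₁, hC₁, hGG⟩ := GG_le hs hst
  set η' := min η (c / 100) with hη'
  have hη'0 : 0 < η' := lt_min hη (by positivity)
  have hev : ∀ᶠ x : ℝ in Filter.atTop, 6 ≤ x ^ η' ∧ Real.log x ^ (3 : ℝ) ≤ x ^ (c / 2) ∧ 2 ≤ x := by
    refine ((tendsto_rpow_atTop hη'0).eventually_ge_atTop 6).and (Filter.Eventually.and ?_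
      (Filter.eventually_ge_atTop 2))
    have h1 := (isLittleO_log_rpow_rpow_atTop (3 : ℝ) (show 0 < c / 2 by positivity)).bound
      (show (0 : ℝ) < 1 by norm_num)
    filter_upwards [h1, Filter.eventually_ge_atTop (1 : ℝ)] with x hx hx1
    have h2 : 0 ≤ Real.log x := Real.log_nonneg hx1
    rw [Real.norm_of_nonneg (by positivity), Real.norm_of_nonneg (by positivity), one_mul] at hx
    exact hx
  obtain ⟨X₁, hX₁⟩ := Filter.eventually_atTop.1 hev
  refine ⟨3 ^ ⌈1 / η⌉₊ * ((1 + C) * C₁ / η' ^ 3 + C + 2), by positivity, ⌈X₁⌉₊ + 2,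
    fun x hx g hsq hR hgx => ?_⟩
  have hxX : X₁ ≤ (x : ℝ) := (Nat.le_ceil _).trans (by exact_mod_cast (by omega : ⌈X₁⌉₊ ≤ x))
  obtain ⟨hz6, hlog3, hx2⟩ := hX₁ x hxX
  have hx2' : 2 ≤ x := by exact_mod_cast hx2
  have hx0 : (0 : ℝ) < x := by linarith
  have hx1 : (1 : ℝ) ≤ x := by linarith
  have hg0 : 0 < g := Nat.pos_of_ne_zero hsq.ne_zero
  have hg0' : (0 : ℝ) < g := by exact_mod_cast hg0
  set z := (x : ℝ) ^ η' with hz
  have hzη : z ≤ (x : ℝ) ^ η := Real.rpow_le_rpow_of_exponent_le hx1 (min_le_left _ _)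
  have hL : 0 < Real.log x := Real.log_pos (by linarith)
  have hlz : Real.log z = η' * Real.log x := Real.log_rpow hx0 _
  have hlog3' : Real.log x ^ 3 ≤ (x : ℝ) ^ (c / 2) := by
    have : Real.log x ^ (3 : ℝ) = Real.log x ^ 3 := by
      rw [show (3 : ℝ) = ((3 : ℕ) : ℝ) by norm_num, Real.rpow_natCast]
    rw [← this]
    exact hlog3
  have hcop : Nat.Coprime 30 g := by
    refine Nat.Coprime.symm (Nat.coprime_of_dvd fun p hp hpg hp30 => ?_)
    have h1 := hR p hp hpg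
    have h2 : (6 : ℝ) ≤ p := hz6.trans (hzη.trans h1)
    have h3 : 6 ≤ p := by exact_mod_cast h2
    have h6 : p ∈ Nat.primeFactors 30 := Nat.mem_primeFactors.2 ⟨hp, hp30, by norm_num⟩
    have h7 : Nat.primeFactors 30 = {2, 3, 5} := by
      rw [show 30 = 2 * (3 * 5) by norm_num, Nat.primeFactors_mul (by norm_num) (by norm_num),
        Nat.primeFactors_mul (by norm_num) (by norm_num), Nat.Prime.primeFactors (by norm_num),
        Nat.Prime.primeFactors (by norm_num), Nat.Prime.primeFactors (by norm_num)]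
      rfl
    rw [h7] at h6
    simp only [mem_insert, mem_singleton] at h6
    omega
  -- the main comparison
  have hxg : (x : ℝ) ^ (c / 2) ≤ x / (g * Real.log x ^ 3) := by
    rw [le_div_iff₀ (by positivity)]
    calc (x : ℝ) ^ (c / 2) * (g * Real.log x ^ 3)
        ≤ (x : ℝ) ^ (c / 2) * ((x : ℝ) ^ (1 - c) * (x : ℝ) ^ (c / 2)) := by gcongr
      _ = x := by
          rw [← Real.rpow_add hx0, ← Real.rpow_add hx0]
          ring_nf
          exact Real.rpow_one _
  have hclass : ∀ r ∈ (range g).filter (fun r => g ∣ Pi3 s t r),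
      ((((Ioc x (2 * x)).filter (fun m => m % 30 = b ∧ Rough ((x : ℝ) ^ η) (Pi3 s t m) ∧
        g ∣ Pi3 s t m)).filter (fun m => m % g = r)).card : ℝ) ≤
      ((1 + C) * C₁ / η' ^ 3 + C + 2) * (x / (g * Real.log x ^ 3)) := by
    intro r hr
    rw [mem_filter, mem_range] at hr
    obtain ⟨m₀, hm₀1, hm₀2⟩ := Nat.chineseRemainder hcop b r
    have hm : m₀ % (30 * g) < 30 * g := Nat.mod_lt _ (by positivity)
    have h1 : m₀ % (30 * g) ≡ b [MOD 30] := ((Nat.mod_modEq m₀ (30 * g)).of_mul_right g).trans hm₀1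
    have h2 : m₀ % (30 * g) ≡ r [MOD g] := ((Nat.mod_modEq m₀ (30 * g)).of_mul_left 30).trans hm₀2
    have h3 := class_card_le (s := s) (t := t) (x := x) hzη hg0 hcop hb h1 h2 hm
    have h4 : m₀ % (30 * g) % 30 = b := by
      have h5 : m₀ % (30 * g) % 30 = b % 30 := h1
      rw [h5, Nat.mod_eq_of_lt hb]
    have h5 := class_sieve hC (fun b z => by exact_mod_cast hFLK b z) ⟨hs, hst, hb, hcopb⟩
      (z := z) (by linarith) (g := g) (m₀ := m₀ % (30 * g)) (T := x / (30 * g))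
      (fun p hp hpg => hzη.trans (hR p hp hpg)) h4
    have h6 : ((x / (30 * g) : ℕ) : ℝ) ≤ x / g := by
      refine (Nat.cast_div_le).trans ?_
      push_cast
      rw [div_le_div_iff₀ (by positivity) hg0']
      nlinarith [mul_pos hx0 hg0']
    have h7 : GG s t z ≤ C₁ / (η' ^ 3 * Real.log x ^ 3) := by
      have := hGG z (by linarith)
      rwa [hlz, mul_pow] at this
    have hG0 : 0 ≤ GG s t z := by
      unfold GG
      refine prod_nonneg fun p hp => ?_
      unfold PB at hp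
      have := gg_le_half s t (mem_filter.1 hp).2
      linarith
    have h8 : (1 + C) * ((x / (30 * g) : ℕ) : ℝ) * GG s t z ≤
        (1 + C) * C₁ / η' ^ 3 * (x / (g * Real.log x ^ 3)) := by
      calc (1 + C) * ((x / (30 * g) : ℕ) : ℝ) * GG s t z
          ≤ (1 + C) * (x / g) * (C₁ / (η' ^ 3 * Real.log x ^ 3)) := by gcongr
        _ = _ := by field_simp
    have h9 : C * (1 + Real.log z) * z ^ 48 ≤ C * (x : ℝ) ^ (c / 2) := by
      have h10 : 1 + Real.log z ≤ z := by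
        have := Real.log_le_sub_one_of_pos (by linarith : 0 < z)
        linarith
      have h11 : z ^ 49 ≤ (x : ℝ) ^ (c / 2) := by
        rw [hz, ← Real.rpow_natCast, ← Real.rpow_mul hx0.le]
        refine Real.rpow_le_rpow_of_exponent_le hx1 ?_
        have : η' ≤ c / 100 := min_le_right _ _
        push_cast
        linarith
      calc C * (1 + Real.log z) * z ^ 48 ≤ C * z * z ^ 48 := by gcongr
        _ = C * z ^ 49 := by ring
        _ ≤ C * (x : ℝ) ^ (c / 2) := by gcongr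
    have h10 : (1 : ℝ) ≤ (x : ℝ) ^ (c / 2) := Real.one_le_rpow hx1 (by positivity)
    have h11 : C * (x : ℝ) ^ (c / 2) ≤ C * (x / (g * Real.log x ^ 3)) := by gcongr
    have h12 : (2 : ℝ) ≤ 2 * (x / (g * Real.log x ^ 3)) := by linarith
    have h13 : ((((Ioc x (2 * x)).filter (fun m => m % 30 = b ∧
        Rough ((x : ℝ) ^ η) (Pi3 s t m) ∧ g ∣ Pi3 s t m)).filter (fun m => m % g = r)).card : ℝ) ≤
        (((Ico (x / (30 * g)) (2 * (x / (30 * g)))).filter
        (fun j => Rough z (Pi3 s t (30 * g * j + m₀ % (30 * g))))).card : ℝ) + 2 := by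
      exact_mod_cast h3
    calc _ ≤ _ := h13
      _ ≤ (1 + C) * ((x / (30 * g) : ℕ) : ℝ) * GG s t z + C * (1 + Real.log z) * z ^ 48 + 2 := by
          linarith
      _ ≤ (1 + C) * C₁ / η' ^ 3 * (x / (g * Real.log x ^ 3)) + C * (x / (g * Real.log x ^ 3)) +
          2 * (x / (g * Real.log x ^ 3)) := by linarith
      _ = _ := by ring
  -- summation over the classes
  have hsum : (((Ioc x (2 * x)).filter (fun m => m % 30 = b ∧ Rough ((x : ℝ) ^ η) (Pi3 s t m) ∧
      g ∣ Pi3 s t m)).card : ℝ) = ∑ r ∈ (range g).filter (fun r => g ∣ Pi3 s t r),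
      ((((Ioc x (2 * x)).filter (fun m => m % 30 = b ∧ Rough ((x : ℝ) ^ η) (Pi3 s t m) ∧
        g ∣ Pi3 s t m)).filter (fun m => m % g = r)).card : ℝ) := by
    rw [← Nat.cast_sum]
    congr 1
    refine card_eq_sum_card_fiberwise fun m hm => ?_
    simp only [coe_filter, Set.mem_ofPred_eq, mem_range] at hm ⊢
    exact ⟨Nat.mod_lt _ hg0, (Pi3_dvd (Nat.mod_modEq m g)).2 hm.2.2.2⟩
  have hxc : (g : ℝ) ≤ x := by
    refine hgx.trans ?_
    calc (x : ℝ) ^ (1 - c) ≤ (x : ℝ) ^ (1 : ℝ) :=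
          Real.rpow_le_rpow_of_exponent_le hx1 (by linarith)
      _ = x := Real.rpow_one _
  have hK : ((((range g).filter (fun r => g ∣ Pi3 s t r)).card : ℕ) : ℝ) ≤ 3 ^ ⌈1 / η⌉₊ := by
    have h1 := (card_classes hs hst hsq).trans
      (Nat.pow_le_pow_right (by norm_num) (card_pf hη hx2' hsq hR hxc))
    exact_mod_cast h1
  rw [hsum]
  refine (sum_le_card_nsmul _ _ _ hclass).trans ?_
  rw [nsmul_eq_mul]
  calc _ ≤ 3 ^ ⌈1 / η⌉₊ * (((1 + C) * C₁ / η' ^ 3 + C + 2) * (x / (g * Real.log x ^ 3))) := by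
        gcongr
    _ = _ := by ring

end Pool.Agent.Lib.MP3efbeb.T
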